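import Mathlib

/-!
helper857_lin (MP_0430e4_lc): the linear programming hierarchy for binary linear codes.
-/

set_option autoImplicit false

namespace Pool.Agent.helper857_lin

/-- the sign `(-1)^b` -/
def sg (b : ZMod 2) : ℝ := if b = 0 then 1 else -1

/-- **The level `ℓ` of the hierarchy**: the feasible solutions of the linear program of level `ℓ`,
for linear codes of length `n` and minimum distance at least `d`.  They are the real functions `a`
of `ℓ` binary words of length `n` which are nonnegative, have the value `1` at the zero tuple,
depend only on the span of the words, vanish if this span contains a nonzero word of weight less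
than `d`, and have nonnegative Fourier transforms in each set `J` of the words, the other words
being fixed.  The indicator of the tuples of words of a linear code of minimum distance at least
`d` is a feasible solution, for which the sums of the theorem are the powers of the size of the
code; the level one is the linear program of Delsarte. -/
structure Feas (n d ℓ : ℕ) (a : (Fin ℓ → Fin n → ZMod 2) → ℝ) : Prop where
  nonneg : ∀ X, 0 ≤ a X
  one : a 0 = 1
  span : ∀ X X' : Fin ℓ → Fin n → ZMod 2,
    Submodule.span (ZMod 2) (Set.range X) = Submodule.span (ZMod 2) (Set.range X') → a X = a X'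
  dist : ∀ (X : Fin ℓ → Fin n → ZMod 2), ∀ u ∈ Submodule.span (ZMod 2) (Set.range X),
    u ≠ 0 → hammingNorm u < d → a X = 0
  fourier : ∀ (J : Finset (Fin ℓ)) (X Y : Fin ℓ → Fin n → ZMod 2),
    0 ≤ ∑ Z : Fin ℓ → Fin n → ZMod 2, open Classical in
      if ∀ i, i ∉ J → Z i = X i then a Z * sg (∑ j ∈ J, Y j ⬝ᵥ Z j) else 0

end Pool.Agent.helper857_lin
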