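import Mathlib
import Pool.Agent.helper857_lin.Def

/-!
helper857_lin (MP_0430e4_lc): tuples of binary words, and sums over the tuples with prescribed
linear combinations.
-/

set_option autoImplicit false
set_option linter.unusedSectionVars false

namespace Pool.Agent.helper857_lin

open Finset

/-- binary words of length `n` -/
abbrev Wd (n : ℕ) : Type := Fin n → ZMod 2

lemma zcase (a : ZMod 2) : a = 0 ∨ a = 1 := by
  revert a
  decide

lemma zadd (a : ZMod 2) : a + a = 0 := by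
  revert a
  decide

lemma sg_zero : sg 0 = 1 := if_pos rfl

lemma sg_one : sg 1 = -1 := if_neg (by decide)

lemma sg_add (a b : ZMod 2) : sg (a + b) = sg a * sg b := by
  rcases zcase a with rfl | rfl
  · rw [zero_add, sg_zero, one_mul]
  · rcases zcase b with rfl | rfl
    · rw [add_zero, sg_zero, mul_one]
    · rw [zadd, sg_zero, sg_one]
      norm_num

lemma sg_abs (a : ZMod 2) : |sg a| = 1 := by
  rcases zcase a with rfl | rfl
  · rw [sg_zero, abs_one]
  · rw [sg_one, abs_neg, abs_one]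

variable {ℓ n : ℕ}

/-- the linear combination with the coefficients `c` -/
def dt (c : Fin ℓ → ZMod 2) (X : Fin ℓ → Wd n) : Wd n := ∑ i, c i • X i

lemma dt_add_left (c c' : Fin ℓ → ZMod 2) (X : Fin ℓ → Wd n) :
    dt (c + c') X = dt c X + dt c' X := by
  unfold dt
  rw [← Finset.sum_add_distrib]
  exact Finset.sum_congr rfl fun i _ => by rw [Pi.add_apply, add_smul]

lemma dt_zero_left (X : Fin ℓ → Wd n) : dt 0 X = 0 := by
  unfold dt
  simp

lemma dt_add_right (c : Fin ℓ → ZMod 2) (X X' : Fin ℓ → Wd n) :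
    dt c (X + X') = dt c X + dt c X' := by
  unfold dt
  rw [← Finset.sum_add_distrib]
  exact Finset.sum_congr rfl fun i _ => by rw [Pi.add_apply, smul_add]

lemma vadd (v : Wd n) : v + v = 0 := by
  funext i
  exact zadd _

lemma wadd (c : Fin ℓ → ZMod 2) : c + c = 0 := by
  funext i
  exact zadd _

/-- the inner product of tuples -/
def pr (Y Z : Fin ℓ → Wd n) : ZMod 2 := ∑ i, Y i ⬝ᵥ Z i

lemma pr_add_right (Y Z Z' : Fin ℓ → Wd n) : pr Y (Z + Z') = pr Y Z + pr Y Z' := by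
  unfold pr
  rw [← Finset.sum_add_distrib]
  exact Finset.sum_congr rfl fun i _ => by rw [Pi.add_apply, dotProduct_add]

/-- the tuple `φ ⊗ v` -/
def tn (φ : (Fin ℓ → ZMod 2) →ₗ[ZMod 2] ZMod 2) (v : Wd n) : Fin ℓ → Wd n :=
  fun i => φ (Pi.single i 1) • v

lemma phi_eq (φ : (Fin ℓ → ZMod 2) →ₗ[ZMod 2] ZMod 2) (c : Fin ℓ → ZMod 2) :
    φ c = ∑ i, c i * φ (Pi.single i 1) := by
  have h : c = ∑ i, c i • (Pi.single i 1 : Fin ℓ → ZMod 2) := by
    funext j
    simp [Finset.sum_apply, Pi.single_apply]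
  conv_lhs => rw [h]
  rw [map_sum]
  exact Finset.sum_congr rfl fun i _ => by rw [map_smul, smul_eq_mul]

lemma dt_tn (φ : (Fin ℓ → ZMod 2) →ₗ[ZMod 2] ZMod 2) (v : Wd n) (c : Fin ℓ → ZMod 2) :
    dt c (tn φ v) = φ c • v := by
  unfold dt tn
  rw [phi_eq φ c, Finset.sum_smul]
  exact Finset.sum_congr rfl fun i _ => by rw [smul_smul]

lemma pr_tn (φ : (Fin ℓ → ZMod 2) →ₗ[ZMod 2] ZMod 2) (v : Wd n) (Y : Fin ℓ → Wd n) :
    pr Y (tn φ v) = (∑ i, φ (Pi.single i 1) • Y i) ⬝ᵥ v := by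
  unfold pr tn
  rw [sum_dotProduct]
  exact Finset.sum_congr rfl fun i _ => by rw [dotProduct_smul, smul_dotProduct]

/-- the tuples with the same combinations as `X₀`, for the coefficients in `L` -/
noncomputable def HH (L : Submodule (ZMod 2) (Fin ℓ → ZMod 2)) (X₀ : Fin ℓ → Wd n) :
    Finset (Fin ℓ → Wd n) :=
  open Classical in univ.filter fun X => ∀ c ∈ L, dt c X = dt c X₀

lemma mem_HH {L : Submodule (ZMod 2) (Fin ℓ → ZMod 2)} {X₀ X : Fin ℓ → Wd n} :
    X ∈ HH L X₀ ↔ ∀ c ∈ L, dt c X = dt c X₀ := by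
  classical
  unfold HH
  simp

lemma sep {L : Submodule (ZMod 2) (Fin ℓ → ZMod 2)} {c₁ : Fin ℓ → ZMod 2} (h : c₁ ∉ L) :
    ∃ φ : (Fin ℓ → ZMod 2) →ₗ[ZMod 2] ZMod 2, (∀ c ∈ L, φ c = 0) ∧ φ c₁ = 1 := by
  obtain ⟨φ, h1, h2⟩ := Submodule.exists_dual_map_eq_bot_of_notMem h inferInstance
  refine ⟨φ, fun c hc => ?_, ?_⟩
  · have : φ c ∈ L.map φ := Submodule.mem_map_of_mem hc
    rw [h2] at this
    exact (Submodule.mem_bot _).1 this
  · rcases zcase (φ c₁) with h3 | h3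
    · exact absurd h3 h1
    · exact h3

lemma mem_sup1 {P : Submodule (ZMod 2) (Fin ℓ → ZMod 2)} {c x : Fin ℓ → ZMod 2} :
    x ∈ P ⊔ Submodule.span (ZMod 2) {c} ↔ x ∈ P ∨ x + c ∈ P := by
  rw [Submodule.mem_sup]
  constructor
  · rintro ⟨y, hy, z, hz, rfl⟩
    obtain ⟨a, rfl⟩ := Submodule.mem_span_singleton.1 hz
    rcases zcase a with rfl | rfl
    · left
      rw [zero_smul, add_zero]
      exact hy
    · right
      rw [one_smul, add_assoc, wadd, add_zero]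
      exact hy
  · rintro (h | h)
    · exact ⟨x, h, 0, Submodule.zero_mem _, add_zero x⟩
    · refine ⟨x + c, h, c, Submodule.mem_span_singleton_self c, ?_⟩
      rw [add_assoc, wadd, add_zero]

/-- **The peeling of one combination.** -/
lemma peel {L : Submodule (ZMod 2) (Fin ℓ → ZMod 2)} {c₁ : Fin ℓ → ZMod 2}
    (φ : (Fin ℓ → ZMod 2) →ₗ[ZMod 2] ZMod 2) (h0 : ∀ c ∈ L, φ c = 0) (h1 : φ c₁ = 1)
    (X₀ : Fin ℓ → Wd n) (f : Wd n → ℝ) (g : (Fin ℓ → Wd n) → ℝ) :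
    ∑ X ∈ HH L X₀, f (dt c₁ X) * g X = ∑ v, f v *
      ∑ X ∈ HH (L ⊔ Submodule.span (ZMod 2) {c₁}) (X₀ + tn φ (dt c₁ X₀)), g (X + tn φ v) := by
  have e0 : ∀ v : Wd n, dt c₁ (tn φ v) = v := fun v => by rw [dt_tn, h1, one_smul]
  have e1 : ∀ c ∈ L, ∀ v : Wd n, dt c (tn φ v) = 0 := fun c hc v => by
    rw [dt_tn, h0 c hc, zero_smul]
  have tt : ∀ v : Wd n, tn φ v + tn φ v = 0 := by
    intro v
    funext i
    exact vadd _
  obtain ⟨X₁, hX₁⟩ : ∃ X₁ : Fin ℓ → Wd n, X₁ = X₀ + tn φ (dt c₁ X₀) := ⟨_, rfl⟩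
  have h2 : dt c₁ X₁ = 0 := by rw [hX₁, dt_add_right, e0, vadd]
  have h3 : ∀ c ∈ L, dt c X₁ = dt c X₀ := fun c hc => by
    rw [hX₁, dt_add_right, e1 c hc, add_zero]
  rw [← hX₁]
  have hL : ∀ X, X ∈ HH (L ⊔ Submodule.span (ZMod 2) {c₁}) X₁ ↔
      (∀ c ∈ L, dt c X = dt c X₀) ∧ dt c₁ X = 0 := by
    intro X
    rw [mem_HH]
    constructor
    · intro h
      refine ⟨fun c hc => ?_, ?_⟩
      · rw [h c (Submodule.mem_sup_left hc), h3 c hc]
      · rw [h c₁ (Submodule.mem_sup_right (Submodule.mem_span_singleton_self c₁)), h2]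
    · rintro ⟨h4, h5⟩ c hc
      rcases mem_sup1.1 hc with h6 | h6
      · rw [h4 c h6, h3 c h6]
      · have h7 := h4 _ h6
        rw [← h3 _ h6, dt_add_left, dt_add_left, h5, h2, add_zero, add_zero] at h7
        exact h7
  simp_rw [Finset.mul_sum]
  rw [← Finset.sum_product']
  refine Finset.sum_nbij' (fun X => (dt c₁ X, X + tn φ (dt c₁ X))) (fun p => p.2 + tn φ p.1)
    ?_ ?_ ?_ ?_ ?_
  · intro X hX
    rw [mem_HH] at hX
    refine Finset.mem_product.2 ⟨Finset.mem_univ _, ?_⟩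
    rw [hL]
    refine ⟨fun c hc => ?_, ?_⟩
    · rw [dt_add_right, e1 c hc, add_zero, hX c hc]
    · rw [dt_add_right, e0, vadd]
  · rintro ⟨v, X⟩ hp
    have hX := (Finset.mem_product.1 hp).2
    rw [hL] at hX
    rw [mem_HH]
    intro c hc
    rw [dt_add_right, e1 c hc, add_zero, hX.1 c hc]
  · intro X _
    simp only
    rw [add_assoc, tt, add_zero]
  · rintro ⟨v, X⟩ hp
    have hX := (Finset.mem_product.1 hp).2
    rw [hL] at hX
    simp only
    rw [dt_add_right, hX.2, e0, zero_add, add_assoc, tt, add_zero]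
  · intro X _
    simp only
    rw [add_assoc, tt, add_zero]

lemma HH_shift {L : Submodule (ZMod 2) (Fin ℓ → ZMod 2)} (X₀ D : Fin ℓ → Wd n)
    (g : (Fin ℓ → Wd n) → ℝ) : ∑ X ∈ HH L X₀, g (X + D) = ∑ X ∈ HH L (X₀ + D), g X := by
  have tt : D + D = 0 := by
    funext i
    exact vadd _
  refine Finset.sum_nbij' (fun X => X + D) (fun X => X + D) ?_ ?_ ?_ ?_ ?_
  · intro X hX
    rw [mem_HH] at hX ⊢
    intro c hc
    rw [dt_add_right, dt_add_right, hX c hc]
  · intro X hX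
    rw [mem_HH] at hX ⊢
    intro c hc
    rw [dt_add_right, hX c hc, dt_add_right, add_assoc, vadd, add_zero]
  · intro X _
    rw [add_assoc, tt, add_zero]
  · intro X _
    rw [add_assoc, tt, add_zero]
  · intro X _
    rfl

/-- the dimension -/
noncomputable abbrev fr (L : Submodule (ZMod 2) (Fin ℓ → ZMod 2)) : ℕ := Module.finrank (ZMod 2) L

lemma fr_le (L : Submodule (ZMod 2) (Fin ℓ → ZMod 2)) : fr L ≤ ℓ := by
  have := Submodule.finrank_le L
  rwa [Module.finrank_fin_fun] at this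

lemma fr_mono {L L' : Submodule (ZMod 2) (Fin ℓ → ZMod 2)} (h : L ≤ L') : fr L ≤ fr L' :=
  Submodule.finrank_mono h

lemma fr_sup1 {L : Submodule (ZMod 2) (Fin ℓ → ZMod 2)} {c : Fin ℓ → ZMod 2} (h : c ∉ L) :
    fr (L ⊔ Submodule.span (ZMod 2) {c}) = fr L + 1 :=
  Submodule.finrank_sup_span_singleton h

lemma eq_of_all {X X' : Fin ℓ → Wd n} (h : ∀ c : Fin ℓ → ZMod 2, dt c X = dt c X') : X = X' := by
  funext i
  have h1 := h (Pi.single i 1)
  have h2 : ∀ X : Fin ℓ → Wd n, dt (Pi.single i 1) X = X i := by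
    intro X
    unfold dt
    rw [Finset.sum_eq_single i]
    · rw [Pi.single_eq_same, one_smul]
    · intro j _ hj
      rw [Pi.single_eq_of_ne hj, zero_smul]
    · intro h
      exact absurd (Finset.mem_univ i) h
  rwa [h2, h2] at h1

lemma card_HH_aux (k : ℕ) : ∀ (L : Submodule (ZMod 2) (Fin ℓ → ZMod 2)) (X₀ : Fin ℓ → Wd n),
    ℓ - fr L = k → ((HH L X₀).card : ℝ) = (2 ^ n) ^ k := by
  induction k with
  | zero =>
    intro L X₀ hk
    have hL : L = ⊤ := by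
      refine Submodule.eq_top_of_finrank_eq ?_
      rw [Module.finrank_fin_fun]
      have := fr_le L
      have h2 : fr L = ℓ := by omega
      exact h2
    have : HH L X₀ = {X₀} := by
      ext X
      rw [mem_HH, Finset.mem_singleton, hL]
      constructor
      · intro h
        exact eq_of_all fun c => h c Submodule.mem_top
      · rintro rfl c _
        rfl
    rw [this, Finset.card_singleton]
    simp
  | succ k ih =>
    intro L X₀ hk
    have hL : L ≠ ⊤ := by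
      rintro rfl
      have h2 : fr (⊤ : Submodule (ZMod 2) (Fin ℓ → ZMod 2)) = ℓ := by
        have h3 := finrank_top (ZMod 2) (Fin ℓ → ZMod 2)
        rw [Module.finrank_fin_fun] at h3
        exact h3
      omega
    obtain ⟨c₁, hc₁⟩ : ∃ c₁, c₁ ∉ L := by
      by_contra h
      push Not at h
      exact hL (Submodule.eq_top_iff'.2 h)
    obtain ⟨φ, h0, h1⟩ := sep hc₁
    have h2 := peel φ h0 h1 X₀ (fun _ => 1) (fun _ => 1)
    simp only [mul_one, one_mul, Finset.sum_const, nsmul_eq_mul] at h2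
    rw [h2, ih (L ⊔ Submodule.span (ZMod 2) {c₁}) _ (by rw [fr_sup1 hc₁]; omega), Finset.card_univ]
    have h3 : Fintype.card (Wd n) = 2 ^ n := by
      rw [Fintype.card_fun, ZMod.card, Fintype.card_fin]
    rw [h3, pow_succ]
    push_cast
    ring

lemma card_HH (L : Submodule (ZMod 2) (Fin ℓ → ZMod 2)) (X₀ : Fin ℓ → Wd n) :
    ((HH L X₀).card : ℝ) = (2 ^ n) ^ (ℓ - fr L) := card_HH_aux _ L X₀ rfl

/-- the span of `L` and the elements of `A` -/
noncomputable def sp (L : Submodule (ZMod 2) (Fin ℓ → ZMod 2)) (A : Finset (Fin ℓ → ZMod 2)) :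
    Submodule (ZMod 2) (Fin ℓ → ZMod 2) := L ⊔ Submodule.span (ZMod 2) (A : Set (Fin ℓ → ZMod 2))

lemma sp_empty (L : Submodule (ZMod 2) (Fin ℓ → ZMod 2)) : sp L ∅ = L := by
  unfold sp
  simp

lemma sp_insert (L : Submodule (ZMod 2) (Fin ℓ → ZMod 2)) (A : Finset (Fin ℓ → ZMod 2))
    (c : Fin ℓ → ZMod 2) :
    sp L (insert c A) = sp (L ⊔ Submodule.span (ZMod 2) {c}) A := by
  unfold sp
  rw [Finset.coe_insert, Submodule.span_insert, sup_assoc]

lemma le_sp (L : Submodule (ZMod 2) (Fin ℓ → ZMod 2)) (A : Finset (Fin ℓ → ZMod 2)) :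
    L ≤ sp L A := le_sup_left

lemma mem_sp (L : Submodule (ZMod 2) (Fin ℓ → ZMod 2)) {A : Finset (Fin ℓ → ZMod 2)}
    {c : Fin ℓ → ZMod 2} (hc : c ∈ A) : c ∈ sp L A :=
  Submodule.mem_sup_right (Submodule.subset_span hc)

lemma sup1_eq {L : Submodule (ZMod 2) (Fin ℓ → ZMod 2)} {c : Fin ℓ → ZMod 2} (h : c ∈ L) :
    L ⊔ Submodule.span (ZMod 2) {c} = L :=
  sup_eq_left.2 ((Submodule.span_singleton_le_iff_mem c L).2 h)

/-- combinations of elements of `A` -/
lemma sp_sum (A : Finset (Fin ℓ → ZMod 2)) : ∀ (L : Submodule (ZMod 2) (Fin ℓ → ZMod 2))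
    (x : Fin ℓ → ZMod 2), x ∈ sp L A → ∃ C ⊆ A, x + ∑ c ∈ C, c ∈ L := by
  classical
  induction A using Finset.induction_on with
  | empty =>
    intro L x hx
    rw [sp_empty] at hx
    exact ⟨∅, Finset.Subset.refl _, by simpa using hx⟩
  | insert c A hc ih =>
    intro L x hx
    rw [sp_insert] at hx
    obtain ⟨C, hC, h⟩ := ih _ x hx
    rcases mem_sup1.1 h with h | h
    · exact ⟨C, hC.trans (Finset.subset_insert _ _), h⟩
    · refine ⟨insert c C, Finset.insert_subset_insert _ hC, ?_⟩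
      rw [Finset.sum_insert fun h2 => hc (hC h2)]
      have : x + (c + ∑ c ∈ C, c) = x + ∑ c ∈ C, c + c := by
        rw [add_comm c, add_assoc]
      rw [this]
      exact h

/-- no nonempty sum of elements of `A` is in `L` -/
def Ind (L : Submodule (ZMod 2) (Fin ℓ → ZMod 2)) (A : Finset (Fin ℓ → ZMod 2)) : Prop :=
  ∀ C ⊆ A, C.Nonempty → ∑ c ∈ C, c ∉ L

/-- **Independent combinations.** -/
lemma ind_bound {E : Wd n → ℝ} {Λ : ℝ} (hΛ : ∀ y : Wd n, |∑ v, E v * sg (y ⬝ᵥ v)| ≤ Λ)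
    (Y : Fin ℓ → Wd n) (A : Finset (Fin ℓ → ZMod 2)) :
    ∀ (L : Submodule (ZMod 2) (Fin ℓ → ZMod 2)) (X₀ : Fin ℓ → Wd n), Ind L A →
      |∑ X ∈ HH L X₀, sg (pr Y X) * ∏ c ∈ A, E (dt c X)| ≤ Λ ^ A.card *
        (2 ^ n) ^ (ℓ - fr (sp L A)) := by
  classical
  have hΛ0 : 0 ≤ Λ := (abs_nonneg _).trans (hΛ 0)
  induction A using Finset.induction_on with
  | empty =>
    intro L X₀ _
    rw [Finset.card_empty, pow_zero, one_mul, sp_empty]
    refine (Finset.abs_sum_le_sum_abs _ _).trans ?_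
    have h1 : ∀ X ∈ HH L X₀, |sg (pr Y X) * ∏ c ∈ (∅ : Finset (Fin ℓ → ZMod 2)), E (dt c X)| =
        1 := by
      intro X _
      rw [Finset.prod_empty, mul_one, sg_abs]
    rw [Finset.sum_congr rfl h1, Finset.sum_const, nsmul_eq_mul, mul_one, card_HH]
  | insert c₁ A hc ih =>
    intro L X₀ hI
    have hc₁ : c₁ ∉ sp L A := by
      intro h
      obtain ⟨C, hC, h2⟩ := sp_sum A L c₁ h
      refine hI (insert c₁ C) (Finset.insert_subset_insert _ hC) (Finset.insert_nonempty _ _) ?_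
      rwa [Finset.sum_insert fun h3 => hc (hC h3)]
    obtain ⟨φ, h0, h1⟩ := sep hc₁
    have h0' : ∀ c ∈ L, φ c = 0 := fun c hcL => h0 c (le_sp L A hcL)
    have h2 := peel φ h0' h1 X₀ E (fun X => sg (pr Y X) * ∏ c ∈ A, E (dt c X))
    have h3 : ∑ X ∈ HH L X₀, sg (pr Y X) * ∏ c ∈ insert c₁ A, E (dt c X) =
        ∑ X ∈ HH L X₀, E (dt c₁ X) * (sg (pr Y X) * ∏ c ∈ A, E (dt c X)) := by
      refine Finset.sum_congr rfl fun X _ => ?_
      rw [Finset.prod_insert hc]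
      ring
    obtain ⟨y, hy⟩ : ∃ y : Wd n, y = ∑ i, φ (Pi.single i 1) • Y i := ⟨_, rfl⟩
    have h4 : ∀ v, ∑ X ∈ HH (L ⊔ Submodule.span (ZMod 2) {c₁}) (X₀ + tn φ (dt c₁ X₀)),
        sg (pr Y (X + tn φ v)) * ∏ c ∈ A, E (dt c (X + tn φ v)) = sg (y ⬝ᵥ v) *
        ∑ X ∈ HH (L ⊔ Submodule.span (ZMod 2) {c₁}) (X₀ + tn φ (dt c₁ X₀)),
          sg (pr Y X) * ∏ c ∈ A, E (dt c X) := by
      intro v
      rw [Finset.mul_sum]
      refine Finset.sum_congr rfl fun X _ => ?_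
      rw [pr_add_right, sg_add, pr_tn, ← hy]
      have h5 : ∏ c ∈ A, E (dt c (X + tn φ v)) = ∏ c ∈ A, E (dt c X) := by
        refine Finset.prod_congr rfl fun c hcA => ?_
        rw [dt_add_right, dt_tn, h0 c (mem_sp L hcA), zero_smul, add_zero]
      rw [h5]
      ring
    have hI' : Ind (L ⊔ Submodule.span (ZMod 2) {c₁}) A := by
      intro C hC hCn h
      rcases mem_sup1.1 h with h | h
      · exact hI C (hC.trans (Finset.subset_insert _ _)) hCn h
      · refine hI (insert c₁ C) (Finset.insert_subset_insert _ hC) (Finset.insert_nonempty _ _) ?_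
        rw [Finset.sum_insert fun h3 => hc (hC h3), add_comm]
        exact h
    have h6 := ih (L ⊔ Submodule.span (ZMod 2) {c₁}) (X₀ + tn φ (dt c₁ X₀)) hI'
    rw [h3, h2]
    simp_rw [h4]
    have h7 : ∀ K : ℝ, ∑ v, E v * (sg (y ⬝ᵥ v) * K) = (∑ v, E v * sg (y ⬝ᵥ v)) * K := by
      intro K
      rw [Finset.sum_mul]
      exact Finset.sum_congr rfl fun v _ => by ring
    rw [h7, abs_mul, Finset.card_insert_of_notMem hc, sp_insert]
    calc _ ≤ Λ * (Λ ^ A.card *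
          (2 ^ n) ^ (ℓ - fr (sp (L ⊔ Submodule.span (ZMod 2) {c₁}) A))) :=
          mul_le_mul (hΛ y) h6 (abs_nonneg _) hΛ0
      _ = _ := by ring

/-- **All combinations, without cancellation.** -/
lemma abs_bound {E : Wd n → ℝ} {V : ℝ} (hE0 : ∀ v, 0 ≤ E v) (hE : ∀ v, E v ≤ 1)
    (hV : ∑ v, E v ≤ V) (A : Finset (Fin ℓ → ZMod 2)) :
    ∀ (L : Submodule (ZMod 2) (Fin ℓ → ZMod 2)) (X₀ : Fin ℓ → Wd n),
      ∑ X ∈ HH L X₀, ∏ c ∈ A, E (dt c X) ≤ V ^ (fr (sp L A) - fr L) *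
        (2 ^ n) ^ (ℓ - fr (sp L A)) := by
  classical
  have hV0 : 0 ≤ V := (Finset.sum_nonneg fun v _ => hE0 v).trans hV
  induction A using Finset.induction_on with
  | empty =>
    intro L X₀
    rw [sp_empty, Nat.sub_self, pow_zero, one_mul]
    simp only [Finset.prod_empty, Finset.sum_const, nsmul_eq_mul, mul_one]
    rw [card_HH]
  | insert c₁ A hc ih =>
    intro L X₀
    by_cases hcL : c₁ ∈ L
    · have h1 := ih L X₀
      rw [sp_insert, sup1_eq hcL]
      refine le_trans (Finset.sum_le_sum fun X _ => ?_) h1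
      rw [Finset.prod_insert hc]
      exact mul_le_of_le_one_left (Finset.prod_nonneg fun c _ => hE0 _) (hE _)
    · obtain ⟨φ, h0, h1⟩ := sep hcL
      have h2 := peel φ h0 h1 X₀ E (fun X => ∏ c ∈ A, E (dt c X))
      have h3 : ∑ X ∈ HH L X₀, ∏ c ∈ insert c₁ A, E (dt c X) =
          ∑ X ∈ HH L X₀, E (dt c₁ X) * ∏ c ∈ A, E (dt c X) :=
        Finset.sum_congr rfl fun X _ => Finset.prod_insert hc
      rw [h3, h2, sp_insert]
      have h4 : fr (L ⊔ Submodule.span (ZMod 2) {c₁}) ≤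
          fr (sp (L ⊔ Submodule.span (ZMod 2) {c₁}) A) := fr_mono (le_sp _ _)
      have h5 := fr_sup1 hcL
      obtain ⟨r, hr⟩ : ∃ r, r = fr (sp (L ⊔ Submodule.span (ZMod 2) {c₁}) A) -
        fr (L ⊔ Submodule.span (ZMod 2) {c₁}) := ⟨_, rfl⟩
      have h6 : fr (sp (L ⊔ Submodule.span (ZMod 2) {c₁}) A) - fr L = r + 1 := by omega
      rw [h6]
      have h7 : ∀ v, ∑ X ∈ HH (L ⊔ Submodule.span (ZMod 2) {c₁}) (X₀ + tn φ (dt c₁ X₀)),
          ∏ c ∈ A, E (dt c (X + tn φ v)) ≤ V ^ r *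
          (2 ^ n) ^ (ℓ - fr (sp (L ⊔ Submodule.span (ZMod 2) {c₁}) A)) := by
        intro v
        rw [HH_shift _ _ (fun X => ∏ c ∈ A, E (dt c X)), hr]
        exact ih _ _
      calc _ ≤ ∑ v, E v * (V ^ r *
            (2 ^ n) ^ (ℓ - fr (sp (L ⊔ Submodule.span (ZMod 2) {c₁}) A))) :=
            Finset.sum_le_sum fun v _ => mul_le_mul_of_nonneg_left (h7 v) (hE0 v)
        _ = (∑ v, E v) * (V ^ r *
            (2 ^ n) ^ (ℓ - fr (sp (L ⊔ Submodule.span (ZMod 2) {c₁}) A))) := by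
            rw [Finset.sum_mul]
        _ ≤ V * (V ^ r *
            (2 ^ n) ^ (ℓ - fr (sp (L ⊔ Submodule.span (ZMod 2) {c₁}) A))) :=
            mul_le_mul_of_nonneg_right hV (by positivity)
        _ = _ := by ring

end Pool.Agent.helper857_lin
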