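import Mathlib
import Pool.Agent.helper857_lin.Peel

/-!
helper857_lin (MP_0430e4_lc): dependent combinations.
-/

set_option autoImplicit false
set_option linter.unusedSectionVars false

namespace Pool.Agent.helper857_lin

open Finset

variable {ℓ n : ℕ}

lemma peel2 {L : Submodule (ZMod 2) (Fin ℓ → ZMod 2)} {c₁ : Fin ℓ → ZMod 2} (hc : c₁ ∉ L)
    (X₀ : Fin ℓ → Wd n) :
    ∃ B : Wd n → (Fin ℓ → Wd n), (∀ v, ∀ c ∈ L, dt c (B v) = dt c X₀) ∧ (∀ v, dt c₁ (B v) = v) ∧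
      ∀ (f : Wd n → ℝ) (g : (Fin ℓ → Wd n) → ℝ), ∑ X ∈ HH L X₀, f (dt c₁ X) * g X =
        ∑ v, f v * ∑ X ∈ HH (L ⊔ Submodule.span (ZMod 2) {c₁}) (B v), g X := by
  obtain ⟨φ, h0, h1⟩ := sep hc
  refine ⟨fun v => X₀ + tn φ (dt c₁ X₀) + tn φ v, fun v c hcL => ?_, fun v => ?_, fun f g => ?_⟩
  · rw [dt_add_right, dt_add_right, dt_tn, dt_tn, h0 c hcL, zero_smul, zero_smul, add_zero,
      add_zero]
  · rw [dt_add_right, dt_add_right, dt_tn, dt_tn, h1, one_smul, one_smul, vadd, zero_add]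
  · rw [peel φ h0 h1]
    refine Finset.sum_congr rfl fun v _ => ?_
    rw [HH_shift]

lemma HH_eq {L : Submodule (ZMod 2) (Fin ℓ → ZMod 2)} {X₀ X₁ : Fin ℓ → Wd n}
    (h : ∀ c ∈ L, dt c X₀ = dt c X₁) : HH L X₀ = HH L X₁ := by
  ext X
  rw [mem_HH, mem_HH]
  constructor
  · intro h1 c hc
    rw [h1 c hc, h c hc]
  · intro h1 c hc
    rw [h1 c hc, h c hc]

/-- **The vanishing of a character sum.** -/
lemma vanish {L L' : Submodule (ZMod 2) (Fin ℓ → ZMod 2)} (hL : L ≤ L') (Y X₀ : Fin ℓ → Wd n)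
    (k : Fin n) (hk : (fun i => Y i k) ∉ L') (F : (Fin ℓ → Wd n) → ℝ)
    (hF : ∀ X X', (∀ c ∈ L', dt c X = dt c X') → F X = F X') :
    ∑ X ∈ HH L X₀, sg (pr Y X) * F X = 0 := by
  obtain ⟨φ, h0, h1⟩ := sep hk
  obtain ⟨D, hD⟩ : ∃ D : Fin ℓ → Wd n, D = tn φ (Pi.single k 1) := ⟨_, rfl⟩
  have h2 : ∀ c ∈ L', dt c D = 0 := by
    intro c hc
    rw [hD, dt_tn, h0 c hc, zero_smul]
  have h3 : pr Y D = 1 := by
    rw [hD, pr_tn, dotProduct_single_one, Finset.sum_apply]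
    rw [phi_eq φ] at h1
    refine Eq.trans ?_ h1
    refine Finset.sum_congr rfl fun i _ => ?_
    rw [Pi.smul_apply, smul_eq_mul, mul_comm]
  have h4 : HH L (X₀ + D) = HH L X₀ := HH_eq fun c hc => by
    rw [dt_add_right, h2 c (hL hc), add_zero]
  have h5 := HH_shift (L := L) X₀ D (fun X => sg (pr Y X) * F X)
  rw [h4] at h5
  have h6 : ∑ X ∈ HH L X₀, sg (pr Y (X + D)) * F (X + D) =
      ∑ X ∈ HH L X₀, -(sg (pr Y X) * F X) := by
    refine Finset.sum_congr rfl fun X _ => ?_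
    rw [pr_add_right, sg_add, h3, sg_one, hF (X + D) X fun c hc => by
      rw [dt_add_right, h2 c hc, add_zero]]
    ring
  rw [h6, Finset.sum_neg_distrib] at h5
  linarith

/-- a minimal relation modulo `L` -/
def Circ (L : Submodule (ZMod 2) (Fin ℓ → ZMod 2)) (C : Finset (Fin ℓ → ZMod 2)) : Prop :=
  ∑ c ∈ C, c ∈ L ∧ ∀ C' ⊂ C, C'.Nonempty → ∑ c ∈ C', c ∉ L

variable {E : Wd n → ℝ} {V ε : ℝ}

lemma pair_bound (hE0 : ∀ v, 0 ≤ E v) (hE : ∀ v, E v ≤ 1) (hV : ∑ v, E v ≤ V)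
    {A : Finset (Fin ℓ → ZMod 2)} {L : Submodule (ZMod 2) (Fin ℓ → ZMod 2)} (X₀ : Fin ℓ → Wd n)
    {c₁ c₂ : Fin ℓ → ZMod 2} (h1 : c₁ ∈ A) (h2 : c₂ ∈ A) (h12 : c₁ ≠ c₂) (hc : c₁ ∉ L)
    (hs : c₁ + c₂ ∈ L) (hT : ∑ v, E v * E (v + dt (c₁ + c₂) X₀) ≤ V * ε) :
    ∑ X ∈ HH L X₀, ∏ c ∈ A, E (dt c X) ≤
      ε * (V ^ (fr (sp L A) - fr L) * (2 ^ n) ^ (ℓ - fr (sp L A))) := by
  classical
  obtain ⟨A', hA'⟩ : ∃ A', A' = (A.erase c₁).erase c₂ := ⟨_, rfl⟩
  have hA1 : A = insert c₁ (insert c₂ A') := by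
    rw [hA', Finset.insert_erase (Finset.mem_erase.2 ⟨h12.symm, h2⟩), Finset.insert_erase h1]
  have n1 : c₁ ∉ insert c₂ A' := by
    rw [hA', Finset.insert_erase (Finset.mem_erase.2 ⟨h12.symm, h2⟩)]
    exact Finset.notMem_erase _ _
  have n2 : c₂ ∉ A' := by
    rw [hA']
    exact Finset.notMem_erase _ _
  obtain ⟨B, b1, b2, b3⟩ := peel2 hc X₀
  have hL2 : c₂ ∈ L ⊔ Submodule.span (ZMod 2) {c₁} := mem_sup1.2 (Or.inr (by rwa [add_comm]))
  have hsp : sp L A = sp (L ⊔ Submodule.span (ZMod 2) {c₁}) A' := by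
    rw [hA1, sp_insert, sp_insert, sup1_eq hL2]
  have h3 : ∑ X ∈ HH L X₀, ∏ c ∈ A, E (dt c X) =
      ∑ X ∈ HH L X₀, E (dt c₁ X) * (E (dt c₂ X) * ∏ c ∈ A', E (dt c X)) :=
    Finset.sum_congr rfl fun X _ => by rw [hA1, Finset.prod_insert n1, Finset.prod_insert n2]
  rw [h3, b3]
  have h5 := fr_sup1 hc
  have h4 : fr (L ⊔ Submodule.span (ZMod 2) {c₁}) ≤
      fr (sp (L ⊔ Submodule.span (ZMod 2) {c₁}) A') := fr_mono (le_sp _ _)
  obtain ⟨r, hr⟩ : ∃ r, r = fr (sp (L ⊔ Submodule.span (ZMod 2) {c₁}) A') -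
    fr (L ⊔ Submodule.span (ZMod 2) {c₁}) := ⟨_, rfl⟩
  have h6 : fr (sp (L ⊔ Submodule.span (ZMod 2) {c₁}) A') - fr L = r + 1 := by omega
  rw [hsp, h6]
  have hV0 : 0 ≤ V := (Finset.sum_nonneg fun v _ => hE0 v).trans hV
  have h7 : ∀ v, ∑ X ∈ HH (L ⊔ Submodule.span (ZMod 2) {c₁}) (B v),
      E (dt c₂ X) * ∏ c ∈ A', E (dt c X) ≤ E (v + dt (c₁ + c₂) X₀) * (V ^ r *
        (2 ^ n) ^ (ℓ - fr (sp (L ⊔ Submodule.span (ZMod 2) {c₁}) A'))) := by
    intro v
    have h8 := abs_bound hE0 hE hV A' (L ⊔ Submodule.span (ZMod 2) {c₁}) (B v)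
    rw [← hr] at h8
    refine le_trans (le_of_eq ?_) (mul_le_mul_of_nonneg_left h8 (hE0 _))
    rw [Finset.mul_sum]
    refine Finset.sum_congr rfl fun X hX => ?_
    rw [mem_HH.1 hX c₂ hL2]
    congr 2
    have e1 : c₂ = c₁ + (c₁ + c₂) := by rw [← add_assoc, wadd, zero_add]
    conv_lhs => rw [e1]
    rw [dt_add_left, b2, b1 v _ hs]
  calc _ ≤ ∑ v, E v * (E (v + dt (c₁ + c₂) X₀) * (V ^ r *
        (2 ^ n) ^ (ℓ - fr (sp (L ⊔ Submodule.span (ZMod 2) {c₁}) A')))) :=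
        Finset.sum_le_sum fun v _ => mul_le_mul_of_nonneg_left (h7 v) (hE0 v)
    _ = (∑ v, E v * E (v + dt (c₁ + c₂) X₀)) * (V ^ r *
        (2 ^ n) ^ (ℓ - fr (sp (L ⊔ Submodule.span (ZMod 2) {c₁}) A'))) := by
        rw [Finset.sum_mul]
        exact Finset.sum_congr rfl fun v _ => by ring
    _ ≤ (V * ε) * (V ^ r *
        (2 ^ n) ^ (ℓ - fr (sp (L ⊔ Submodule.span (ZMod 2) {c₁}) A'))) :=
        mul_le_mul_of_nonneg_right hT (by positivity)
    _ = _ := by ring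

lemma circ_bound (hE0 : ∀ v, 0 ≤ E v) (hE : ∀ v, E v ≤ 1) (hV : ∑ v, E v ≤ V)
    (hT : ∀ w, ∑ v, ∑ v', E v * (E v' * E (v + v' + w)) ≤ V ^ 2 * ε) (k : ℕ) :
    ∀ (A C : Finset (Fin ℓ → ZMod 2)) (L : Submodule (ZMod 2) (Fin ℓ → ZMod 2))
      (X₀ : Fin ℓ → Wd n), C ⊆ A → C.card = k + 3 → Circ L C →
      ∑ X ∈ HH L X₀, ∏ c ∈ A, E (dt c X) ≤
        ε * (V ^ (fr (sp L A) - fr L) * (2 ^ n) ^ (ℓ - fr (sp L A))) := by
  classical
  have hV0 : 0 ≤ V := (Finset.sum_nonneg fun v _ => hE0 v).trans hV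
  induction k with
  | zero =>
    intro A C L X₀ hCA hC hCirc
    obtain ⟨c₁, c₂, c₃, h12, h13, h23, rfl⟩ := Finset.card_eq_three.1 hC
    obtain ⟨hs, hm⟩ := hCirc
    have m1 : c₁ ∈ A := hCA (by simp)
    have m2 : c₂ ∈ A := hCA (by simp)
    have m3 : c₃ ∈ A := hCA (by simp)
    obtain ⟨A', hA'⟩ : ∃ A', A' = A \ {c₁, c₂, c₃} := ⟨_, rfl⟩
    have hA1 : A = insert c₁ (insert c₂ (insert c₃ A')) := by
      ext x
      rw [hA']
      simp only [mem_insert, mem_sdiff, mem_singleton, not_or]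
      by_cases e1 : x = c₁
      · rw [e1]
        simp [m1]
      · by_cases e2 : x = c₂
        · rw [e2]
          simp [m2]
        · by_cases e3 : x = c₃
          · rw [e3]
            simp [m3]
          · simp [e1, e2, e3]
    have n3 : c₃ ∉ A' := by
      rw [hA']
      simp
    have n2 : c₂ ∉ insert c₃ A' := by
      rw [hA']
      simp [h23]
    have n1 : c₁ ∉ insert c₂ (insert c₃ A') := by
      rw [hA']
      simp [h12, h13]
    have hsum : c₁ + (c₂ + c₃) ∈ L := by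
      rwa [Finset.sum_insert (by simp [h12, h13]), Finset.sum_insert (by simp [h23]),
        Finset.sum_singleton] at hs
    have hc1 : c₁ ∉ L := by
      have := hm {c₁} ?_ (Finset.singleton_nonempty _)
      · rwa [Finset.sum_singleton] at this
      · rw [Finset.ssubset_iff_subset_ne]
        refine ⟨by simp, fun h => ?_⟩
        have h5 := congrArg Finset.card h
        rw [hC, Finset.card_singleton] at h5
        omega
    have hc2 : c₂ ∉ L ⊔ Submodule.span (ZMod 2) {c₁} := by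
      intro h
      rcases mem_sup1.1 h with h | h
      · have := hm {c₂} ?_ (Finset.singleton_nonempty _)
        · rw [Finset.sum_singleton] at this
          exact this h
        · rw [Finset.ssubset_iff_subset_ne]
          refine ⟨by simp, fun h => ?_⟩
          have h5 := congrArg Finset.card h
          rw [hC, Finset.card_singleton] at h5
          omega
      · have := hm {c₁, c₂} ?_ (Finset.insert_nonempty _ _)
        · rw [Finset.sum_pair h12, add_comm] at this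
          exact this h
        · rw [Finset.ssubset_iff_subset_ne]
          refine ⟨?_, fun h => ?_⟩
          · intro x hx
            simp only [mem_insert, mem_singleton] at hx ⊢
            tauto
          · have h5 := congrArg Finset.card h
            rw [hC, Finset.card_pair h12] at h5
            omega
    obtain ⟨L₁, hL₁⟩ : ∃ L₁, L₁ = L ⊔ Submodule.span (ZMod 2) {c₁} := ⟨_, rfl⟩
    obtain ⟨L₂, hL₂⟩ : ∃ L₂, L₂ = L₁ ⊔ Submodule.span (ZMod 2) {c₂} := ⟨_, rfl⟩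
    have f1 := fr_sup1 hc1
    rw [← hL₁] at f1 hc2
    have f2 := fr_sup1 hc2
    rw [← hL₂] at f2
    have q1 : c₁ ∈ L₁ := by
      rw [hL₁]
      exact Submodule.mem_sup_right (Submodule.mem_span_singleton_self _)
    have q2 : c₂ ∈ L₂ := by
      rw [hL₂]
      exact Submodule.mem_sup_right (Submodule.mem_span_singleton_self _)
    have q12 : L₁ ≤ L₂ := by
      rw [hL₂]
      exact le_sup_left
    have q01 : L ≤ L₁ := by
      rw [hL₁]
      exact le_sup_left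
    have e3 : c₃ = c₁ + (c₂ + (c₁ + (c₂ + c₃))) := by
      funext i
      simp only [Pi.add_apply]
      generalize c₁ i = x
      generalize c₂ i = y
      generalize c₃ i = z
      revert x y z
      decide
    have q3 : c₃ ∈ L₂ := by
      rw [e3]
      exact Submodule.add_mem _ (q12 q1) (Submodule.add_mem _ q2 (q12 (q01 hsum)))
    have hsp : sp L A = sp L₂ A' := by
      rw [hA1, sp_insert, ← hL₁, sp_insert, ← hL₂, sp_insert, sup1_eq q3]
    obtain ⟨B, b1, b2, b3⟩ := peel2 hc1 X₀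
    rw [← hL₁] at b3
    have h3 : ∑ X ∈ HH L X₀, ∏ c ∈ A, E (dt c X) =
        ∑ X ∈ HH L X₀, E (dt c₁ X) * (E (dt c₂ X) * (E (dt c₃ X) * ∏ c ∈ A', E (dt c X))) :=
      Finset.sum_congr rfl fun X _ => by
        rw [hA1, Finset.prod_insert n1, Finset.prod_insert n2, Finset.prod_insert n3]
    rw [h3, b3, hsp]
    have h4 : fr L₂ ≤ fr (sp L₂ A') := fr_mono (le_sp _ _)
    obtain ⟨r, hr⟩ : ∃ r, r = fr (sp L₂ A') - fr L₂ := ⟨_, rfl⟩
    have h6 : fr (sp L₂ A') - fr L = r + 2 := by omega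
    rw [h6]
    have h7 : ∀ v, ∑ X ∈ HH L₁ (B v), E (dt c₂ X) * (E (dt c₃ X) * ∏ c ∈ A', E (dt c X)) ≤
        ∑ v', E v' * (E (v + v' + dt (c₁ + (c₂ + c₃)) X₀) * (V ^ r *
          (2 ^ n) ^ (ℓ - fr (sp L₂ A')))) := by
      intro v
      obtain ⟨B', b1', b2', b3'⟩ := peel2 hc2 (B v)
      rw [← hL₂] at b3'
      rw [b3']
      refine Finset.sum_le_sum fun v' _ => mul_le_mul_of_nonneg_left ?_ (hE0 _)
      have h8 := abs_bound hE0 hE hV A' L₂ (B' v')
      rw [← hr] at h8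
      refine le_trans (le_of_eq ?_) (mul_le_mul_of_nonneg_left h8 (hE0 _))
      rw [Finset.mul_sum]
      refine Finset.sum_congr rfl fun X hX => ?_
      rw [mem_HH.1 hX c₃ q3]
      congr 2
      conv_lhs => rw [e3]
      rw [dt_add_left, dt_add_left, b2', b1' v' _ q1, b2, b1' v' _ (q01 hsum), b1 v _ hsum,
        add_assoc]
    calc _ ≤ ∑ v, E v * ∑ v', E v' * (E (v + v' + dt (c₁ + (c₂ + c₃)) X₀) * (V ^ r *
          (2 ^ n) ^ (ℓ - fr (sp L₂ A')))) :=
          Finset.sum_le_sum fun v _ => mul_le_mul_of_nonneg_left (h7 v) (hE0 v)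
      _ = (∑ v, ∑ v', E v * (E v' * E (v + v' + dt (c₁ + (c₂ + c₃)) X₀))) * (V ^ r *
          (2 ^ n) ^ (ℓ - fr (sp L₂ A'))) := by
          rw [Finset.sum_mul]
          refine Finset.sum_congr rfl fun v _ => ?_
          rw [Finset.sum_mul, Finset.mul_sum]
          exact Finset.sum_congr rfl fun v' _ => by ring
      _ ≤ (V ^ 2 * ε) * (V ^ r * (2 ^ n) ^ (ℓ - fr (sp L₂ A'))) :=
          mul_le_mul_of_nonneg_right (hT _) (by positivity)
      _ = _ := by ring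
  | succ k ih =>
    intro A C L X₀ hCA hC hCirc
    obtain ⟨hs, hm⟩ := hCirc
    obtain ⟨c₁, hc₁⟩ : C.Nonempty := by
      rw [← Finset.card_pos]
      omega
    have hcard : (C.erase c₁).card = k + 3 := by
      rw [Finset.card_erase_of_mem hc₁, hC]
      omega
    have hcL : c₁ ∉ L := by
      have := hm {c₁} ?_ (Finset.singleton_nonempty _)
      · rwa [Finset.sum_singleton] at this
      · rw [Finset.ssubset_iff_subset_ne]
        refine ⟨by simpa using hc₁, fun h => ?_⟩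
        have h5 := congrArg Finset.card h
        rw [hC, Finset.card_singleton] at h5
        omega
    have hCirc' : Circ (L ⊔ Submodule.span (ZMod 2) {c₁}) (C.erase c₁) := by
      refine ⟨?_, fun C' hC' hne h => ?_⟩
      · rw [mem_sup1]
        right
        rw [add_comm, Finset.add_sum_erase C (fun c => c) hc₁]
        exact hs
      · have hnot : c₁ ∉ C' := fun h3 => Finset.notMem_erase c₁ C (hC'.1 h3)
        rcases mem_sup1.1 h with h | h
        · refine hm C' ?_ hne h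
          exact lt_of_lt_of_le hC' (Finset.erase_subset _ _)
        · refine hm (insert c₁ C') ?_ (Finset.insert_nonempty _ _) ?_
          · rw [Finset.ssubset_iff_subset_ne]
            refine ⟨Finset.insert_subset hc₁ (hC'.1.trans (Finset.erase_subset _ _)),
              fun h4 => ?_⟩
            have h5 := Finset.card_lt_card hC'
            have h6 := congrArg Finset.card h4
            rw [Finset.card_insert_of_notMem hnot, hC] at h6
            omega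
          · rw [Finset.sum_insert hnot, add_comm]
            exact h
    have hA1 : A = insert c₁ (A.erase c₁) := (Finset.insert_erase (hCA hc₁)).symm
    have n1 : c₁ ∉ A.erase c₁ := Finset.notMem_erase _ _
    have hsp : sp L A = sp (L ⊔ Submodule.span (ZMod 2) {c₁}) (A.erase c₁) := by
      conv_lhs => rw [hA1]
      rw [sp_insert]
    obtain ⟨B, b1, b2, b3⟩ := peel2 hcL X₀
    have h3 : ∑ X ∈ HH L X₀, ∏ c ∈ A, E (dt c X) =
        ∑ X ∈ HH L X₀, E (dt c₁ X) * ∏ c ∈ A.erase c₁, E (dt c X) :=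
      Finset.sum_congr rfl fun X _ => by
        conv_lhs => rw [hA1]
        rw [Finset.prod_insert n1]
    rw [h3, b3, hsp]
    have h5 := fr_sup1 hcL
    have h4 : fr (L ⊔ Submodule.span (ZMod 2) {c₁}) ≤
        fr (sp (L ⊔ Submodule.span (ZMod 2) {c₁}) (A.erase c₁)) := fr_mono (le_sp _ _)
    obtain ⟨r, hr⟩ : ∃ r, r = fr (sp (L ⊔ Submodule.span (ZMod 2) {c₁}) (A.erase c₁)) -
      fr (L ⊔ Submodule.span (ZMod 2) {c₁}) := ⟨_, rfl⟩
    have h6 : fr (sp (L ⊔ Submodule.span (ZMod 2) {c₁}) (A.erase c₁)) - fr L = r + 1 := by omega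
    rw [h6]
    have hsub : C.erase c₁ ⊆ A.erase c₁ := Finset.erase_subset_erase _ hCA
    obtain ⟨K, hK⟩ : ∃ K : ℝ, K = ε * (V ^ r *
        (2 ^ n) ^ (ℓ - fr (sp (L ⊔ Submodule.span (ZMod 2) {c₁}) (A.erase c₁)))) := ⟨_, rfl⟩
    have h7 : ∀ v, ∑ X ∈ HH (L ⊔ Submodule.span (ZMod 2) {c₁}) (B v),
        ∏ c ∈ A.erase c₁, E (dt c X) ≤ K := by
      intro v
      have := ih (A.erase c₁) (C.erase c₁) (L ⊔ Submodule.span (ZMod 2) {c₁}) (B v) hsub hcard
        hCirc'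
      rw [← hr] at this
      rw [hK]
      exact this
    have hK0 : 0 ≤ K := by
      refine le_trans ?_ (h7 0)
      exact Finset.sum_nonneg fun X _ => Finset.prod_nonneg fun c _ => hE0 _
    calc _ ≤ ∑ v, E v * K :=
          Finset.sum_le_sum fun v _ => mul_le_mul_of_nonneg_left (h7 v) (hE0 v)
      _ = (∑ v, E v) * K := by rw [Finset.sum_mul]
      _ ≤ V * K := mul_le_mul_of_nonneg_right hV hK0
      _ = _ := by
          rw [hK]
          ring

/-- **Dependent combinations.** -/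
lemma dep_bound (hE0 : ∀ v, 0 ≤ E v) (hE : ∀ v, E v ≤ 1) (hV : ∑ v, E v ≤ V)
    (hT : ∀ w, ∑ v, ∑ v', E v * (E v' * E (v + v' + w)) ≤ V ^ 2 * ε)
    {A : Finset (Fin ℓ → ZMod 2)} {L : Submodule (ZMod 2) (Fin ℓ → ZMod 2)} (X₀ : Fin ℓ → Wd n)
    (hA : ∀ c ∈ A, c ∉ L) (hI : ¬ Ind L A)
    (hT2 : ∀ c₁ ∈ A, ∀ c₂ ∈ A, c₁ ≠ c₂ → c₁ + c₂ ∈ L →
      ∑ v, E v * E (v + dt (c₁ + c₂) X₀) ≤ V * ε) :
    ∑ X ∈ HH L X₀, ∏ c ∈ A, E (dt c X) ≤
      ε * (V ^ (fr (sp L A) - fr L) * (2 ^ n) ^ (ℓ - fr (sp L A))) := by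
  classical
  unfold Ind at hI
  push Not at hI
  obtain ⟨C₀, hC₀A, hC₀n, hC₀⟩ := hI
  obtain ⟨C, hC, hmin⟩ := (A.powerset.filter fun C => C.Nonempty ∧ ∑ c ∈ C, c ∈ L).exists_min_image
    Finset.card ⟨C₀, by
      rw [Finset.mem_filter, Finset.mem_powerset]
      exact ⟨hC₀A, hC₀n, hC₀⟩⟩
  rw [Finset.mem_filter, Finset.mem_powerset] at hC
  obtain ⟨hCA, hCn, hCs⟩ := hC
  have hm : ∀ C' ⊂ C, C'.Nonempty → ∑ c ∈ C', c ∉ L := by
    intro C' hC' hn h
    have h1 := hmin C' (by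
      rw [Finset.mem_filter, Finset.mem_powerset]
      exact ⟨hC'.1.trans hCA, hn, h⟩)
    have h2 := Finset.card_lt_card hC'
    omega
  have hpos := Finset.card_pos.2 hCn
  rcases Nat.lt_or_ge C.card 3 with h3 | h3
  · interval_cases hcd : C.card
    · obtain ⟨c, rfl⟩ := Finset.card_eq_one.1 hcd
      rw [Finset.sum_singleton] at hCs
      exact absurd hCs (hA c (hCA (Finset.mem_singleton_self c)))
    · obtain ⟨c₁, c₂, h12, rfl⟩ := Finset.card_eq_two.1 hcd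
      rw [Finset.sum_pair h12] at hCs
      have m1 : c₁ ∈ A := hCA (by simp)
      have m2 : c₂ ∈ A := hCA (by simp)
      exact pair_bound hE0 hE hV X₀ m1 m2 h12 (hA c₁ m1) hCs (hT2 c₁ m1 c₂ m2 h12 hCs)
  · obtain ⟨k, hk⟩ : ∃ k, C.card = k + 3 := ⟨C.card - 3, by omega⟩
    exact circ_bound hE0 hE hV hT k A C L X₀ hCA hk ⟨hCs, hm⟩

end Pool.Agent.helper857_lin
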