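import Mathlib
import Pool.Agent.helper857_lin.Circ

/-!
helper857_lin (MP_0430e4_lc): the function that gives the feasible solutions of the hierarchy.
-/

set_option autoImplicit false
set_option linter.unusedSectionVars false

namespace Pool.Agent.helper857_lin

open Finset

variable {ℓ n : ℕ}

/-! ### Transversals -/

lemma exists_rep (T : Submodule (ZMod 2) (Fin ℓ → ZMod 2)) :
    ∃ S : Finset (Fin ℓ → ZMod 2), (∀ c, ∃ s ∈ S, c + s ∈ T) ∧
      ∀ s ∈ S, ∀ s' ∈ S, s + s' ∈ T → s = s' := by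
  classical
  have : Fintype ((Fin ℓ → ZMod 2) ⧸ T) := Fintype.ofFinite _
  refine ⟨univ.image fun q : (Fin ℓ → ZMod 2) ⧸ T => q.out, fun c => ?_, ?_⟩
  · refine ⟨(Submodule.Quotient.mk c : (Fin ℓ → ZMod 2) ⧸ T).out,
      Finset.mem_image_of_mem _ (Finset.mem_univ _), ?_⟩
    have h : (Submodule.Quotient.mk c : (Fin ℓ → ZMod 2) ⧸ T) =
        Submodule.Quotient.mk (Submodule.Quotient.mk c : (Fin ℓ → ZMod 2) ⧸ T).out :=
      (Quotient.out_eq _).symm
    have h2 := (Submodule.Quotient.eq T).1 h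
    have h3 : c - (Submodule.Quotient.mk c : (Fin ℓ → ZMod 2) ⧸ T).out =
        c + (Submodule.Quotient.mk c : (Fin ℓ → ZMod 2) ⧸ T).out := by
      rw [sub_eq_iff_eq_add, add_assoc, wadd, add_zero]
    rwa [h3] at h2
  · intro s hs s' hs' h
    obtain ⟨q, -, rfl⟩ := Finset.mem_image.1 hs
    obtain ⟨q', -, rfl⟩ := Finset.mem_image.1 hs'
    have h3 : q.out - q'.out = q.out + q'.out := by
      rw [sub_eq_iff_eq_add, add_assoc, wadd, add_zero]
    rw [← h3] at h
    have h4 := (Submodule.Quotient.eq T).2 h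
    have h5 : ∀ q : (Fin ℓ → ZMod 2) ⧸ T, Submodule.Quotient.mk q.out = q := fun q =>
      Quotient.out_eq _
    rw [h5, h5] at h4
    rw [h4]

/-- a transversal of `T` -/
noncomputable def rep (T : Submodule (ZMod 2) (Fin ℓ → ZMod 2)) : Finset (Fin ℓ → ZMod 2) :=
  (exists_rep T).choose

lemma rep_ex (T : Submodule (ZMod 2) (Fin ℓ → ZMod 2)) (c : Fin ℓ → ZMod 2) :
    ∃ s ∈ rep T, c + s ∈ T := (exists_rep T).choose_spec.1 c

lemma rep_inj {T : Submodule (ZMod 2) (Fin ℓ → ZMod 2)} {s s' : Fin ℓ → ZMod 2} (hs : s ∈ rep T)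
    (hs' : s' ∈ rep T) (h : s + s' ∈ T) : s = s' := (exists_rep T).choose_spec.2 s hs s' hs' h

lemma rep_prod (T : Submodule (ZMod 2) (Fin ℓ → ZMod 2)) (g : (Fin ℓ → ZMod 2) → ℝ)
    (hg : ∀ c, ∀ t ∈ T, g (c + t) = g c) :
    (∏ c ∈ rep T, g c) ^ Nat.card T = ∏ c, g c := by
  classical
  have : Fintype T := Fintype.ofFinite _
  rw [Nat.card_eq_fintype_card, ← Finset.prod_pow]
  have h1 : ∀ c ∈ rep T, g c ^ Fintype.card T = ∏ t : T, g (c + t) := by
    intro c _
    rw [Finset.prod_congr rfl fun (t : T) _ => hg c t t.2, Finset.prod_const, Finset.card_univ]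
  rw [Finset.prod_congr rfl h1, ← Finset.prod_product']
  refine Finset.prod_bij (fun p _ => p.1 + (p.2 : Fin ℓ → ZMod 2)) ?_ ?_ ?_ ?_
  · intro p _
    exact Finset.mem_univ _
  · rintro ⟨c, t⟩ hp ⟨c', t'⟩ hp' h
    have hc := (Finset.mem_product.1 hp).1
    have hc' := (Finset.mem_product.1 hp').1
    simp only at h hc hc'
    have h2 : c + c' = t + t' := by
      have e1 : c = c' + t' + t := by rw [← h, add_assoc, wadd, add_zero]
      conv_lhs => rw [e1]
      have : c' + t' + (t : Fin ℓ → ZMod 2) + c' = c' + c' + (t + t') := by ring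
      rw [this, wadd, zero_add]
    have h3 : c = c' := rep_inj hc hc' (by
      rw [h2]
      exact T.add_mem t.2 t'.2)
    subst h3
    have h4 : t = t' := Subtype.ext (add_left_cancel h)
    rw [h4]
  · intro c _
    obtain ⟨s, hs, hcs⟩ := rep_ex T c
    refine ⟨(s, ⟨c + s, hcs⟩), Finset.mem_product.2 ⟨hs, Finset.mem_univ _⟩, ?_⟩
    simp only
    have : s + (c + s) = c + (s + s) := by ring
    rw [this, wadd, add_zero]
  · intro p _
    rfl

noncomputable instance : Fintype (Submodule (ZMod 2) (Fin ℓ → ZMod 2)) := Fintype.ofFinite _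

/-- the product over the classes modulo `T` -/
noncomputable def FT (G : Wd n → ℝ) (T : Submodule (ZMod 2) (Fin ℓ → ZMod 2))
    (X : Fin ℓ → Wd n) : ℝ := ∏ c ∈ rep T, G (dt c X)

/-- the unnormalised solution -/
noncomputable def bb (G : Wd n → ℝ) (R : ℝ) (X : Fin ℓ → Wd n) : ℝ :=
  ∑ T : Submodule (ZMod 2) (Fin ℓ → ZMod 2), open Classical in
    if ∀ c ∈ T, dt c X = 0 then R ^ fr T * FT G T X else 0

/-- the linear map of a tuple -/
def dL (X : Fin ℓ → Wd n) : (Fin ℓ → ZMod 2) →ₗ[ZMod 2] Wd n where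
  toFun c := dt c X
  map_add' c c' := dt_add_left c c' X
  map_smul' a c := by
    rcases zcase a with rfl | rfl
    · rw [zero_smul, dt_zero_left, RingHom.id_apply, zero_smul]
    · rw [one_smul, RingHom.id_apply, one_smul]

lemma dL_apply (X : Fin ℓ → Wd n) (c : Fin ℓ → ZMod 2) : dL X c = dt c X := rfl

lemma dt_single (X : Fin ℓ → Wd n) (i : Fin ℓ) : dt (Pi.single i 1) X = X i := by
  unfold dt
  rw [Finset.sum_eq_single i]
  · rw [Pi.single_eq_same, one_smul]
  · intro j _ hj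
    rw [Pi.single_eq_of_ne hj, zero_smul]
  · intro h
    exact absurd (Finset.mem_univ i) h

lemma range_dL (X : Fin ℓ → Wd n) :
    LinearMap.range (dL X) = Submodule.span (ZMod 2) (Set.range X) := by
  apply le_antisymm
  · rintro _ ⟨c, rfl⟩
    rw [dL_apply]
    unfold dt
    exact Submodule.sum_mem _ fun i _ => Submodule.smul_mem _ _
      (Submodule.subset_span (Set.mem_range_self i))
  · rw [Submodule.span_le]
    rintro _ ⟨i, rfl⟩
    exact ⟨Pi.single i 1, dt_single X i⟩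

lemma mem_span_iff (X : Fin ℓ → Wd n) (u : Wd n) :
    u ∈ Submodule.span (ZMod 2) (Set.range X) ↔ ∃ c, dt c X = u := by
  rw [← range_dL, LinearMap.mem_range]
  rfl

/-- two maps with the same range differ by an automorphism -/
lemma exists_equiv (f f' : (Fin ℓ → ZMod 2) →ₗ[ZMod 2] Wd n)
    (h : LinearMap.range f = LinearMap.range f') :
    ∃ e : (Fin ℓ → ZMod 2) ≃ₗ[ZMod 2] (Fin ℓ → ZMod 2), ∀ c, f (e c) = f' c := by
  obtain ⟨s, hs⟩ := f.rangeRestrict.exists_rightInverse_of_surjective f.range_rangeRestrict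
  obtain ⟨s', hs'⟩ := f'.rangeRestrict.exists_rightInverse_of_surjective f'.range_rangeRestrict
  have h1 : ∀ y, f (s y) = y := by
    intro y
    have := LinearMap.congr_fun hs y
    exact congrArg Subtype.val this
  have h1' : ∀ y, f' (s' y) = y := by
    intro y
    have := LinearMap.congr_fun hs' y
    exact congrArg Subtype.val this
  have hfr : Module.finrank (ZMod 2) (LinearMap.ker f') = Module.finrank (ZMod 2)
      (LinearMap.ker f) := by
    have e1 := f.finrank_range_add_finrank_ker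
    have e2 := f'.finrank_range_add_finrank_ker
    rw [h] at e1
    omega
  obtain ⟨k⟩ : Nonempty (LinearMap.ker f' ≃ₗ[ZMod 2] LinearMap.ker f) :=
    ⟨LinearEquiv.ofFinrankEq _ _ hfr⟩
  obtain ⟨p, hp⟩ : ∃ p : (Fin ℓ → ZMod 2) →ₗ[ZMod 2] LinearMap.ker f', ∀ c, (p c : Fin ℓ → ZMod 2) =
      c - s' (f'.rangeRestrict c) := by
    refine ⟨LinearMap.codRestrict (LinearMap.ker f')
      (LinearMap.id - s' ∘ₗ f'.rangeRestrict) ?_, fun c => rfl⟩
    intro c
    rw [LinearMap.mem_ker]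
    simp only [LinearMap.sub_apply, LinearMap.id_apply, LinearMap.comp_apply, map_sub]
    rw [h1']
    simp
  obtain ⟨q, hq⟩ : ∃ q : (Fin ℓ → ZMod 2) →ₗ[ZMod 2] LinearMap.range f, ∀ c, (q c : Wd n) =
      f' c := by
    refine ⟨LinearMap.codRestrict (LinearMap.range f) f' ?_, fun c => rfl⟩
    intro c
    rw [h]
    exact ⟨c, rfl⟩
  obtain ⟨e₀, he₀⟩ : ∃ e₀ : (Fin ℓ → ZMod 2) →ₗ[ZMod 2] (Fin ℓ → ZMod 2), ∀ c, e₀ c =
      (k (p c) : Fin ℓ → ZMod 2) + s (q c) :=
    ⟨(LinearMap.ker f).subtype ∘ₗ k.toLinearMap ∘ₗ p + s ∘ₗ q, fun c => rfl⟩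
  have hf : ∀ c, f (e₀ c) = f' c := by
    intro c
    rw [he₀, map_add, h1, hq]
    have : f (k (p c)) = 0 := (k (p c)).2
    rw [this, zero_add]
  have hinj : Function.Injective e₀ := by
    rw [← LinearMap.ker_eq_bot, LinearMap.ker_eq_bot']
    intro c hc
    have h2 : f' c = 0 := by rw [← hf, hc, map_zero]
    have h3 : q c = 0 := Subtype.ext (by rw [hq, h2]; rfl)
    have h4 := he₀ c
    rw [hc, h3, map_zero, add_zero] at h4
    have h5 : k (p c) = 0 := Subtype.ext h4.symm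
    have h6 : p c = 0 := by
      have := (LinearEquiv.map_eq_zero_iff k).1 h5
      exact this
    have h7 := hp c
    rw [h6] at h7
    have h8 : f'.rangeRestrict c = 0 := Subtype.ext h2
    rw [h8, map_zero, sub_zero] at h7
    exact h7.symm
  exact ⟨LinearEquiv.ofInjectiveEndo e₀ hinj, fun c => hf c⟩

lemma card_T (T : Submodule (ZMod 2) (Fin ℓ → ZMod 2)) : Nat.card T = 2 ^ fr T := by
  have := Module.natCard_eq_pow_finrank (K := ZMod 2) (V := T)
  rw [this, Nat.card_zmod]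

lemma FT_pow {G : Wd n → ℝ} {T : Submodule (ZMod 2) (Fin ℓ → ZMod 2)} {X : Fin ℓ → Wd n}
    (h : ∀ c ∈ T, dt c X = 0) : FT G T X ^ (2 ^ fr T) = ∏ c, G (dt c X) := by
  rw [← card_T]
  unfold FT
  exact rep_prod T (fun c => G (dt c X)) fun c t ht => by
    rw [dt_add_left, h t ht, add_zero]

lemma FT_nonneg {G : Wd n → ℝ} (hG : ∀ v, 0 ≤ G v) (T : Submodule (ZMod 2) (Fin ℓ → ZMod 2))
    (X : Fin ℓ → Wd n) : 0 ≤ FT G T X := Finset.prod_nonneg fun _ _ => hG _

lemma bb_span {G : Wd n → ℝ} (hG : ∀ v, 0 ≤ G v) (R : ℝ) (X X' : Fin ℓ → Wd n)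
    (h : Submodule.span (ZMod 2) (Set.range X) = Submodule.span (ZMod 2) (Set.range X')) :
    bb G R X = bb G R X' := by
  classical
  obtain ⟨e, he⟩ := exists_equiv (dL X) (dL X') (by rw [range_dL, range_dL, h])
  have he' : ∀ c, dt (e c) X = dt c X' := he
  unfold bb
  rw [← Equiv.sum_comp (Submodule.orderIsoMapComap e).toEquiv]
  refine Finset.sum_congr rfl fun T _ => ?_
  have hT : (Submodule.orderIsoMapComap e).toEquiv T = T.map (e : (Fin ℓ → ZMod 2) →ₗ[ZMod 2]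
    (Fin ℓ → ZMod 2)) := rfl
  rw [hT]
  have h1 : (∀ c ∈ T.map (e : (Fin ℓ → ZMod 2) →ₗ[ZMod 2] (Fin ℓ → ZMod 2)), dt c X = 0) ↔
      ∀ c ∈ T, dt c X' = 0 := by
    constructor
    · intro h2 c hc
      rw [← he']
      exact h2 _ (Submodule.mem_map_of_mem hc)
    · rintro h2 _ ⟨c, hc, rfl⟩
      exact (he' c).trans (h2 c hc)
  have h3 : fr (T.map (e : (Fin ℓ → ZMod 2) →ₗ[ZMod 2] (Fin ℓ → ZMod 2))) = fr T :=
    LinearEquiv.finrank_map_eq e T
  by_cases h2 : ∀ c ∈ T, dt c X' = 0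
  · rw [if_pos (h1.2 h2), if_pos h2, h3]
    congr 1
    have h4 := FT_pow (G := G) (h1.2 h2)
    have h5 := FT_pow (G := G) h2
    rw [h3] at h4
    have h6 : ∏ c, G (dt c X) = ∏ c, G (dt c X') := by
      rw [← Equiv.prod_comp e.toEquiv]
      exact Finset.prod_congr rfl fun c _ => congrArg G (he' c)
    rw [h6, ← h5] at h4
    exact (pow_left_inj₀ (FT_nonneg hG _ _) (FT_nonneg hG _ _) (by positivity)).1 h4
  · rw [if_neg (fun h4 => h2 (h1.1 h4)), if_neg h2]

lemma bb_nonneg {G : Wd n → ℝ} (hG : ∀ v, 0 ≤ G v) {R : ℝ} (hR : 0 ≤ R) (X : Fin ℓ → Wd n) :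
    0 ≤ bb G R X := by
  classical
  unfold bb
  refine Finset.sum_nonneg fun T _ => ?_
  split_ifs
  · exact mul_nonneg (pow_nonneg hR _) (FT_nonneg hG _ _)
  · exact le_rfl

lemma FT_zero {G : Wd n → ℝ} {T : Submodule (ZMod 2) (Fin ℓ → ZMod 2)} {X : Fin ℓ → Wd n}
    (h : ∀ c ∈ T, dt c X = 0) (c : Fin ℓ → ZMod 2) (hc : G (dt c X) = 0) : FT G T X = 0 := by
  obtain ⟨s, hs, hcs⟩ := rep_ex T c
  unfold FT
  refine Finset.prod_eq_zero hs ?_
  have h2 := h _ hcs
  rw [dt_add_left] at h2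
  have h3 : dt s X = dt c X := by
    have : dt s X = dt c X + (dt c X + dt s X) := by rw [← add_assoc, vadd, zero_add]
    rw [this, h2, add_zero]
  rw [h3, hc]

lemma bb_dist {G : Wd n → ℝ} {R : ℝ} {X : Fin ℓ → Wd n} (u : Wd n)
    (hu : u ∈ Submodule.span (ZMod 2) (Set.range X)) (hG : G u = 0) : bb G R X = 0 := by
  classical
  obtain ⟨c, rfl⟩ := (mem_span_iff X u).1 hu
  unfold bb
  refine Finset.sum_eq_zero fun T _ => ?_
  split_ifs with h
  · rw [FT_zero h c hG, mul_zero]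
  · rfl

lemma bb_at_zero {G : Wd n → ℝ} (hG : G 0 = 1) (R : ℝ) :
    bb G R (0 : Fin ℓ → Wd n) = ∑ T : Submodule (ZMod 2) (Fin ℓ → ZMod 2), R ^ fr T := by
  classical
  have h0 : ∀ c : Fin ℓ → ZMod 2, dt c (0 : Fin ℓ → Wd n) = 0 := by
    intro c
    unfold dt
    simp
  unfold bb
  refine Finset.sum_congr rfl fun T _ => ?_
  rw [if_pos fun c _ => h0 c]
  unfold FT
  rw [Finset.prod_congr rfl fun c _ => by rw [h0 c, hG], Finset.prod_const_one, mul_one]

lemma card_sub : Fintype.card (Submodule (ZMod 2) (Fin ℓ → ZMod 2)) ≤ 2 ^ 2 ^ ℓ := by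
  classical
  have h := Fintype.card_le_of_injective
    (fun T : Submodule (ZMod 2) (Fin ℓ → ZMod 2) => (T : Set (Fin ℓ → ZMod 2)))
    SetLike.coe_injective
  refine h.trans ?_
  rw [Fintype.card_set, Fintype.card_fun, ZMod.card, Fintype.card_fin]

end Pool.Agent.helper857_lin
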