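import Mathlib
import Pool.Agent.helper857_lin.Rep

/-!
helper857_lin (MP_0430e4_lc): the Fourier transforms of the function `bb`.
-/

set_option autoImplicit false
set_option linter.unusedSectionVars false

namespace Pool.Agent.helper857_lin

open Finset

variable {ℓ n : ℕ}

lemma pr_eq_dt (Y Z : Fin ℓ → Wd n) : pr Y Z = ∑ k, dt (fun i => Y i k) Z k := by
  unfold pr dt dotProduct
  rw [Finset.sum_comm]
  refine Finset.sum_congr rfl fun k _ => ?_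
  rw [Finset.sum_apply]
  exact Finset.sum_congr rfl fun i _ => by rw [Pi.smul_apply, smul_eq_mul]

lemma fr_sp_ind {A : Finset (Fin ℓ → ZMod 2)} : ∀ {L : Submodule (ZMod 2) (Fin ℓ → ZMod 2)},
    Ind L A → fr (sp L A) = fr L + A.card := by
  classical
  induction A using Finset.induction_on with
  | empty =>
    intro L _
    rw [sp_empty, Finset.card_empty, add_zero]
  | insert c₁ A hc ih =>
    intro L hI
    have hcL : c₁ ∉ L := by
      have := hI {c₁} (by simp) (Finset.singleton_nonempty _)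
      rwa [Finset.sum_singleton] at this
    have hI' : Ind (L ⊔ Submodule.span (ZMod 2) {c₁}) A := by
      intro C hC hCn h
      rcases mem_sup1.1 h with h | h
      · exact hI C (hC.trans (Finset.subset_insert _ _)) hCn h
      · refine hI (insert c₁ C) (Finset.insert_subset_insert _ hC) (Finset.insert_nonempty _ _) ?_
        rw [Finset.sum_insert fun h3 => hc (hC h3), add_comm]
        exact h
    rw [sp_insert, ih hI', fr_sup1 hcL, Finset.card_insert_of_notMem hc]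
    ring

/-- the properties of the kernel -/
structure Ker (n d : ℕ) (G : Wd n → ℝ) (Λ V ε : ℝ) : Prop where
  G0 : G 0 = 1
  nonneg : ∀ v, 0 ≤ G v
  dist : ∀ v, v ≠ 0 → hammingNorm v < d → G v = 0
  le : ∀ v, |G v - 1| ≤ 1
  four : ∀ y : Wd n, |∑ v, (G v - 1) * sg (y ⬝ᵥ v)| ≤ Λ
  vol : ∑ v, |G v - 1| ≤ V
  tri : ∀ w, ∑ v, ∑ v', |G v - 1| * (|G v' - 1| * |G (v + v' + w) - 1|) ≤ V ^ 2 * ε
  pair : ∀ u, d ≤ hammingNorm u → ∑ v, |G v - 1| * |G (v + u) - 1| ≤ V * ε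

/-- the coefficients that vanish on `J` -/
def WJ (J : Finset (Fin ℓ)) : Submodule (ZMod 2) (Fin ℓ → ZMod 2) where
  carrier := {c | ∀ j ∈ J, c j = 0}
  add_mem' := by
    intro a b ha hb j hj
    rw [Pi.add_apply, ha j hj, hb j hj, add_zero]
  zero_mem' := fun j _ => rfl
  smul_mem' := by
    intro a c hc j hj
    rw [Pi.smul_apply, hc j hj, smul_zero]

lemma mem_WJ {J : Finset (Fin ℓ)} {c : Fin ℓ → ZMod 2} : c ∈ WJ J ↔ ∀ j ∈ J, c j = 0 := Iff.rfl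

lemma dt_WJ {J : Finset (Fin ℓ)} {X X' : Fin ℓ → Wd n} (h : ∀ i, i ∉ J → X i = X' i)
    {c : Fin ℓ → ZMod 2} (hc : c ∈ WJ J) : dt c X = dt c X' := by
  unfold dt
  refine Finset.sum_congr rfl fun i _ => ?_
  by_cases hi : i ∈ J
  · rw [mem_WJ.1 hc i hi, zero_smul, zero_smul]
  · rw [h i hi]

lemma mem_HH_WJ {J : Finset (Fin ℓ)} {X X₁ : Fin ℓ → Wd n} :
    X ∈ HH (WJ J) X₁ ↔ ∀ i, i ∉ J → X i = X₁ i := by
  classical
  rw [mem_HH]
  constructor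
  · intro h i hi
    have h1 := h (Pi.single i 1) (mem_WJ.2 fun j hj => by
      rw [Pi.single_eq_of_ne]
      rintro rfl
      exact hi hj)
    rwa [dt_single, dt_single] at h1
  · intro h c hc
    exact dt_WJ h hc

/-- the product of the kernel over the fixed classes is close to one -/
lemma prod_near {G : Wd n → ℝ} {e : ℝ} (A : Finset (Fin ℓ → ZMod 2)) (X : Fin ℓ → Wd n)
    (he : 0 ≤ e) (he2 : 2 ^ 2 ^ ℓ * e ≤ 1 / 2) (h : ∀ c ∈ A, |G (dt c X) - 1| ≤ e) :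
    1 / 2 ≤ ∏ c ∈ A, G (dt c X) ∧ ∏ c ∈ A, G (dt c X) ≤ 2 := by
  have hcard : A.card ≤ 2 ^ ℓ := by
    refine (Finset.card_le_univ A).trans (le_of_eq ?_)
    rw [Fintype.card_fun, ZMod.card, Fintype.card_fin]
  have hcard2 : (A.card : ℝ) ≤ 2 ^ 2 ^ ℓ := by
    have h1 : (2 ^ ℓ : ℕ) < 2 ^ 2 ^ ℓ := Nat.lt_two_pow_self
    have h2 : A.card ≤ 2 ^ 2 ^ ℓ := hcard.trans h1.le
    exact_mod_cast h2
  have h2 : (A.card : ℝ) * e ≤ 1 / 2 := (mul_le_mul_of_nonneg_right hcard2 he).trans he2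
  have h1 : 1 ≤ (2 : ℝ) ^ 2 ^ ℓ := one_le_pow₀ (by norm_num)
  have he1 : e ≤ 1 / 2 := by nlinarith
  have hlow : (1 - e) ^ A.card ≤ ∏ c ∈ A, G (dt c X) := by
    rw [← Finset.prod_const]
    refine Finset.prod_le_prod (fun c _ => by linarith) fun c hc => ?_
    have := (abs_le.1 (h c hc)).1
    linarith
  have hup : ∏ c ∈ A, G (dt c X) ≤ (1 + e) ^ A.card := by
    rw [← Finset.prod_const]
    refine Finset.prod_le_prod (fun c hc => ?_) fun c hc => ?_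
    · have := (abs_le.1 (h c hc)).1
      linarith
    · have := (abs_le.1 (h c hc)).2
      linarith
  have hb : 1 / 2 ≤ (1 - e) ^ A.card := by
    have := one_add_mul_le_pow (by linarith : (-2 : ℝ) ≤ -e) A.card
    have e1 : 1 + -e = 1 - e := by ring
    rw [e1] at this
    linarith
  refine ⟨hb.trans hlow, hup.trans ?_⟩
  have h3 : (1 + e) ^ A.card * (1 - e) ^ A.card ≤ 1 := by
    rw [← mul_pow]
    refine pow_le_one₀ ?_ ?_
    · nlinarith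
    · nlinarith
  have h4 : 0 ≤ (1 + e) ^ A.card := by positivity
  nlinarith

/-- the conditions on the parameters -/
structure Par (n ℓ : ℕ) (Λ V ε R η : ℝ) : Prop where
  R1 : 1 ≤ R
  RQ : R ≤ 2 ^ n
  η0 : 0 ≤ η
  η1 : η ≤ 1
  c1 : Λ ≤ η * R
  c2 : ∀ r ≤ ℓ, V ^ r * ε ≤ η * R ^ r
  c3 : ∀ r ≤ ℓ, V ^ r ≤ η * R ^ (r + 1)
  c4 : 4 * (2 ^ 2 ^ ℓ * 2 ^ 2 ^ ℓ) * η ≤ 1 / 2
  c5 : V ≤ η * 2 ^ n

variable {G : Wd n → ℝ} {d : ℕ} {Λ V ε R η : ℝ}

lemma arith1 {t r a b l l' m k : ℕ} {Q : ℝ} (hR : 1 ≤ R) (hRQ : R ≤ Q) (hη : 0 ≤ η)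
    (h1 : t + r + a ≤ b + (l' - l)) (h2 : l ≤ l') (h3 : l' ≤ m) {x : ℝ} (hx : x ≤ η * R ^ (r + a))
    (hk : k = m - l') :
    R ^ t * (x * Q ^ k) ≤ η * (R ^ b * Q ^ (m - l)) := by
  have hQ : 1 ≤ Q := hR.trans hRQ
  have hR0 : 0 ≤ R := by linarith
  have hQ0 : 0 ≤ Q := by linarith
  have e1 : m - l = (l' - l) + k := by omega
  have h4 : R ^ (t + r + a) ≤ R ^ b * Q ^ (l' - l) := by
    calc R ^ (t + r + a) ≤ R ^ (b + (l' - l)) := pow_le_pow_right₀ hR h1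
      _ = R ^ b * R ^ (l' - l) := pow_add _ _ _
      _ ≤ R ^ b * Q ^ (l' - l) :=
          mul_le_mul_of_nonneg_left (pow_le_pow_left₀ hR0 hRQ _) (by positivity)
  calc R ^ t * (x * Q ^ k) ≤ R ^ t * ((η * R ^ (r + a)) * Q ^ k) := by gcongr
    _ = η * (R ^ (t + r + a) * Q ^ k) := by
        rw [add_assoc, pow_add R t]
        ring
    _ ≤ η * ((R ^ b * Q ^ (l' - l)) * Q ^ k) := by gcongr
    _ = η * (R ^ b * Q ^ (m - l)) := by
        rw [e1, pow_add Q]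
        ring

/-- **The bound for one term of the expansion.** -/
lemma term_bound (hK : Ker n d G Λ V ε) (hP : Par n ℓ Λ V ε R η)
    {W₁ T Cy : Submodule (ZMod 2) (Fin ℓ → ZMod 2)} {K₁ : Submodule (ZMod 2) (Fin ℓ → ZMod 2)}
    {X₁ XT Y : Fin ℓ → Wd n} (h1 : ∀ c ∈ W₁, dt c XT = dt c X₁) (h2 : ∀ c ∈ T, dt c XT = 0)
    (hCy : ∀ L' : Submodule (ZMod 2) (Fin ℓ → ZMod 2), (∀ k, (fun i => Y i k) ∈ L') → Cy ≤ L')
    (hK₁ : ∀ c, c ∈ K₁ ↔ c ∈ W₁ ∧ dt c X₁ = 0)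
    (hd : ∀ c ∈ W₁, dt c X₁ ≠ 0 → d ≤ hammingNorm (dt c X₁))
    {A : Finset (Fin ℓ → ZMod 2)} (hA : A.Nonempty) (hAT : A ⊆ rep T)
    (hAL : ∀ c ∈ A, c ∉ W₁ ⊔ T) :
    R ^ fr T * |∑ X ∈ HH (W₁ ⊔ T) XT, sg (pr Y X) * ∏ c ∈ A, (G (dt c X) - 1)| ≤
      η * (R ^ (fr K₁ + fr (W₁ ⊔ Cy) - fr W₁) * (2 ^ n) ^ (ℓ - fr (W₁ ⊔ Cy))) := by
  classical
  have hR := hP.R1
  have hR0 : 0 ≤ R := by linarith
  by_cases hY : ∀ k, (fun i => Y i k) ∈ sp (W₁ ⊔ T) A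
  swap
  · push Not at hY
    obtain ⟨k, hk⟩ := hY
    rw [vanish (le_sp _ A) Y XT k hk (fun X => ∏ c ∈ A, (G (dt c X) - 1))
      (fun X X' h => Finset.prod_congr rfl fun c hc => by rw [h c (mem_sp _ hc)]), abs_zero,
      mul_zero]
    have := hP.η0
    positivity
  have hle : W₁ ⊔ Cy ≤ sp (W₁ ⊔ T) A :=
    sup_le (le_sup_left.trans (le_sp _ _)) (hCy _ hY)
  have f1 := fr_mono hle
  have f2 := fr_mono (le_sp (W₁ ⊔ T) A)
  have f3 := fr_le (sp (W₁ ⊔ T) A)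
  have f4 : fr (W₁ ⊔ T) + fr (W₁ ⊓ T) = fr W₁ + fr T :=
    Submodule.finrank_sup_add_finrank_inf_eq W₁ T
  have hinf : W₁ ⊓ T ≤ K₁ := by
    intro c hc
    rw [hK₁]
    refine ⟨hc.1, ?_⟩
    rw [← h1 c hc.1, h2 c hc.2]
  have f5 := fr_mono hinf
  have hKW : K₁ ≤ W₁ := fun c hc => ((hK₁ c).1 hc).1
  have f6 := fr_mono hKW
  have f7 : fr W₁ ≤ fr (W₁ ⊔ Cy) := fr_mono le_sup_left
  have hE0 : ∀ v, 0 ≤ |G v - 1| := fun v => abs_nonneg _
  have habs : |∑ X ∈ HH (W₁ ⊔ T) XT, sg (pr Y X) * ∏ c ∈ A, (G (dt c X) - 1)| ≤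
      ∑ X ∈ HH (W₁ ⊔ T) XT, ∏ c ∈ A, |G (dt c X) - 1| := by
    refine (Finset.abs_sum_le_sum_abs _ _).trans (le_of_eq ?_)
    refine Finset.sum_congr rfl fun X _ => ?_
    rw [abs_mul, sg_abs, one_mul, Finset.abs_prod]
  have hRt : 0 ≤ R ^ fr T := pow_nonneg hR0 _
  by_cases hI : Ind (W₁ ⊔ T) A
  · have h3 := ind_bound (E := fun v => G v - 1) hK.four Y A (W₁ ⊔ T) XT hI
    have h4 := fr_sp_ind hI
    have h5 : 1 ≤ A.card := Finset.card_pos.2 hA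
    refine (mul_le_mul_of_nonneg_left h3 hRt).trans ?_
    refine arith1 (r := A.card) (a := 0) hR hP.RQ hP.η0 ?_ f1 f3 ?_ rfl
    · omega
    · have hΛ0 : 0 ≤ Λ := (abs_nonneg _).trans (hK.four 0)
      calc Λ ^ A.card ≤ (η * R) ^ A.card := pow_le_pow_left₀ hΛ0 hP.c1 _
        _ = η ^ A.card * R ^ A.card := mul_pow _ _ _
        _ ≤ η * R ^ (A.card + 0) := by
            rw [add_zero]
            refine mul_le_mul_of_nonneg_right ?_ (pow_nonneg hR0 _)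
            exact pow_le_of_le_one hP.η0 hP.η1 (by omega)
  · by_cases hKT : K₁ ≤ T
    · have h3 := dep_bound (E := fun v => |G v - 1|) hE0 hK.le hK.vol hK.tri XT hAL hI ?_
      · refine (mul_le_mul_of_nonneg_left (habs.trans h3) hRt).trans ?_
        rw [← mul_assoc ε]
        refine arith1 (r := fr (sp (W₁ ⊔ T) A) - fr (W₁ ⊔ T)) (a := 0) hR hP.RQ hP.η0 ?_ f1 f3 ?_
          rfl
        · omega
        · rw [add_zero, mul_comm ε]
          exact hP.c2 _ (by omega)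
      · intro c₁ hc₁ c₂ hc₂ h12 hs
        refine hK.pair _ ?_
        obtain ⟨w, hw, t, ht, hwt⟩ := Submodule.mem_sup.1 hs
        have e1 : dt (c₁ + c₂) XT = dt w X₁ := by
          rw [← hwt, dt_add_left, h2 t ht, add_zero, h1 w hw]
        rw [e1]
        refine hd w hw fun h0 => ?_
        refine h12 (rep_inj (hAT hc₁) (hAT hc₂) ?_)
        rw [← hwt]
        exact T.add_mem (hKT ((hK₁ w).2 ⟨hw, h0⟩)) ht
    · have h3 := abs_bound (E := fun v => |G v - 1|) hE0 hK.le hK.vol A (W₁ ⊔ T) XT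
      have f8 : fr (W₁ ⊓ T) < fr K₁ := by
        refine Submodule.finrank_lt_finrank_of_lt (lt_of_le_of_ne hinf fun h => hKT ?_)
        rw [← h]
        exact inf_le_right
      refine (mul_le_mul_of_nonneg_left (habs.trans h3) hRt).trans ?_
      refine arith1 (r := fr (sp (W₁ ⊔ T) A) - fr (W₁ ⊔ T)) (a := 1) hR hP.RQ hP.η0 ?_ f1 f3
        (hP.c3 _ (by omega)) rfl
      omega

end Pool.Agent.helper857_lin
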