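import Mathlib
import Pool.Agent.helper857_lin.Main

/-!
helper857_lin (MP_0430e4_lc): the Fourier transforms of the function `bb` are nonnegative.
-/

set_option autoImplicit false
set_option linter.unusedSectionVars false

namespace Pool.Agent.helper857_lin

open Finset

variable {ℓ n : ℕ} {G : Wd n → ℝ} {d : ℕ} {Λ V ε R η e : ℝ}

/-- the part of the sum given by `T` -/
noncomputable def Mt (G : Wd n → ℝ) (W₁ T : Submodule (ZMod 2) (Fin ℓ → ZMod 2))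
    (X₁ Y : Fin ℓ → Wd n) : ℝ :=
  ∑ Z ∈ HH W₁ X₁, open Classical in
    if ∀ c ∈ T, dt c Z = 0 then FT G T Z * sg (pr Y Z) else 0

/-- one term of the expansion -/
noncomputable def Ph (G : Wd n → ℝ) (L : Submodule (ZMod 2) (Fin ℓ → ZMod 2))
    (XT Y : Fin ℓ → Wd n) (A : Finset (Fin ℓ → ZMod 2)) : ℝ :=
  ∑ X ∈ HH L XT, sg (pr Y X) * ∏ c ∈ A, (G (dt c X) - 1)

lemma Mt_eq {W₁ T : Submodule (ZMod 2) (Fin ℓ → ZMod 2)} {X₁ XT Y : Fin ℓ → Wd n}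
    (h1 : ∀ c ∈ W₁, dt c XT = dt c X₁) (h2 : ∀ c ∈ T, dt c XT = 0)
    (S₁ S₂ : Finset (Fin ℓ → ZMod 2)) (hS : Disjoint S₁ S₂) (hS' : S₁ ∪ S₂ = rep T)
    (hS₁ : ∀ c ∈ S₁, c ∈ W₁ ⊔ T) :
    Mt G W₁ T X₁ Y = (∏ c ∈ S₁, G (dt c XT)) * ∑ A ∈ S₂.powerset, Ph G (W₁ ⊔ T) XT Y A := by
  classical
  unfold Mt Ph
  rw [← Finset.sum_filter]
  have e1 : (HH W₁ X₁).filter (fun Z => ∀ c ∈ T, dt c Z = 0) = HH (W₁ ⊔ T) XT := by
    ext Z
    rw [Finset.mem_filter, mem_HH, mem_HH]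
    constructor
    · rintro ⟨a1, a2⟩ c hc
      obtain ⟨w, hw, t, ht, rfl⟩ := Submodule.mem_sup.1 hc
      rw [dt_add_left, dt_add_left, a1 w hw, a2 t ht, h1 w hw, h2 t ht]
    · intro a
      refine ⟨fun c hc => ?_, fun c hc => ?_⟩
      · rw [a c (Submodule.mem_sup_left hc), h1 c hc]
      · rw [a c (Submodule.mem_sup_right hc), h2 c hc]
  rw [e1, Finset.sum_comm, Finset.mul_sum]
  refine Finset.sum_congr rfl fun X hX => ?_
  unfold FT
  rw [← hS', Finset.prod_union hS, ← Finset.mul_sum, ← Finset.prod_one_add]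
  have e2 : ∏ c ∈ S₁, G (dt c X) = ∏ c ∈ S₁, G (dt c XT) :=
    Finset.prod_congr rfl fun c hc => by rw [mem_HH.1 hX c (hS₁ c hc)]
  have e3 : ∏ c ∈ S₂, (1 + (G (dt c X) - 1)) = ∏ c ∈ S₂, G (dt c X) :=
    Finset.prod_congr rfl fun c _ => by ring
  rw [e2, e3]
  ring

lemma exists_XT {W₁ T : Submodule (ZMod 2) (Fin ℓ → ZMod 2)} {X₁ Z₀ : Fin ℓ → Wd n}
    (h1 : ∀ c ∈ W₁, dt c Z₀ = dt c X₁) (h2 : ∀ c ∈ T, dt c Z₀ = 0) :
    ∃ XT : Fin ℓ → Wd n, (∀ c ∈ W₁, dt c XT = dt c X₁) ∧ (∀ c ∈ T, dt c XT = 0) ∧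
      ∀ i, ∃ c ∈ W₁, XT i = dt c X₁ := by
  obtain ⟨p, hp⟩ := (W₁.map (dL X₁)).subtype.exists_leftInverse_of_injective
    (Submodule.ker_subtype _)
  have hp' : ∀ u : W₁.map (dL X₁), p (u : Wd n) = u := fun u => LinearMap.congr_fun hp u
  have hdt : ∀ c, dt c (fun i => ((p (Z₀ i) : W₁.map (dL X₁)) : Wd n)) =
      (p (dt c Z₀) : Wd n) := by
    intro c
    unfold dt
    rw [map_sum, AddSubmonoidClass.coe_finsetSum]
    refine Finset.sum_congr rfl fun i _ => ?_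
    rw [map_smul]
    rfl
  refine ⟨fun i => (p (Z₀ i) : Wd n), fun c hc => ?_, fun c hc => ?_, fun i => ?_⟩
  · rw [hdt, h1 c hc]
    have := hp' ⟨dt c X₁, Submodule.mem_map_of_mem (f := dL X₁) hc⟩
    rw [this]
  · rw [hdt, h2 c hc, map_zero]
    rfl
  · obtain ⟨c, hc, hcu⟩ := Submodule.mem_map.1 (p (Z₀ i)).2
    exact ⟨c, hc, hcu.symm⟩

lemma Ph_empty {L : Submodule (ZMod 2) (Fin ℓ → ZMod 2)} {XT Y : Fin ℓ → Wd n}
    (h : pr Y XT = 0) : (Ph G L XT Y ∅ = (2 ^ n) ^ (ℓ - fr L) ∧ ∀ k, (fun i => Y i k) ∈ L) ∨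
      Ph G L XT Y ∅ = 0 := by
  classical
  by_cases hY : ∀ k, (fun i => Y i k) ∈ L
  · left
    refine ⟨?_, hY⟩
    unfold Ph
    have e1 : ∀ X ∈ HH L XT, sg (pr Y X) * ∏ c ∈ (∅ : Finset (Fin ℓ → ZMod 2)),
        (G (dt c X) - 1) = 1 := by
      intro X hX
      rw [Finset.prod_empty, mul_one, pr_eq_dt, Finset.sum_congr rfl fun k _ => by
        rw [mem_HH.1 hX _ (hY k)], ← pr_eq_dt, h, sg_zero]
    rw [Finset.sum_congr rfl e1, Finset.sum_const, nsmul_eq_mul, mul_one, card_HH]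
  · right
    push Not at hY
    obtain ⟨k, hk⟩ := hY
    exact vanish le_rfl Y XT k hk (fun X => ∏ c ∈ (∅ : Finset (Fin ℓ → ZMod 2)),
      (G (dt c X) - 1)) (fun X X' _ => by rw [Finset.prod_empty, Finset.prod_empty])

/-- **The part given by `T`, from below.** -/
lemma Mt_lower (hK : Ker n d G Λ V ε) (hP : Par n ℓ Λ V ε R η) (he : 0 ≤ e)
    (he2 : 2 ^ 2 ^ ℓ * e ≤ 1 / 2) (hnear : ∀ v : Wd n, d ≤ hammingNorm v → |G v - 1| ≤ e)
    {W₁ T Cy : Submodule (ZMod 2) (Fin ℓ → ZMod 2)} {K₁ : Submodule (ZMod 2) (Fin ℓ → ZMod 2)}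
    {X₁ XT Y : Fin ℓ → Wd n} (h1 : ∀ c ∈ W₁, dt c XT = dt c X₁) (h2 : ∀ c ∈ T, dt c XT = 0)
    (hpr : pr Y XT = 0)
    (hCy : ∀ L' : Submodule (ZMod 2) (Fin ℓ → ZMod 2), (∀ k, (fun i => Y i k) ∈ L') → Cy ≤ L')
    (hK₁ : ∀ c, c ∈ K₁ ↔ c ∈ W₁ ∧ dt c X₁ = 0)
    (hd : ∀ c ∈ W₁, dt c X₁ ≠ 0 → d ≤ hammingNorm (dt c X₁)) {B : ℝ}
    (hB : B = R ^ (fr K₁ + fr (W₁ ⊔ Cy) - fr W₁) * (2 ^ n) ^ (ℓ - fr (W₁ ⊔ Cy))) :
    -(2 * 2 ^ 2 ^ ℓ * (η * B)) ≤ R ^ fr T * Mt G W₁ T X₁ Y ∧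
      (K₁ ≤ T → W₁ ⊔ T = W₁ ⊔ Cy → (∀ k, (fun i => Y i k) ∈ W₁ ⊔ T) →
        1 / 2 * B - 2 * 2 ^ 2 ^ ℓ * (η * B) ≤ R ^ fr T * Mt G W₁ T X₁ Y) := by
  classical
  have hR := hP.R1
  have hR0 : 0 ≤ R := by linarith
  obtain ⟨S₁, hS₁⟩ : ∃ S₁, S₁ = (rep T).filter fun c => c ∈ W₁ ⊔ T := ⟨_, rfl⟩
  obtain ⟨S₂, hS₂⟩ : ∃ S₂, S₂ = (rep T).filter fun c => ¬ c ∈ W₁ ⊔ T := ⟨_, rfl⟩
  have hdis : Disjoint S₁ S₂ := by
    rw [hS₁, hS₂]
    exact Finset.disjoint_filter_filter_not _ _ _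
  have hun : S₁ ∪ S₂ = rep T := by
    rw [hS₁, hS₂]
    exact Finset.filter_union_filter_not_eq _ _
  have hin : ∀ c ∈ S₁, c ∈ W₁ ⊔ T := by
    intro c hc
    rw [hS₁] at hc
    exact (Finset.mem_filter.1 hc).2
  rw [Mt_eq h1 h2 S₁ S₂ hdis hun hin]
  obtain ⟨P, hPd⟩ : ∃ P, P = ∏ c ∈ S₁, G (dt c XT) := ⟨_, rfl⟩
  have hPP : 1 / 2 ≤ P ∧ P ≤ 2 := by
    rw [hPd]
    refine prod_near S₁ XT he he2 fun c hc => ?_
    obtain ⟨w, hw, t, ht, hwt⟩ := Submodule.mem_sup.1 (hin c hc)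
    have e1 : dt c XT = dt w X₁ := by
      rw [← hwt, dt_add_left, h2 t ht, add_zero, h1 w hw]
    rw [e1]
    by_cases h0 : dt w X₁ = 0
    · rw [h0, hK.G0, sub_self, abs_zero]
      exact he
    · exact hnear _ (hd w hw h0)
  rw [← hPd]
  have hB0 : 0 ≤ B := by
    rw [hB]
    positivity
  have hcard : ((S₂.powerset.erase ∅).card : ℝ) ≤ 2 ^ 2 ^ ℓ := by
    have h3 : (S₂.powerset.erase ∅).card ≤ 2 ^ 2 ^ ℓ := by
      refine (Finset.card_le_card (Finset.erase_subset _ _)).trans ?_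
      rw [Finset.card_powerset]
      refine Nat.pow_le_pow_right (by norm_num) ?_
      refine (Finset.card_le_univ S₂).trans (le_of_eq ?_)
      rw [Fintype.card_fun, ZMod.card, Fintype.card_fin]
    exact_mod_cast h3
  have hsplit : ∑ A ∈ S₂.powerset, Ph G (W₁ ⊔ T) XT Y A = Ph G (W₁ ⊔ T) XT Y ∅ +
      ∑ A ∈ S₂.powerset.erase ∅, Ph G (W₁ ⊔ T) XT Y A :=
    (Finset.add_sum_erase _ _ (Finset.empty_mem_powerset S₂)).symm
  have herr : R ^ fr T * |∑ A ∈ S₂.powerset.erase ∅, Ph G (W₁ ⊔ T) XT Y A| ≤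
      2 ^ 2 ^ ℓ * (η * B) := by
    have hRt : 0 ≤ R ^ fr T := pow_nonneg hR0 _
    calc R ^ fr T * |∑ A ∈ S₂.powerset.erase ∅, Ph G (W₁ ⊔ T) XT Y A|
        ≤ R ^ fr T * ∑ A ∈ S₂.powerset.erase ∅, |Ph G (W₁ ⊔ T) XT Y A| :=
          mul_le_mul_of_nonneg_left (Finset.abs_sum_le_sum_abs _ _) hRt
      _ = ∑ A ∈ S₂.powerset.erase ∅, R ^ fr T * |Ph G (W₁ ⊔ T) XT Y A| := Finset.mul_sum _ _ _
      _ ≤ ∑ _A ∈ S₂.powerset.erase ∅, η * B := by
          refine Finset.sum_le_sum fun A hA => ?_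
          obtain ⟨hA1, hA2⟩ := Finset.mem_erase.1 hA
          have hA3 := Finset.mem_powerset.1 hA2
          rw [hB]
          refine term_bound hK hP h1 h2 hCy hK₁ hd (Finset.nonempty_iff_ne_empty.2 hA1)
            (fun c hc => ?_) (fun c hc => ?_)
          · have := hA3 hc
            rw [hS₂] at this
            exact (Finset.mem_filter.1 this).1
          · have := hA3 hc
            rw [hS₂] at this
            exact (Finset.mem_filter.1 this).2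
      _ = ((S₂.powerset.erase ∅).card : ℝ) * (η * B) := by rw [Finset.sum_const, nsmul_eq_mul]
      _ ≤ 2 ^ 2 ^ ℓ * (η * B) :=
          mul_le_mul_of_nonneg_right hcard (mul_nonneg hP.η0 hB0)
  obtain ⟨Er, hEr⟩ : ∃ Er, Er = ∑ A ∈ S₂.powerset.erase ∅, Ph G (W₁ ⊔ T) XT Y A := ⟨_, rfl⟩
  rw [← hEr] at hsplit herr
  rw [hsplit]
  have hErr2 : -(2 * 2 ^ 2 ^ ℓ * (η * B)) ≤ R ^ fr T * (P * Er) := by
    have h3 : |R ^ fr T * (P * Er)| ≤ 2 * (2 ^ 2 ^ ℓ * (η * B)) := by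
      rw [abs_mul, abs_mul, abs_of_nonneg (pow_nonneg hR0 _), abs_of_nonneg (by linarith [hPP.1])]
      calc R ^ fr T * (P * |Er|) = P * (R ^ fr T * |Er|) := by ring
        _ ≤ 2 * (2 ^ 2 ^ ℓ * (η * B)) :=
            mul_le_mul hPP.2 herr (mul_nonneg (pow_nonneg hR0 _) (abs_nonneg _)) (by norm_num)
    have := (abs_le.1 h3).1
    linarith
  have hsum : R ^ fr T * (P * (Ph G (W₁ ⊔ T) XT Y ∅ + Er)) =
      R ^ fr T * (P * Ph G (W₁ ⊔ T) XT Y ∅) + R ^ fr T * (P * Er) := by ring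
  rw [hsum]
  refine ⟨?_, fun hKT hW hcol => ?_⟩
  · have h3 : 0 ≤ Ph G (W₁ ⊔ T) XT Y ∅ := by
      rcases Ph_empty (G := G) (L := W₁ ⊔ T) hpr with h4 | h4
      · rw [h4.1]
        positivity
      · rw [h4]
    have h5 : 0 ≤ R ^ fr T * (P * Ph G (W₁ ⊔ T) XT Y ∅) := by
      have := hPP.1
      positivity
    linarith
  · have h3 : Ph G (W₁ ⊔ T) XT Y ∅ = (2 ^ n) ^ (ℓ - fr (W₁ ⊔ T)) := by
      unfold Ph
      have e1 : ∀ X ∈ HH (W₁ ⊔ T) XT, sg (pr Y X) * ∏ c ∈ (∅ : Finset (Fin ℓ → ZMod 2)),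
          (G (dt c X) - 1) = 1 := by
        intro X hX
        rw [Finset.prod_empty, mul_one, pr_eq_dt, Finset.sum_congr rfl fun k _ => by
          rw [mem_HH.1 hX _ (hcol k)], ← pr_eq_dt, hpr, sg_zero]
      rw [Finset.sum_congr rfl e1, Finset.sum_const, nsmul_eq_mul, mul_one, card_HH]
    have f4 : fr (W₁ ⊔ T) + fr (W₁ ⊓ T) = fr W₁ + fr T :=
      Submodule.finrank_sup_add_finrank_inf_eq W₁ T
    have f5 : fr K₁ ≤ fr (W₁ ⊓ T) := fr_mono (le_inf (fun c hc => ((hK₁ c).1 hc).1) hKT)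
    have h6 : R ^ (fr K₁ + fr (W₁ ⊔ Cy) - fr W₁) ≤ R ^ fr T := by
      refine pow_le_pow_right₀ hR ?_
      rw [← hW]
      omega
    have h7 : 1 / 2 * B ≤ R ^ fr T * (P * Ph G (W₁ ⊔ T) XT Y ∅) := by
      rw [h3, hB, ← hW]
      rw [← hW] at h6
      have hQ : (0 : ℝ) ≤ (2 ^ n) ^ (ℓ - fr (W₁ ⊔ T)) := by positivity
      calc 1 / 2 * (R ^ (fr K₁ + fr (W₁ ⊔ T) - fr W₁) * (2 ^ n) ^ (ℓ - fr (W₁ ⊔ T)))
          ≤ P * (R ^ fr T * (2 ^ n) ^ (ℓ - fr (W₁ ⊔ T))) := by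
            refine mul_le_mul hPP.1 (mul_le_mul_of_nonneg_right h6 hQ) (by positivity)
              (by linarith [hPP.1])
        _ = _ := by ring
    linarith

/-- **The Fourier transforms of `bb` are nonnegative.** -/
theorem bb_fourier (hK : Ker n d G Λ V ε) (hP : Par n ℓ Λ V ε R η) (he : 0 ≤ e)
    (he2 : 2 ^ 2 ^ ℓ * e ≤ 1 / 2) (hnear : ∀ v : Wd n, d ≤ hammingNorm v → |G v - 1| ≤ e)
    (J : Finset (Fin ℓ)) (X₁ Y : Fin ℓ → Wd n) (hY0 : ∀ i, i ∉ J → Y i = 0) :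
    0 ≤ ∑ Z ∈ HH (WJ J) X₁, bb G R Z * sg (pr Y Z) := by
  classical
  have hR := hP.R1
  have hR0 : 0 ≤ R := by linarith
  by_cases hperp : ∀ j ∈ J, ∀ c ∈ WJ J, Y j ⬝ᵥ dt c X₁ = 0
  swap
  · push Not at hperp
    obtain ⟨j, hj, c, hc, hne⟩ := hperp
    obtain ⟨u, hu⟩ : ∃ u, u = dt c X₁ := ⟨_, rfl⟩
    obtain ⟨D, hD⟩ : ∃ D : Fin ℓ → Wd n, D = Pi.single j u := ⟨_, rfl⟩
    rw [← hu] at hne
    have hD0 : ∀ i, i ∉ J → D i = 0 := by
      intro i hi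
      rw [hD, Pi.single_eq_of_ne]
      rintro rfl
      exact hi hj
    have hprD : pr Y D = 1 := by
      have : pr Y D = Y j ⬝ᵥ u := by
        unfold pr
        rw [Finset.sum_eq_single j]
        · rw [hD, Pi.single_eq_same]
        · intro i _ hi
          rw [hD, Pi.single_eq_of_ne hi, dotProduct_zero]
        · intro h
          exact absurd (Finset.mem_univ j) h
      rw [this]
      rcases zcase (Y j ⬝ᵥ u) with h | h
      · exact absurd h hne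
      · exact h
    have e1 := HH_shift (L := WJ J) X₁ D (fun Z => bb G R Z * sg (pr Y Z))
    have e2 : HH (WJ J) (X₁ + D) = HH (WJ J) X₁ := HH_eq fun c hc => dt_WJ (fun i hi => by
      rw [Pi.add_apply, hD0 i hi, add_zero]) hc
    rw [e2] at e1
    have e3 : ∑ Z ∈ HH (WJ J) X₁, bb G R (Z + D) * sg (pr Y (Z + D)) =
        ∑ Z ∈ HH (WJ J) X₁, -(bb G R Z * sg (pr Y Z)) := by
      refine Finset.sum_congr rfl fun Z hZ => ?_
      have h4 : bb G R (Z + D) = bb G R Z := by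
        refine bb_span hK.nonneg R _ _ ?_
        have hcZ : dt c Z = u := by rw [mem_HH.1 hZ c hc, hu]
        have hcD : dt c (Z + D) = u := by
          rw [dt_add_right, hcZ, dt_WJ (X' := (0 : Fin ℓ → Wd n)) (fun i hi => hD0 i hi) hc]
          unfold dt
          simp
        apply le_antisymm
        · rw [Submodule.span_le]
          rintro _ ⟨i, rfl⟩
          rw [Pi.add_apply]
          refine Submodule.add_mem _ (Submodule.subset_span (Set.mem_range_self i)) ?_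
          by_cases hi : i = j
          · rw [hi, hD, Pi.single_eq_same]
            exact (mem_span_iff Z u).2 ⟨c, hcZ⟩
          · rw [hD, Pi.single_eq_of_ne hi]
            exact Submodule.zero_mem _
        · rw [Submodule.span_le]
          rintro _ ⟨i, rfl⟩
          have : Z i = (Z + D) i + D i := by rw [Pi.add_apply, add_assoc, vadd, add_zero]
          rw [this]
          refine Submodule.add_mem _ (Submodule.subset_span (Set.mem_range_self i)) ?_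
          by_cases hi : i = j
          · rw [hi, hD, Pi.single_eq_same]
            rw [hD] at hcD
            exact (mem_span_iff _ u).2 ⟨c, hcD⟩
          · rw [hD, Pi.single_eq_of_ne hi]
            exact Submodule.zero_mem _
      rw [h4, pr_add_right, sg_add, hprD, sg_one]
      ring
    rw [e3, Finset.sum_neg_distrib] at e1
    linarith
  by_cases hd : ∀ c ∈ WJ J, dt c X₁ ≠ 0 → d ≤ hammingNorm (dt c X₁)
  swap
  · push Not at hd
    obtain ⟨c, hc, hne, hlt⟩ := hd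
    refine le_of_eq (Finset.sum_eq_zero fun Z hZ => ?_).symm
    rw [bb_dist (dt c X₁) ((mem_span_iff Z _).2 ⟨c, mem_HH.1 hZ c hc⟩)
      (hK.dist _ hne hlt), zero_mul]
  obtain ⟨K₁, hK₁d⟩ : ∃ K₁ : Submodule (ZMod 2) (Fin ℓ → ZMod 2),
    K₁ = WJ J ⊓ LinearMap.ker (dL X₁) := ⟨_, rfl⟩
  have hK₁ : ∀ c, c ∈ K₁ ↔ c ∈ WJ J ∧ dt c X₁ = 0 := by
    intro c
    rw [hK₁d, Submodule.mem_inf, LinearMap.mem_ker]
    rfl
  obtain ⟨Cy, hCyd⟩ : ∃ Cy : Submodule (ZMod 2) (Fin ℓ → ZMod 2),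
    Cy = Submodule.span (ZMod 2) (Set.range fun k : Fin n => fun i => Y i k) := ⟨_, rfl⟩
  have hCy : ∀ L' : Submodule (ZMod 2) (Fin ℓ → ZMod 2), (∀ k, (fun i => Y i k) ∈ L') →
      Cy ≤ L' := by
    intro L' h
    rw [hCyd, Submodule.span_le]
    rintro _ ⟨k, rfl⟩
    exact h k
  have hcol : ∀ k, (fun i => Y i k) ∈ Cy := by
    intro k
    rw [hCyd]
    exact Submodule.subset_span (Set.mem_range_self k)
  obtain ⟨B, hB⟩ : ∃ B : ℝ, B = R ^ (fr K₁ + fr (WJ J ⊔ Cy) - fr (WJ J)) *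
    (2 ^ n) ^ (ℓ - fr (WJ J ⊔ Cy)) := ⟨_, rfl⟩
  have hB0 : 0 ≤ B := by
    rw [hB]
    positivity
  -- the sum over the subspaces
  have hS : ∑ Z ∈ HH (WJ J) X₁, bb G R Z * sg (pr Y Z) =
      ∑ T : Submodule (ZMod 2) (Fin ℓ → ZMod 2), R ^ fr T * Mt G (WJ J) T X₁ Y := by
    unfold bb Mt
    simp_rw [Finset.sum_mul]
    rw [Finset.sum_comm]
    refine Finset.sum_congr rfl fun T _ => ?_
    rw [Finset.mul_sum]
    refine Finset.sum_congr rfl fun Z _ => ?_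
    split_ifs
    · ring
    · rw [zero_mul, mul_zero]
  rw [hS]
  -- the general term
  have hgen : ∀ T : Submodule (ZMod 2) (Fin ℓ → ZMod 2),
      -(2 * 2 ^ 2 ^ ℓ * (η * B)) ≤ R ^ fr T * Mt G (WJ J) T X₁ Y := by
    intro T
    by_cases hex : ∃ Z ∈ HH (WJ J) X₁, ∀ c ∈ T, dt c Z = 0
    · obtain ⟨Z₀, hZ₀, hZT⟩ := hex
      obtain ⟨XT, x1, x2, x3⟩ := exists_XT (mem_HH.1 hZ₀) hZT
      have hpr : pr Y XT = 0 := by
        unfold pr
        refine Finset.sum_eq_zero fun i _ => ?_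
        by_cases hi : i ∈ J
        · obtain ⟨c, hc, hci⟩ := x3 i
          rw [hci]
          exact hperp i hi c hc
        · rw [hY0 i hi, zero_dotProduct]
      exact (Mt_lower hK hP he he2 hnear x1 x2 hpr hCy hK₁ hd hB).1
    · have h0 : Mt G (WJ J) T X₁ Y = 0 := by
        unfold Mt
        refine Finset.sum_eq_zero fun Z hZ => ?_
        rw [if_neg fun h => hex ⟨Z, hZ, h⟩]
      rw [h0, mul_zero]
      have := hP.η0
      have h1 : 0 ≤ 2 * 2 ^ 2 ^ ℓ * (η * B) := by positivity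
      linarith
  -- the main term
  obtain ⟨T₀, hT₀⟩ : ∃ T₀, T₀ = K₁ ⊔ Cy := ⟨_, rfl⟩
  have hmain : 1 / 2 * B - 2 * 2 ^ 2 ^ ℓ * (η * B) ≤ R ^ fr T₀ * Mt G (WJ J) T₀ X₁ Y := by
    obtain ⟨XT, hXT⟩ : ∃ XT : Fin ℓ → Wd n, XT = fun i => if i ∈ J then 0 else X₁ i := ⟨_, rfl⟩
    have x1 : ∀ c ∈ WJ J, dt c XT = dt c X₁ := by
      intro c hc
      refine dt_WJ (fun i hi => ?_) hc
      rw [hXT]
      simp [hi]
    have hcoef : ∀ c ∈ Cy, ∀ i, i ∉ J → c i = 0 := by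
      intro c hc i hi
      have h3 : Cy ≤ LinearMap.ker (LinearMap.proj (R := ZMod 2) (φ := fun _ : Fin ℓ => ZMod 2)
          i) := by
        refine hCy _ fun k => ?_
        rw [LinearMap.mem_ker, LinearMap.proj_apply, hY0 i hi]
        rfl
      exact h3 hc
    have x2 : ∀ c ∈ T₀, dt c XT = 0 := by
      intro c hc
      rw [hT₀] at hc
      obtain ⟨a, ha, b, hb, rfl⟩ := Submodule.mem_sup.1 hc
      have ha' := (hK₁ a).1 ha
      rw [dt_add_left, x1 a ha'.1, ha'.2, zero_add]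
      unfold dt
      refine Finset.sum_eq_zero fun i _ => ?_
      by_cases hi : i ∈ J
      · rw [hXT]
        simp [hi]
      · rw [hcoef b hb i hi, zero_smul]
    have hpr : pr Y XT = 0 := by
      unfold pr
      refine Finset.sum_eq_zero fun i _ => ?_
      by_cases hi : i ∈ J
      · rw [hXT]
        simp [hi]
      · rw [hY0 i hi, zero_dotProduct]
    have hW : WJ J ⊔ T₀ = WJ J ⊔ Cy := by
      rw [hT₀, ← sup_assoc]
      congr 1
      exact sup_eq_left.2 fun c hc => ((hK₁ c).1 hc).1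
    refine (Mt_lower hK hP he he2 hnear x1 x2 hpr hCy hK₁ hd hB).2 ?_ hW ?_
    · rw [hT₀]
      exact le_sup_left
    · intro k
      rw [hW]
      exact Submodule.mem_sup_right (hcol k)
  rw [← Finset.add_sum_erase _ _ (Finset.mem_univ T₀)]
  have hcardT : (((univ : Finset (Submodule (ZMod 2) (Fin ℓ → ZMod 2))).erase T₀).card : ℝ) + 1 ≤
      2 ^ 2 ^ ℓ := by
    have h3 : ((univ : Finset (Submodule (ZMod 2) (Fin ℓ → ZMod 2))).erase T₀).card + 1 =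
        Fintype.card (Submodule (ZMod 2) (Fin ℓ → ZMod 2)) := by
      rw [Finset.card_erase_add_one (Finset.mem_univ _), Finset.card_univ]
    have h4 := card_sub (ℓ := ℓ)
    rw [← h3] at h4
    exact_mod_cast h4
  have hrest : -((((univ : Finset (Submodule (ZMod 2) (Fin ℓ → ZMod 2))).erase T₀).card : ℝ) *
      (2 * 2 ^ 2 ^ ℓ * (η * B))) ≤ ∑ T ∈ (univ : Finset (Submodule (ZMod 2)
        (Fin ℓ → ZMod 2))).erase T₀, R ^ fr T * Mt G (WJ J) T X₁ Y := by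
    rw [← nsmul_eq_mul, ← Finset.sum_const, ← Finset.sum_neg_distrib]
    exact Finset.sum_le_sum fun T _ => hgen T
  have hc4 := hP.c4
  have hη0 := hP.η0
  have h5 : (((univ : Finset (Submodule (ZMod 2) (Fin ℓ → ZMod 2))).erase T₀).card + 1) *
      (2 * 2 ^ 2 ^ ℓ * (η * B)) ≤ 1 / 2 * B := by
    calc (((univ : Finset (Submodule (ZMod 2) (Fin ℓ → ZMod 2))).erase T₀).card + 1) *
          (2 * 2 ^ 2 ^ ℓ * (η * B)) ≤ 2 ^ 2 ^ ℓ * (2 * 2 ^ 2 ^ ℓ * (η * B)) :=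
          mul_le_mul_of_nonneg_right hcardT (by positivity)
      _ = (2 * (2 ^ 2 ^ ℓ * 2 ^ 2 ^ ℓ) * η) * B := by ring
      _ ≤ 1 / 2 * B := by
          refine mul_le_mul_of_nonneg_right ?_ hB0
          have h6 : 0 ≤ 2 ^ 2 ^ ℓ * 2 ^ 2 ^ ℓ * η := by positivity
          linarith
  linarith

end Pool.Agent.helper857_lin
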