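import Mathlib
import Pool.Agent.helper857_lin.Four

/-!
helper857_lin (MP_0430e4_lc): feasible solutions of large value, and the validity of the hierarchy.
-/

set_option autoImplicit false
set_option linter.unusedSectionVars false

namespace Pool.Agent.helper857_lin

open Finset

variable {ℓ n : ℕ} {G : Wd n → ℝ} {d : ℕ} {Λ V ε R η e : ℝ}

lemma fr_WJ (S : Finset (Fin ℓ)) : ℓ - fr (WJ S) = S.card := by
  classical
  have h1 := card_HH (n := 1) (WJ S) 0
  have h2 : HH (WJ S) (0 : Fin ℓ → Wd 1) =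
      Fintype.piFinset fun i => if i ∈ S then (univ : Finset (Wd 1)) else {0} := by
    ext X
    rw [mem_HH_WJ, Fintype.mem_piFinset]
    constructor
    · intro h i
      by_cases hi : i ∈ S
      · rw [if_pos hi]
        exact Finset.mem_univ _
      · rw [if_neg hi, Finset.mem_singleton]
        exact h i hi
    · intro h i hi
      have := h i
      rwa [if_neg hi, Finset.mem_singleton] at this
  have h3 : (HH (WJ S) (0 : Fin ℓ → Wd 1)).card = 2 ^ S.card := by
    rw [h2, Fintype.card_piFinset]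
    have e1 : ∀ i : Fin ℓ, (if i ∈ S then (univ : Finset (Wd 1)) else {0}).card =
        if i ∈ S then 2 else 1 := by
      intro i
      split_ifs
      · rw [Finset.card_univ, Fintype.card_fun, ZMod.card, Fintype.card_fin, pow_one]
      · exact Finset.card_singleton _
    rw [Finset.prod_congr rfl fun i _ => e1 i, Finset.prod_ite_mem, Finset.univ_inter,
      Finset.prod_const]
  rw [h3] at h1
  push_cast at h1
  rw [pow_one] at h1
  exact (pow_right_injective₀ (by norm_num : (0 : ℝ) < 2) (by norm_num) h1).symm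

lemma HH_sum (J : Finset (Fin ℓ)) (X₁ : Fin ℓ → Wd n) (f : (Fin ℓ → Wd n) → ℝ) :
    (∑ Z : Fin ℓ → Wd n, open Classical in if ∀ i, i ∉ J → Z i = X₁ i then f Z else 0) =
      ∑ Z ∈ HH (WJ J) X₁, f Z := by
  classical
  rw [← Finset.sum_filter]
  refine Finset.sum_congr ?_ fun _ _ => rfl
  ext Z
  rw [Finset.mem_filter, mem_HH_WJ]
  simp

/-- **Feasible solutions from kernels.** -/
theorem feas_of_ker (hK : Ker n d G Λ V ε) (hP : Par n ℓ Λ V ε R η) (he : 0 ≤ e)
    (he2 : 2 ^ 2 ^ ℓ * e ≤ 1 / 2) (hnear : ∀ v : Wd n, d ≤ hammingNorm v → |G v - 1| ≤ e) :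
    ∃ a : (Fin ℓ → Wd n) → ℝ, Feas n d ℓ a ∧ ∀ S : Finset (Fin ℓ),
      (2 ^ n / R) ^ S.card / (2 * 2 ^ 2 ^ ℓ) ≤ ∑ X : Fin ℓ → Wd n, open Classical in
        if ∀ i, i ∉ S → X i = 0 then a X else 0 := by
  classical
  have hR := hP.R1
  have hR0 : 0 < R := by linarith
  obtain ⟨b0, hb0⟩ : ∃ b0, b0 = bb G R (0 : Fin ℓ → Wd n) := ⟨_, rfl⟩
  have hb1 : b0 = ∑ T : Submodule (ZMod 2) (Fin ℓ → ZMod 2), R ^ fr T := by
    rw [hb0, bb_at_zero hK.G0]
  have hb2 : 0 < b0 := by
    rw [hb1]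
    exact Finset.sum_pos (fun T _ => by positivity) ⟨⊥, Finset.mem_univ _⟩
  have hb3 : b0 ≤ 2 ^ 2 ^ ℓ * R ^ ℓ := by
    rw [hb1]
    calc ∑ T : Submodule (ZMod 2) (Fin ℓ → ZMod 2), R ^ fr T
        ≤ ∑ _T : Submodule (ZMod 2) (Fin ℓ → ZMod 2), R ^ ℓ :=
          Finset.sum_le_sum fun T _ => pow_le_pow_right₀ hR (fr_le T)
      _ = (Fintype.card (Submodule (ZMod 2) (Fin ℓ → ZMod 2)) : ℝ) * R ^ ℓ := by
          rw [Finset.sum_const, nsmul_eq_mul, Finset.card_univ]
      _ ≤ 2 ^ 2 ^ ℓ * R ^ ℓ := by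
          refine mul_le_mul_of_nonneg_right ?_ (by positivity)
          exact_mod_cast card_sub (ℓ := ℓ)
  refine ⟨fun X => bb G R X / b0, ⟨fun X => ?_, ?_, fun X X' h => ?_, fun X u hu hne hlt => ?_,
    fun J X Y => ?_⟩, fun S => ?_⟩
  · exact div_nonneg (bb_nonneg hK.nonneg hR0.le X) hb2.le
  · change bb G R (0 : Fin ℓ → Wd n) / b0 = 1
    rw [← hb0, div_self hb2.ne']
  · rw [bb_span hK.nonneg R X X' h]
  · rw [bb_dist u hu (hK.dist u hne hlt), zero_div]
  · rw [HH_sum J X fun Z => bb G R Z / b0 * sg (∑ j ∈ J, Y j ⬝ᵥ Z j)]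
    have h1 := bb_fourier hK hP he he2 hnear J X (fun i => if i ∈ J then Y i else 0)
      (fun i hi => if_neg hi)
    have h2 : ∑ Z ∈ HH (WJ J) X, bb G R Z / b0 * sg (∑ j ∈ J, Y j ⬝ᵥ Z j) =
        (∑ Z ∈ HH (WJ J) X, bb G R Z * sg (pr (fun i => if i ∈ J then Y i else 0) Z)) / b0 := by
      rw [Finset.sum_div]
      refine Finset.sum_congr rfl fun Z _ => ?_
      have h3 : pr (fun i => if i ∈ J then Y i else 0) Z = ∑ j ∈ J, Y j ⬝ᵥ Z j := by
        unfold pr
        rw [← Finset.sum_subset (Finset.subset_univ J)]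
        · refine Finset.sum_congr rfl fun j hj => ?_
          beta_reduce
          rw [if_pos hj]
        · intro i _ hi
          beta_reduce
          rw [if_neg hi, zero_dotProduct]
      rw [h3]
      ring
    rw [h2]
    exact div_nonneg h1 hb2.le
  · refine le_trans ?_ (le_of_eq (HH_sum S 0 fun Z => bb G R Z / b0).symm)
    obtain ⟨T, hT⟩ : ∃ T, T = WJ S := ⟨_, rfl⟩
    rw [← hT]
    have hfr : ℓ - fr T = S.card := by
      rw [hT]
      exact fr_WJ S
    have hfr2 := fr_le T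
    -- the part given by `T`
    have h0 : ∀ c : Fin ℓ → ZMod 2, dt c (0 : Fin ℓ → Wd n) = 0 := by
      intro c
      unfold dt
      simp
    obtain ⟨S₁, hS₁⟩ : ∃ S₁, S₁ = (rep T).filter fun c => c ∈ T ⊔ T := ⟨_, rfl⟩
    obtain ⟨S₂, hS₂⟩ : ∃ S₂, S₂ = (rep T).filter fun c => ¬ c ∈ T ⊔ T := ⟨_, rfl⟩
    have hdis : Disjoint S₁ S₂ := by
      rw [hS₁, hS₂]
      exact Finset.disjoint_filter_filter_not _ _ _
    have hun : S₁ ∪ S₂ = rep T := by
      rw [hS₁, hS₂]
      exact Finset.filter_union_filter_not_eq _ _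
    have hin : ∀ c ∈ S₁, c ∈ T ⊔ T := by
      intro c hc
      rw [hS₁] at hc
      exact (Finset.mem_filter.1 hc).2
    have hM := Mt_eq (G := G) (W₁ := T) (T := T) (X₁ := 0) (XT := 0) (Y := 0)
      (fun c _ => rfl) (fun c _ => h0 c) S₁ S₂ hdis hun hin
    have hP1 : ∏ c ∈ S₁, G (dt c (0 : Fin ℓ → Wd n)) = 1 := by
      rw [Finset.prod_congr rfl fun c _ => by rw [h0 c, hK.G0], Finset.prod_const_one]
    rw [hP1, one_mul, sup_idem] at hM
    have hQ1 : (1 : ℝ) ≤ 2 ^ n := hR.trans hP.RQ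
    have hpr0 : ∀ Z : Fin ℓ → Wd n, pr 0 Z = 0 := by
      intro Z
      unfold pr
      exact Finset.sum_eq_zero fun i _ => by rw [Pi.zero_apply, zero_dotProduct]
    have hcard : ((S₂.powerset.erase ∅).card : ℝ) ≤ 2 ^ 2 ^ ℓ := by
      have h3 : (S₂.powerset.erase ∅).card ≤ 2 ^ 2 ^ ℓ := by
        refine (Finset.card_le_card (Finset.erase_subset _ _)).trans ?_
        rw [Finset.card_powerset]
        refine Nat.pow_le_pow_right (by norm_num) ?_
        refine (Finset.card_le_univ S₂).trans (le_of_eq ?_)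
        rw [Fintype.card_fun, ZMod.card, Fintype.card_fin]
      exact_mod_cast h3
    have hV0 : 0 ≤ V := (Finset.sum_nonneg fun v _ => abs_nonneg _).trans hK.vol
    have hη0 := hP.η0
    have hsplit : ∑ A ∈ S₂.powerset, Ph G T 0 0 A = Ph G T 0 0 ∅ +
        ∑ A ∈ S₂.powerset.erase ∅, Ph G T (0 : Fin ℓ → Wd n) 0 A :=
      (Finset.add_sum_erase _ _ (Finset.empty_mem_powerset S₂)).symm
    have hphe : Ph G T (0 : Fin ℓ → Wd n) 0 ∅ = (2 ^ n) ^ (ℓ - fr T) := by
      unfold Ph
      have e1 : ∀ X ∈ HH T (0 : Fin ℓ → Wd n), sg (pr 0 X) *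
          ∏ c ∈ (∅ : Finset (Fin ℓ → ZMod 2)), (G (dt c X) - 1) = 1 := by
        intro X hX
        rw [Finset.prod_empty, mul_one, hpr0, sg_zero]
      rw [Finset.sum_congr rfl e1, Finset.sum_const, nsmul_eq_mul, mul_one, card_HH]
    have herr : |∑ A ∈ S₂.powerset.erase ∅, Ph G T (0 : Fin ℓ → Wd n) 0 A| ≤
        2 ^ 2 ^ ℓ * (η * (2 ^ n) ^ (ℓ - fr T)) := by
      calc |∑ A ∈ S₂.powerset.erase ∅, Ph G T (0 : Fin ℓ → Wd n) 0 A|
          ≤ ∑ A ∈ S₂.powerset.erase ∅, |Ph G T (0 : Fin ℓ → Wd n) 0 A| :=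
            Finset.abs_sum_le_sum_abs _ _
        _ ≤ ∑ _A ∈ S₂.powerset.erase ∅, η * (2 ^ n) ^ (ℓ - fr T) := by
            refine Finset.sum_le_sum fun A hA => ?_
            obtain ⟨hA1, hA2⟩ := Finset.mem_erase.1 hA
            have hA3 := Finset.mem_powerset.1 hA2
            obtain ⟨c, hc⟩ := Finset.nonempty_iff_ne_empty.2 hA1
            have hcT : c ∉ T := by
              have := hA3 hc
              rw [hS₂, sup_idem] at this
              exact (Finset.mem_filter.1 this).2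
            have f1 : fr T + 1 ≤ fr (sp T A) := by
              refine Submodule.finrank_lt_finrank_of_lt ?_
              refine lt_of_le_of_ne (le_sp T A) fun h => hcT ?_
              rw [h]
              exact mem_sp T hc
            have f2 := fr_le (sp T A)
            have h3 := abs_bound (E := fun v => |G v - 1|) (fun v => abs_nonneg _) hK.le hK.vol A
              T (0 : Fin ℓ → Wd n)
            have h4 : |Ph G T (0 : Fin ℓ → Wd n) 0 A| ≤
                ∑ X ∈ HH T (0 : Fin ℓ → Wd n), ∏ c ∈ A, |G (dt c X) - 1| := by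
              unfold Ph
              refine (Finset.abs_sum_le_sum_abs _ _).trans (le_of_eq ?_)
              refine Finset.sum_congr rfl fun X _ => ?_
              rw [abs_mul, sg_abs, one_mul, Finset.abs_prod]
            refine h4.trans (h3.trans ?_)
            obtain ⟨r, hr⟩ : ∃ r, r = fr (sp T A) - fr T := ⟨_, rfl⟩
            have hr1 : r ≠ 0 := by omega
            have e5 : ℓ - fr T = r + (ℓ - fr (sp T A)) := by omega
            rw [← hr, e5, pow_add]
            have h6 : V ^ r ≤ η * (2 ^ n) ^ r := by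
              calc V ^ r ≤ (η * 2 ^ n) ^ r := pow_le_pow_left₀ hV0 hP.c5 r
                _ = η ^ r * (2 ^ n) ^ r := mul_pow _ _ _
                _ ≤ η * (2 ^ n) ^ r := by
                    refine mul_le_mul_of_nonneg_right ?_ (by positivity)
                    exact pow_le_of_le_one hη0 hP.η1 hr1
            calc V ^ r * (2 ^ n) ^ (ℓ - fr (sp T A)) ≤
                (η * (2 ^ n) ^ r) * (2 ^ n) ^ (ℓ - fr (sp T A)) :=
                  mul_le_mul_of_nonneg_right h6 (by positivity)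
              _ = _ := by ring
        _ = ((S₂.powerset.erase ∅).card : ℝ) * (η * (2 ^ n) ^ (ℓ - fr T)) := by
            rw [Finset.sum_const, nsmul_eq_mul]
        _ ≤ 2 ^ 2 ^ ℓ * (η * (2 ^ n) ^ (ℓ - fr T)) :=
            mul_le_mul_of_nonneg_right hcard (by positivity)
    have hMlow : 1 / 2 * (2 ^ n) ^ (ℓ - fr T) ≤ Mt G T T (0 : Fin ℓ → Wd n) 0 := by
      rw [hM, hsplit, hphe]
      have h3 := (abs_le.1 herr).1
      have hc4 := hP.c4
      have h5 : (1 : ℝ) ≤ 2 ^ 2 ^ ℓ := one_le_pow₀ (by norm_num)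
      have h6 : 2 ^ 2 ^ ℓ * η ≤ 1 / 2 := by
        have h7 : (2 : ℝ) ^ 2 ^ ℓ * η ≤ 4 * (2 ^ 2 ^ ℓ * 2 ^ 2 ^ ℓ) * η := by
          refine mul_le_mul_of_nonneg_right ?_ hη0
          nlinarith
        linarith
      have h8 : 2 ^ 2 ^ ℓ * (η * (2 ^ n) ^ (ℓ - fr T)) ≤ 1 / 2 * (2 ^ n) ^ (ℓ - fr T) := by
        rw [← mul_assoc]
        exact mul_le_mul_of_nonneg_right h6 (by positivity)
      linarith
    have hbig : R ^ fr T * Mt G T T (0 : Fin ℓ → Wd n) 0 ≤ ∑ Z ∈ HH T (0 : Fin ℓ → Wd n),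
        bb G R Z := by
      unfold Mt
      rw [Finset.mul_sum]
      refine Finset.sum_le_sum fun Z _ => ?_
      unfold bb
      have h3 := Finset.single_le_sum (f := fun T : Submodule (ZMod 2) (Fin ℓ → ZMod 2) =>
        if ∀ c ∈ T, dt c Z = 0 then R ^ fr T * FT G T Z else 0) (fun T' _ => by
          beta_reduce
          split_ifs
          · exact mul_nonneg (pow_nonneg hR0.le _) (FT_nonneg hK.nonneg _ _)
          · exact le_rfl) (Finset.mem_univ T)
      refine le_trans (le_of_eq ?_) h3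
      beta_reduce
      split_ifs
      · rw [hpr0, sg_zero, mul_one]
      · rw [mul_zero]
    rw [← Finset.sum_div, le_div_iff₀ hb2]
    refine le_trans ?_ ((mul_le_mul_of_nonneg_left hMlow (by positivity :
      (0 : ℝ) ≤ R ^ fr T)).trans hbig)
    rw [hfr]
    calc (2 ^ n / R) ^ S.card / (2 * 2 ^ 2 ^ ℓ) * b0
        ≤ (2 ^ n / R) ^ S.card / (2 * 2 ^ 2 ^ ℓ) * (2 ^ 2 ^ ℓ * R ^ ℓ) :=
          mul_le_mul_of_nonneg_left hb3 (by positivity)
      _ = R ^ fr T * (1 / 2 * (2 ^ n) ^ S.card) := by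
          have e6 : ℓ = fr T + S.card := by omega
          have e7 : R ^ ℓ = R ^ fr T * R ^ S.card := by
            rw [← pow_add, ← e6]
          rw [e7, div_pow]
          field_simp

/-- **The hierarchy is valid**: the indicator of a linear code is a feasible solution. -/
theorem valid (d : ℕ) (C : Submodule (ZMod 2) (Fin n → ZMod 2))
    (hC : ∀ u ∈ C, u ≠ 0 → d ≤ hammingNorm u) :
    Feas n d ℓ (fun X => open Classical in if ∀ i, X i ∈ C then 1 else 0) := by
  classical
  have hsp : ∀ X : Fin ℓ → Wd n, (∀ i, X i ∈ C) ↔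
      Submodule.span (ZMod 2) (Set.range X) ≤ C := by
    intro X
    rw [Submodule.span_le]
    constructor
    · rintro h _ ⟨i, rfl⟩
      exact h i
    · intro h i
      exact h (Set.mem_range_self i)
  refine ⟨fun X => ?_, ?_, fun X X' h => ?_, fun X u hu hne hlt => ?_, fun J X Y => ?_⟩
  · split_ifs <;> norm_num
  · exact if_pos fun i => C.zero_mem
  · have : (∀ i, X i ∈ C) ↔ ∀ i, X' i ∈ C := by rw [hsp, hsp, h]
    by_cases h1 : ∀ i, X i ∈ C
    · rw [if_pos h1, if_pos (this.1 h1)]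
    · rw [if_neg h1, if_neg fun h2 => h1 (this.2 h2)]
  · rw [if_neg]
    intro h
    have := hC u ((hsp X).1 h hu) hne
    omega
  · rw [HH_sum J X fun Z => (if ∀ i, Z i ∈ C then (1 : ℝ) else 0) * sg (∑ j ∈ J, Y j ⬝ᵥ Z j)]
    obtain ⟨Y', hY'⟩ : ∃ Y' : Fin ℓ → Wd n, Y' = fun i => if i ∈ J then Y i else 0 := ⟨_, rfl⟩
    have h3 : ∀ Z : Fin ℓ → Wd n, ∑ j ∈ J, Y j ⬝ᵥ Z j = pr Y' Z := by
      intro Z
      unfold pr
      rw [← Finset.sum_subset (Finset.subset_univ J)]
      · refine Finset.sum_congr rfl fun j hj => ?_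
        rw [hY']
        simp only
        rw [if_pos hj]
      · intro i _ hi
        rw [hY']
        simp only
        rw [if_neg hi, zero_dotProduct]
    simp_rw [h3]
    by_cases hY : ∀ j ∈ J, ∀ u ∈ C, Y j ⬝ᵥ u = 0
    · refine Finset.sum_nonneg fun Z _ => ?_
      split_ifs with h4
      · have : pr Y' Z = 0 := by
          rw [← h3]
          exact Finset.sum_eq_zero fun j hj => hY j hj _ (h4 j)
        rw [this, sg_zero, one_mul]
        norm_num
      · rw [zero_mul]
    · push Not at hY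
      obtain ⟨j, hj, u, hu, hne⟩ := hY
      obtain ⟨D, hD⟩ : ∃ D : Fin ℓ → Wd n, D = Pi.single j u := ⟨_, rfl⟩
      have hD0 : ∀ i, i ∉ J → D i = 0 := by
        intro i hi
        rw [hD, Pi.single_eq_of_ne]
        rintro rfl
        exact hi hj
      have hDC : ∀ i, D i ∈ C := by
        intro i
        by_cases hi : i = j
        · rw [hD, hi, Pi.single_eq_same]
          exact hu
        · rw [hD, Pi.single_eq_of_ne hi]
          exact C.zero_mem
      have hprD : pr Y' D = 1 := by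
        have h5 : pr Y' D = Y j ⬝ᵥ u := by
          rw [← h3, Finset.sum_eq_single_of_mem j hj]
          · rw [hD, Pi.single_eq_same]
          · intro i _ hi
            rw [hD, Pi.single_eq_of_ne hi, dotProduct_zero]
        rw [h5]
        rcases zcase (Y j ⬝ᵥ u) with h | h
        · exact absurd h hne
        · exact h
      have e1 := HH_shift (L := WJ J) X D
        (fun Z => (if ∀ i, Z i ∈ C then (1 : ℝ) else 0) * sg (pr Y' Z))
      have e2 : HH (WJ J) (X + D) = HH (WJ J) X := HH_eq fun c hc => dt_WJ (fun i hi => by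
        rw [Pi.add_apply, hD0 i hi, add_zero]) hc
      rw [e2] at e1
      have e3 : ∑ Z ∈ HH (WJ J) X, (if ∀ i, (Z + D) i ∈ C then (1 : ℝ) else 0) *
          sg (pr Y' (Z + D)) = ∑ Z ∈ HH (WJ J) X,
            -((if ∀ i, Z i ∈ C then (1 : ℝ) else 0) * sg (pr Y' Z)) := by
        refine Finset.sum_congr rfl fun Z _ => ?_
        have h6 : (∀ i, (Z + D) i ∈ C) ↔ ∀ i, Z i ∈ C := by
          constructor
          · intro h i
            have := C.add_mem (h i) (hDC i)
            rwa [Pi.add_apply, add_assoc, vadd, add_zero] at this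
          · intro h i
            exact C.add_mem (h i) (hDC i)
        rw [pr_add_right, sg_add, hprD, sg_one]
        by_cases h7 : ∀ i, Z i ∈ C
        · rw [if_pos h7, if_pos (h6.2 h7)]
          ring
        · rw [if_neg h7, if_neg fun h8 => h7 (h6.1 h8)]
          ring
      rw [e3, Finset.sum_neg_distrib] at e1
      linarith

end Pool.Agent.helper857_lin
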