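import Mathlib
import Pool.Agent.helper857_lin.Val

/-!
helper857_lin (MP_0430e4_lc): intersections of Hamming balls.
-/

set_option autoImplicit false
set_option linter.unusedSectionVars false

namespace Pool.Agent.helper857_lin

open Finset

variable {n : ℕ}

/-- the sum of a product of functions of the coordinates -/
lemma sum_prod (f : Fin n → ZMod 2 → ℝ) :
    ∑ v : Wd n, ∏ i, f i (v i) = ∏ i, (f i 0 + f i 1) := by
  have h := Finset.prod_univ_sum (fun _ : Fin n => (univ : Finset (ZMod 2))) f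
  rw [Fintype.piFinset_univ] at h
  rw [← h]
  refine Finset.prod_congr rfl fun i _ => ?_
  exact Fin.sum_univ_two (f i)

/-- the weight of one letter -/
noncomputable def lw (x : ℝ) (b : ZMod 2) : ℝ := if b = 0 then 1 else x

lemma lw_zero (x : ℝ) : lw x 0 = 1 := if_pos rfl

lemma lw_one (x : ℝ) : lw x 1 = x := if_neg (by decide)

lemma lw_prod (x : ℝ) (v : Wd n) : ∏ i, lw x (v i) = x ^ hammingNorm v := by
  unfold lw hammingNorm
  rw [Finset.prod_ite, Finset.prod_const_one, one_mul, Finset.prod_const]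

lemma sum_pow (x : ℝ) : ∑ v : Wd n, x ^ hammingNorm v = (1 + x) ^ n := by
  simp_rw [← lw_prod]
  rw [sum_prod (fun _ b => lw x b)]
  simp only [lw_zero, lw_one]
  rw [Finset.prod_const, Finset.card_univ, Fintype.card_fin]

/-- two balls -/
lemma sum_two (x : ℝ) (u : Wd n) :
    ∑ v : Wd n, x ^ hammingNorm v * x ^ hammingNorm (v + u) =
      (1 + x ^ 2) ^ n * (2 * x / (1 + x ^ 2)) ^ hammingNorm u := by
  simp_rw [← lw_prod, ← Finset.prod_mul_distrib, Pi.add_apply]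
  rw [sum_prod (fun i b => lw x b * lw x (b + u i))]
  have hx2 : (0 : ℝ) < 1 + x ^ 2 := by positivity
  have h1 : ∀ i, lw x 0 * lw x (0 + u i) + lw x 1 * lw x (1 + u i) =
      (1 + x ^ 2) * lw (2 * x / (1 + x ^ 2)) (u i) := by
    intro i
    rcases zcase (u i) with h | h
    · rw [h, add_zero, add_zero, lw_zero, lw_one, lw_zero]
      ring
    · rw [h, zadd, zero_add, lw_zero, lw_one, lw_one]
      field_simp
      ring
  rw [Finset.prod_congr rfl fun i _ => h1 i, Finset.prod_mul_distrib, Finset.prod_const,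
    Finset.card_univ, Fintype.card_fin]

/-- a ball and a weight -/
lemma sum_shift (x y : ℝ) (hx0 : 0 ≤ x) (hx : x ≤ 1) (hy0 : 0 ≤ y) (hy : y ≤ 1) (w : Wd n) :
    ∑ v : Wd n, x ^ hammingNorm v * y ^ hammingNorm (v + w) ≤ (1 + x * y) ^ n := by
  simp_rw [← lw_prod, ← Finset.prod_mul_distrib, Pi.add_apply]
  rw [sum_prod (fun i b => lw x b * lw y (b + w i))]
  have h1 : ∀ i ∈ (univ : Finset (Fin n)), lw x 0 * lw y (0 + w i) + lw x 1 * lw y (1 + w i) ≤
      1 + x * y := by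
    intro i _
    rcases zcase (w i) with h | h
    · rw [h, add_zero, add_zero, lw_zero, lw_one, lw_zero, lw_one]
      linarith
    · rw [h, zadd, zero_add, lw_zero, lw_one, lw_one, lw_zero]
      nlinarith
  refine (Finset.prod_le_prod (fun i _ => ?_) h1).trans (le_of_eq ?_)
  · rcases zcase (w i) with h | h
    · rw [h, add_zero, add_zero, lw_zero, lw_one, lw_zero, lw_one]
      positivity
    · rw [h, zadd, zero_add, lw_zero, lw_one, lw_one, lw_zero]
      positivity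
  · rw [Finset.prod_const, Finset.card_univ, Fintype.card_fin]

/-- the indicator of a ball -/
noncomputable def ball (M : ℕ) (v : Wd n) : ℝ := if hammingNorm v ≤ M then 1 else 0

lemma ball_nonneg (M : ℕ) (v : Wd n) : 0 ≤ ball M v := by
  unfold ball
  split_ifs <;> norm_num

lemma ball_le {x : ℝ} (hx0 : 0 < x) (hx : x ≤ 1) (M : ℕ) (v : Wd n) :
    ball M v ≤ (x ^ M)⁻¹ * x ^ hammingNorm v := by
  unfold ball
  split_ifs with h
  · rw [← div_eq_inv_mul, le_div_iff₀ (by positivity), one_mul]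
    exact pow_le_pow_of_le_one hx0.le hx h
  · positivity

/-- the volume bound -/
lemma ball_vol {x : ℝ} (hx0 : 0 < x) (hx : x ≤ 1) (M : ℕ) :
    ∑ v : Wd n, ball M v ≤ ((x ^ 2) ^ M)⁻¹ * (1 + x ^ 2) ^ n := by
  rw [← sum_pow, Finset.mul_sum]
  exact Finset.sum_le_sum fun v _ => ball_le (by positivity) (pow_le_one₀ hx0.le hx) M v

lemma ball_pair {x : ℝ} (hx0 : 0 < x) (hx : x ≤ 1) (M : ℕ) (u : Wd n) :
    ∑ v : Wd n, ball M v * ball M (v + u) ≤ ((x ^ 2) ^ M)⁻¹ * (1 + x ^ 2) ^ n *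
      (2 * x / (1 + x ^ 2)) ^ hammingNorm u := by
  rw [mul_assoc, ← sum_two x u, Finset.mul_sum]
  refine Finset.sum_le_sum fun v _ => ?_
  calc ball M v * ball M (v + u) ≤ ((x ^ M)⁻¹ * x ^ hammingNorm v) *
        ((x ^ M)⁻¹ * x ^ hammingNorm (v + u)) :=
        mul_le_mul (ball_le hx0 hx M v) (ball_le hx0 hx M _) (ball_nonneg _ _) (by positivity)
    _ = _ := by
        rw [← pow_mul, mul_comm 2 M, pow_mul, sq, mul_inv]
        ring

lemma ball_tri {x : ℝ} (hx0 : 0 < x) (hx : x ≤ 1) (M : ℕ) (w : Wd n) :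
    ∑ v : Wd n, ∑ v' : Wd n, ball M v * (ball M v' * ball M (v + v' + w)) ≤
      (((x ^ 2) ^ M)⁻¹ * (1 + x ^ 2) ^ n) ^ 2 *
        ((1 + x ^ 2 * (2 * x / (1 + x ^ 2))) / (1 + x ^ 2)) ^ n := by
  obtain ⟨V, hV⟩ : ∃ V : ℝ, V = ((x ^ 2) ^ M)⁻¹ * (1 + x ^ 2) ^ n := ⟨_, rfl⟩
  obtain ⟨y, hy⟩ : ∃ y : ℝ, y = 2 * x / (1 + x ^ 2) := ⟨_, rfl⟩
  have hx2 : (0 : ℝ) < 1 + x ^ 2 := by positivity
  have hy0 : 0 ≤ y := by
    rw [hy]
    positivity
  have hy1 : y ≤ 1 := by
    rw [hy, div_le_one hx2]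
    nlinarith [sq_nonneg (x - 1)]
  have hV0 : 0 ≤ V := by
    rw [hV]
    positivity
  rw [← hV, ← hy]
  have h1 : ∀ v : Wd n, ∑ v' : Wd n, ball M v * (ball M v' * ball M (v + v' + w)) ≤
      ball M v * (V * y ^ hammingNorm (v + w)) := by
    intro v
    rw [← Finset.mul_sum]
    refine mul_le_mul_of_nonneg_left ?_ (ball_nonneg _ _)
    have h2 := ball_pair hx0 hx M (v + w)
    rw [← hV, ← hy] at h2
    refine le_trans (le_of_eq ?_) h2
    refine Finset.sum_congr rfl fun v' _ => ?_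
    have : v + v' + w = v' + (v + w) := by ring
    rw [this]
  calc ∑ v : Wd n, ∑ v' : Wd n, ball M v * (ball M v' * ball M (v + v' + w))
      ≤ ∑ v : Wd n, ball M v * (V * y ^ hammingNorm (v + w)) :=
        Finset.sum_le_sum fun v _ => h1 v
    _ ≤ ∑ v : Wd n, V * ((x ^ 2) ^ M)⁻¹ * ((x ^ 2) ^ hammingNorm v * y ^ hammingNorm (v + w)) := by
        refine Finset.sum_le_sum fun v _ => ?_
        have h3 := ball_le (n := n) (x := x ^ 2) (by positivity) (pow_le_one₀ hx0.le hx) M v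
        calc ball M v * (V * y ^ hammingNorm (v + w)) ≤
            (((x ^ 2) ^ M)⁻¹ * (x ^ 2) ^ hammingNorm v) * (V * y ^ hammingNorm (v + w)) :=
              mul_le_mul_of_nonneg_right h3 (by positivity)
          _ = _ := by ring
    _ = V * ((x ^ 2) ^ M)⁻¹ * ∑ v : Wd n, (x ^ 2) ^ hammingNorm v * y ^ hammingNorm (v + w) := by
        rw [Finset.mul_sum]
    _ ≤ V * ((x ^ 2) ^ M)⁻¹ * (1 + x ^ 2 * y) ^ n :=
        mul_le_mul_of_nonneg_left (sum_shift _ _ (by positivity) (pow_le_one₀ hx0.le hx) hy0 hy1 w)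
          (by positivity)
    _ = V ^ 2 * ((1 + x ^ 2 * y) / (1 + x ^ 2)) ^ n := by
        rw [hV, div_pow]
        field_simp

/-- the properties of a kernel that is one outside a ball -/
lemma ker_of_ball {G : Wd n → ℝ} {d M : ℕ} {Λ V ε x : ℝ} (hx0 : 0 < x) (hx : x ≤ 1)
    (G0 : G 0 = 1) (hn : ∀ v, 0 ≤ G v) (hd : ∀ v, v ≠ 0 → hammingNorm v < d → G v = 0)
    (hle : ∀ v, |G v - 1| ≤ 1) (hM : ∀ v, M < hammingNorm v → G v = 1)
    (hΛ : ∀ y : Wd n, |∑ v, (G v - 1) * sg (y ⬝ᵥ v)| ≤ Λ)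
    (hV : V = ((x ^ 2) ^ M)⁻¹ * (1 + x ^ 2) ^ n)
    (hε1 : (2 * x / (1 + x ^ 2)) ^ d ≤ ε)
    (hε2 : ((1 + x ^ 2 * (2 * x / (1 + x ^ 2))) / (1 + x ^ 2)) ^ n ≤ ε) :
    Ker n d G Λ V ε := by
  have hb : ∀ v, |G v - 1| ≤ ball M v := by
    intro v
    unfold ball
    split_ifs with h
    · exact hle v
    · rw [hM v (not_le.1 h), sub_self, abs_zero]
  have hV0 : 0 ≤ V := by
    rw [hV]
    positivity
  have hx2 : (0 : ℝ) < 1 + x ^ 2 := by positivity
  have hy0 : 0 ≤ 2 * x / (1 + x ^ 2) := by positivity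
  have hy1 : 2 * x / (1 + x ^ 2) ≤ 1 := by
    rw [div_le_one hx2]
    nlinarith [sq_nonneg (x - 1)]
  refine ⟨G0, hn, hd, hle, hΛ, ?_, fun w => ?_, fun u hu => ?_⟩
  · rw [hV]
    exact (Finset.sum_le_sum fun v _ => hb v).trans (ball_vol hx0 hx M)
  · refine le_trans (Finset.sum_le_sum fun v _ => Finset.sum_le_sum fun v' _ => ?_)
      ((ball_tri hx0 hx M w).trans ?_)
    · exact mul_le_mul (hb v) (mul_le_mul (hb v') (hb _) (abs_nonneg _) (ball_nonneg _ _))
        (mul_nonneg (abs_nonneg _) (abs_nonneg _)) (ball_nonneg _ _)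
    · rw [← hV]
      exact mul_le_mul_of_nonneg_left hε2 (by positivity)
  · refine le_trans (Finset.sum_le_sum fun v _ => ?_) ((ball_pair hx0 hx M u).trans ?_)
    · exact mul_le_mul (hb v) (hb _) (abs_nonneg _) (ball_nonneg _ _)
    · rw [← hV]
      refine mul_le_mul_of_nonneg_left (le_trans ?_ hε1) hV0
      exact pow_le_pow_of_le_one hy0 hy1 hu

end Pool.Agent.helper857_lin
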