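import Mathlib
import Pool.Agent.Y570.LS.Solve

/-!
helper857_lin (MP_0430e4_lc): radial functions on a ball, with prescribed values on a smaller ball
and with exponentially small low and high frequencies.
-/

set_option autoImplicit false
set_option linter.unusedSectionVars false

namespace Pool.Agent.helper857_lin

open Finset Pool.Agent.TH41.BL Pool.Agent.Y570.LS

/-- the eigenvalue of the square of the normalised adjacency operator -/
noncomputable def tt (n j : ℕ) : ℝ := (((n : ℝ) - 2 * j) / n) ^ 2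

lemma tt_nonneg (n j : ℕ) : 0 ≤ tt n j := sq_nonneg _

lemma tt_le {n j : ℕ} (hn : 0 < n) (hj : j ≤ n) : tt n j ≤ 1 := by
  unfold tt
  have hn' : (0 : ℝ) < n := by exact_mod_cast hn
  have hj' : (j : ℝ) ≤ n := by exact_mod_cast hj
  rw [div_pow, div_le_one (by positivity)]
  have h0 : (0 : ℝ) ≤ j := Nat.cast_nonneg j
  nlinarith

/-- a function of the adjacency operator -/
noncomputable def op (n : ℕ) (p : Polynomial ℝ) (u : ℕ → ℝ) : ℕ → ℝ :=
  tr n fun j => p.eval (tt n j) * tr n u j

lemma op_add (n : ℕ) (p : Polynomial ℝ) (f h : ℕ → ℝ) :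
    op n p (fun w => f w + h w) = fun w => op n p f w + op n p h w := by
  funext w
  unfold op
  have e1 : (fun j => p.eval (tt n j) * tr n (fun w => f w + h w) j) =
      fun j => p.eval (tt n j) * tr n f j + p.eval (tt n j) * tr n h j := by
    funext j
    rw [tr_add, mul_add]
  rw [e1, tr_add]

lemma op_smul (n : ℕ) (p : Polynomial ℝ) (c : ℝ) (f : ℕ → ℝ) :
    op n p (fun w => c * f w) = fun w => c * op n p f w := by
  funext w
  unfold op
  have e1 : (fun j => p.eval (tt n j) * tr n (fun w => c * f w) j) =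
      fun j => c * (p.eval (tt n j) * tr n f j) := by
    funext j
    rw [tr_smul]
    ring
  rw [e1, tr_smul]

lemma op_congr {n : ℕ} {p : Polynomial ℝ} {f f' : ℕ → ℝ} (h1 : ∀ w ≤ n, f w = f' w) :
    op n p f = op n p f' := by
  unfold op
  have : tr n f = tr n f' := by
    funext j
    exact tr_congr h1 j
  rw [this]

lemma tr_op (n : ℕ) (p : Polynomial ℝ) (u : ℕ → ℝ) (j : ℕ) (hj : j ≤ n) :
    tr n (op n p u) j = p.eval (tt n j) * tr n u j := by
  unfold op
  rw [tr_tr n _ j hj]

/-- the square of the normalised adjacency operator -/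
noncomputable def sq2 (n : ℕ) (f : ℕ → ℝ) (w : ℕ) : ℝ := ((n : ℝ)⁻¹) ^ 2 * af n (af n f) w

lemma tr_sq2 (n : ℕ) (f : ℕ → ℝ) (j : ℕ) (hj : j ≤ n) :
    tr n (sq2 n f) j = tt n j * tr n f j := by
  have h1 : sq2 n f = fun w => ((n : ℝ)⁻¹) ^ 2 * af n (af n f) w := rfl
  rw [h1, tr_smul, tr_af n _ j hj, tr_af n _ j hj]
  unfold tt
  rw [div_eq_mul_inv]
  ring

lemma tr_iter (n : ℕ) (f : ℕ → ℝ) (i : ℕ) : ∀ j ≤ n, tr n ((sq2 n)^[i] f) j =
    tt n j ^ i * tr n f j := by
  induction i with
  | zero =>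
    intro j _
    simp
  | succ i ih =>
    intro j hj
    rw [Function.iterate_succ_apply', tr_sq2 n _ j hj, ih j hj]
    ring

lemma op_eq (n : ℕ) (p : Polynomial ℝ) (u : ℕ → ℝ) (w : ℕ) (hw : w ≤ n) :
    op n p u w = ∑ i ∈ range (p.natDegree + 1), p.coeff i * (sq2 n)^[i] u w := by
  have h1 : op n p u w = tr n (fun j => ∑ i ∈ range (p.natDegree + 1),
      p.coeff i * tr n ((sq2 n)^[i] u) j) w := by
    unfold op
    refine tr_congr (fun j hj => ?_) w
    rw [Polynomial.eval_eq_sum_range, Finset.sum_mul]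
    refine Finset.sum_congr rfl fun i _ => ?_
    rw [tr_iter n u i j hj, mul_assoc]
  rw [h1]
  have h2 : ∀ s : Finset ℕ, tr n (fun j => ∑ i ∈ s, p.coeff i * tr n ((sq2 n)^[i] u) j) w =
      ∑ i ∈ s, p.coeff i * (sq2 n)^[i] u w := by
    intro s
    induction s using Finset.induction_on with
    | empty =>
      simp only [Finset.sum_empty]
      unfold tr
      simp
    | insert a s ha ih =>
      have e1 : (fun j => ∑ i ∈ insert a s, p.coeff i * tr n ((sq2 n)^[i] u) j) =
          fun j => p.coeff a * tr n ((sq2 n)^[a] u) j +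
            ∑ i ∈ s, p.coeff i * tr n ((sq2 n)^[i] u) j := by
        funext j
        rw [Finset.sum_insert ha]
      rw [e1, tr_add, ih, tr_smul, tr_tr n _ w hw, Finset.sum_insert ha]
  exact h2 _

/-- vanishing from `m` on -/
def Van (n m : ℕ) (f : ℕ → ℝ) : Prop := ∀ w, m ≤ w → w ≤ n → f w = 0

lemma van_af {n m : ℕ} {f : ℕ → ℝ} (h : Van n m f) : Van n (m + 1) (af n f) := by
  intro w hw hwn
  unfold af
  have h1 : f (w - 1) = 0 := h _ (by omega) (by omega)
  rw [h1, mul_zero, zero_add]
  rcases Nat.lt_or_ge w n with h2 | h2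
  · rw [h (w + 1) (by omega) (by omega), mul_zero]
  · have : w = n := by omega
    rw [this, sub_self, zero_mul]

lemma van_iter {n m : ℕ} {f : ℕ → ℝ} (h : Van n m f) (i : ℕ) :
    Van n (m + 2 * i) ((sq2 n)^[i] f) := by
  induction i with
  | zero => exact h
  | succ i ih =>
    rw [Function.iterate_succ_apply']
    intro w hw hwn
    have h2 := van_af (van_af ih) w (by omega) hwn
    have h3 : sq2 n ((sq2 n)^[i] f) w = ((n : ℝ)⁻¹) ^ 2 * af n (af n ((sq2 n)^[i] f)) w := rfl
    rw [h3, h2, mul_zero]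

lemma van_op {n m k : ℕ} {p : Polynomial ℝ} (hp : p.natDegree ≤ k) {u : ℕ → ℝ}
    (h : Van n m u) : Van n (m + 2 * k) (op n p u) := by
  intro w hw hwn
  rw [op_eq n p u w hwn]
  refine Finset.sum_eq_zero fun i hi => ?_
  have := Finset.mem_range.1 hi
  rw [van_iter h i w (by omega) hwn, mul_zero]

lemma ipr_op (n : ℕ) (p : Polynomial ℝ) (u : ℕ → ℝ) :
    ipr n u (op n p u) = ∑ j ∈ range (n + 1), (n.choose j : ℝ) *
      (p.eval (tt n j) * tr n u j ^ 2) := by
  unfold op
  rw [← ipr_tr]
  unfold ipr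
  exact Finset.sum_congr rfl fun j _ => by ring

/-- solving for prescribed values -/
lemma solve2 (n m : ℕ) (p : Polynomial ℝ) (q : ℝ) (hq : q < 1)
    (hU : ∀ f : ℕ → ℝ, Van n m f → ipr n f (op n p f) ≤ q * ipr n f f)
    (v : ℕ → ℝ) (hv : Van n m v) :
    ∃ u : ℕ → ℝ, Van n m u ∧ ∀ w ≤ n, w < m → u w - op n p u w = v w := by
  obtain ⟨B, hB⟩ : ∃ B : Set ℕ, B = {w | w < m} := ⟨_, rfl⟩
  have hBm : ∀ w, w ∈ B ↔ w < m := fun w => by rw [hB]; rfl
  obtain ⟨T, hT⟩ : ∃ T : (Fin (n + 1) → ℝ) →ₗ[ℝ] (Fin (n + 1) → ℝ),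
      ∀ u i, T u i = u i - mk B (op n p (mk B (ex n u))) i := by
    refine ⟨{ toFun := fun u i => u i - mk B (op n p (mk B (ex n u))) i,
              map_add' := ?_, map_smul' := ?_ }, fun u i => rfl⟩
    · intro u u'
      funext i
      have e1 : ex n (u + u') = fun w => ex n u w + ex n u' w := by
        funext w
        unfold ex
        split_ifs
        · rfl
        · ring
      rw [e1, mk_add, op_add, mk_add, Pi.add_apply, Pi.add_apply]
      ring
    · intro c u
      funext i
      have e1 : ex n (c • u) = fun w => c * ex n u w := by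
        funext w
        unfold ex
        split_ifs
        · rfl
        · ring
      rw [e1, mk_smul, op_smul, mk_smul, RingHom.id_apply, Pi.smul_apply, Pi.smul_apply,
        smul_eq_mul, smul_eq_mul]
      ring
  have key : ∀ (u : Fin (n + 1) → ℝ) (v : ℕ → ℝ), Van n m v →
      (∀ i : Fin (n + 1), T u i = v i) → Van n m (ex n u) ∧
      ∀ w ≤ n, w < m → ex n u w - op n p (ex n u) w = v w := by
    intro u v hv h
    have h1 : Van n m (ex n u) := by
      intro w hw hwn
      have hB' : w ∉ B := fun h2 => by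
        have := (hBm w).1 h2
        omega
      have := h ⟨w, Nat.lt_succ_of_le hwn⟩
      rw [hT] at this
      simp only at this
      rw [mk_notMem hB', sub_zero, hv w hw hwn] at this
      rw [ex_le u hwn, this]
    have h2 : ∀ w ≤ n, mk B (ex n u) w = ex n u w := by
      intro w hw
      by_cases hB' : w ∈ B
      · rw [mk_mem hB']
      · rw [mk_notMem hB', h1 w (by
          by_contra h3
          exact hB' ((hBm w).2 (by omega))) hw]
    refine ⟨h1, ?_⟩
    intro w hw hwm
    have := h ⟨w, Nat.lt_succ_of_le hw⟩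
    rw [hT] at this
    simp only at this
    rw [mk_mem ((hBm w).2 hwm), op_congr h2] at this
    rw [ex_le u hw]
    exact this
  have hinj : Function.Injective T := by
    rw [← LinearMap.ker_eq_bot, LinearMap.ker_eq_bot']
    intro u hu
    obtain ⟨h1, h2⟩ := key u (fun _ => 0) (fun _ _ _ => rfl) (fun i => by rw [hu]; rfl)
    have h3 : ipr n (ex n u) (ex n u) = ipr n (ex n u) (op n p (ex n u)) := by
      unfold ipr
      refine Finset.sum_congr rfl fun w hw => ?_
      have hw' : w ≤ n := by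
        have := Finset.mem_range.1 hw
        omega
      by_cases hwm : w < m
      · have h4 := h2 w hw' hwm
        have h5 : ex n u w = op n p (ex n u) w := by linarith
        rw [← h5]
      · rw [h1 w (by omega) hw']
        ring
    have h4 := hU (ex n u) h1
    rw [← h3] at h4
    have h5 := ipr_self_nonneg n (ex n u)
    have h6 : ipr n (ex n u) (ex n u) ≤ 0 := by nlinarith
    funext i
    have h7 := ipr_zero h6 i (Nat.lt_succ_iff.1 i.2)
    rw [ex_le u (Nat.lt_succ_iff.1 i.2)] at h7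
    exact h7
  have hsurj : Function.Surjective T := LinearMap.injective_iff_surjective.1 hinj
  obtain ⟨u, hu⟩ := hsurj (fun i => v i)
  exact ⟨ex n u, key u v hv fun i => by rw [hu]⟩

/-! ### The filter -/

/-- the upper part of the binomial distribution -/
noncomputable def flt (a k : ℕ) : Polynomial ℝ :=
  ∑ i ∈ Finset.Icc a k, bernsteinPolynomial ℝ k i

lemma flt_deg (a k : ℕ) : (flt a k).natDegree ≤ k := by
  unfold flt
  refine Polynomial.natDegree_sum_le_of_forall_le _ _ fun i hi => ?_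
  have hi' := (Finset.mem_Icc.1 hi).2
  unfold bernsteinPolynomial
  refine (Polynomial.natDegree_mul_le).trans ?_
  have h1 : ((k.choose i : Polynomial ℝ) * Polynomial.X ^ i).natDegree ≤ i := by
    refine (Polynomial.natDegree_mul_le).trans ?_
    rw [Polynomial.natDegree_natCast, zero_add, Polynomial.natDegree_X_pow]
  have h2 : ((1 - Polynomial.X : Polynomial ℝ) ^ (k - i)).natDegree ≤ k - i := by
    refine (Polynomial.natDegree_pow_le).trans ?_
    have : (1 - Polynomial.X : Polynomial ℝ).natDegree ≤ 1 := by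
      refine (Polynomial.natDegree_sub_le _ _).trans ?_
      simp
    calc (k - i) * (1 - Polynomial.X : Polynomial ℝ).natDegree ≤ (k - i) * 1 :=
          Nat.mul_le_mul_left _ this
      _ = k - i := mul_one _
  omega

lemma bern_eval (k i : ℕ) (t : ℝ) : (bernsteinPolynomial ℝ k i).eval t =
    (k.choose i : ℝ) * t ^ i * (1 - t) ^ (k - i) := by
  unfold bernsteinPolynomial
  simp

lemma bern_nonneg {k i : ℕ} {t : ℝ} (h0 : 0 ≤ t) (h1 : t ≤ 1) :
    0 ≤ (bernsteinPolynomial ℝ k i).eval t := by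
  rw [bern_eval]
  have : 0 ≤ 1 - t := by linarith
  positivity

lemma bern_sum (k : ℕ) (t : ℝ) : ∑ i ∈ range (k + 1), (bernsteinPolynomial ℝ k i).eval t = 1 := by
  have h := bernsteinPolynomial.sum ℝ k
  have h2 := congrArg (Polynomial.eval t) h
  rwa [Polynomial.eval_finsetSum, Polynomial.eval_one] at h2

lemma flt_eval (a k : ℕ) (t : ℝ) : (flt a k).eval t =
    ∑ i ∈ Finset.Icc a k, (bernsteinPolynomial ℝ k i).eval t := by
  unfold flt
  rw [Polynomial.eval_finsetSum]

lemma flt_nonneg {a k : ℕ} {t : ℝ} (h0 : 0 ≤ t) (h1 : t ≤ 1) : 0 ≤ (flt a k).eval t := by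
  rw [flt_eval]
  exact Finset.sum_nonneg fun i _ => bern_nonneg h0 h1

lemma flt_le_one {a k : ℕ} {t : ℝ} (h0 : 0 ≤ t) (h1 : t ≤ 1) : (flt a k).eval t ≤ 1 := by
  rw [flt_eval, ← bern_sum k t]
  refine Finset.sum_le_sum_of_subset_of_nonneg ?_ fun i _ _ => bern_nonneg h0 h1
  intro i hi
  rw [Finset.mem_Icc] at hi
  rw [Finset.mem_range]
  omega

lemma flt_markov {a k : ℕ} (ha : 0 < a) {t : ℝ} (h0 : 0 ≤ t) (h1 : t ≤ 1) :
    (flt a k).eval t ≤ k / a * t := by
  have ha' : (0 : ℝ) < a := by exact_mod_cast ha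
  have h2 : ∑ i ∈ range (k + 1), (i : ℝ) * (bernsteinPolynomial ℝ k i).eval t = k * t := by
    have h := bernsteinPolynomial.sum_smul ℝ k
    have h3 := congrArg (Polynomial.eval t) h
    rw [Polynomial.eval_finsetSum] at h3
    simp only [nsmul_eq_mul, Polynomial.eval_mul, Polynomial.eval_natCast,
      Polynomial.eval_X] at h3
    exact h3
  have h3 : (a : ℝ) * (flt a k).eval t ≤ k * t := by
    rw [flt_eval, ← h2, Finset.mul_sum]
    calc ∑ i ∈ Finset.Icc a k, (a : ℝ) * (bernsteinPolynomial ℝ k i).eval t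
        ≤ ∑ i ∈ Finset.Icc a k, (i : ℝ) * (bernsteinPolynomial ℝ k i).eval t := by
          refine Finset.sum_le_sum fun i hi => mul_le_mul_of_nonneg_right ?_ (bern_nonneg h0 h1)
          exact_mod_cast (Finset.mem_Icc.1 hi).1
      _ ≤ _ := by
          refine Finset.sum_le_sum_of_subset_of_nonneg ?_ fun i _ _ =>
            mul_nonneg (Nat.cast_nonneg _) (bern_nonneg h0 h1)
          intro i hi
          rw [Finset.mem_Icc] at hi
          rw [Finset.mem_range]
          omega
  rw [div_mul_eq_mul_div, le_div_iff₀ ha']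
  linarith

lemma flt_high {a k : ℕ} {t lam : ℝ} (h0 : 0 ≤ t) (h1 : t ≤ 1) (hl0 : 0 < lam) (hl1 : lam ≤ 1) :
    1 - (flt a k).eval t ≤ (lam ^ a)⁻¹ * (1 - t * (1 - lam)) ^ k := by
  have h2 : 1 - (flt a k).eval t ≤ ∑ i ∈ range a, (bernsteinPolynomial ℝ k i).eval t := by
    rw [flt_eval, ← bern_sum k t, sub_le_iff_le_add]
    have hsub : range (k + 1) ⊆ range a ∪ Finset.Icc a k := by
      intro i hi
      rw [Finset.mem_union, Finset.mem_range, Finset.mem_Icc]
      have := Finset.mem_range.1 hi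
      omega
    refine (Finset.sum_le_sum_of_subset_of_nonneg hsub fun i _ _ => bern_nonneg h0 h1).trans ?_
    rw [Finset.sum_union]
    rw [Finset.disjoint_left]
    intro i hi hi2
    rw [Finset.mem_range] at hi
    rw [Finset.mem_Icc] at hi2
    omega
  refine h2.trans ?_
  have h3 : (1 - t * (1 - lam)) ^ k = ∑ i ∈ range (k + 1), lam ^ i *
      (bernsteinPolynomial ℝ k i).eval t := by
    have e1 : 1 - t * (1 - lam) = lam * t + (1 - t) := by ring
    rw [e1, add_pow]
    refine Finset.sum_congr rfl fun i _ => ?_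
    rw [bern_eval, mul_pow]
    ring
  have hla : 0 < lam ^ a := pow_pos hl0 a
  rw [← div_eq_inv_mul, le_div_iff₀ hla, h3, Finset.sum_mul]
  have h4 : ∀ i ∈ range a, (bernsteinPolynomial ℝ k i).eval t * lam ^ a ≤
      lam ^ i * (bernsteinPolynomial ℝ k i).eval t := by
    intro i hi
    have hi' := Finset.mem_range.1 hi
    rw [mul_comm]
    exact mul_le_mul_of_nonneg_right (pow_le_pow_of_le_one hl0.le hl1 hi'.le)
      (bern_nonneg h0 h1)
  refine (Finset.sum_le_sum h4).trans ?_
  have hz : ∀ i, i ∉ range (k + 1) → lam ^ i * (bernsteinPolynomial ℝ k i).eval t = 0 := by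
    intro i hi
    rw [Finset.mem_range, not_lt] at hi
    rw [bern_eval, Nat.choose_eq_zero_of_lt (by omega)]
    simp
  calc ∑ i ∈ range a, lam ^ i * (bernsteinPolynomial ℝ k i).eval t
      = ∑ i ∈ range a ∩ range (k + 1), lam ^ i * (bernsteinPolynomial ℝ k i).eval t := by
        symm
        refine Finset.sum_subset Finset.inter_subset_left fun i hi hni => ?_
        refine hz i fun h => hni (Finset.mem_inter.2 ⟨hi, h⟩)
    _ ≤ _ := Finset.sum_le_sum_of_subset_of_nonneg Finset.inter_subset_right fun i _ _ =>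
        mul_nonneg (pow_nonneg hl0.le _) (bern_nonneg h0 h1)

/-- the concentration inequality for functions on the ball -/
lemma conc {n m a k : ℕ} (hn : 0 < n) (hm : 2 * m ≤ n + 1) (ha : 0 < a) (f : ℕ → ℝ)
    (hf : Van n m f) : ipr n f (op n (flt a k) f) ≤
      (k / a * (4 * ((m : ℝ) * ((n : ℝ) - m + 1)) / (n : ℝ) ^ 2)) * ipr n f f := by
  have hn' : (0 : ℝ) < n := by exact_mod_cast hn
  have h1 := af_bound n m hm f fun w hw hB => hf w (by
    by_contra h
    exact hB (Or.inl (by omega))) hw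
  rw [ipr_op]
  have h2 : ∑ j ∈ range (n + 1), (n.choose j : ℝ) * (tt n j * tr n f j ^ 2) =
      ipr n (af n f) (af n f) / (n : ℝ) ^ 2 := by
    rw [← parseval n (af n f)]
    unfold ipr
    rw [Finset.sum_div]
    refine Finset.sum_congr rfl fun j hj => ?_
    have hj' : j ≤ n := by
      have := Finset.mem_range.1 hj
      omega
    rw [tr_af n f j hj']
    unfold tt
    field_simp
  calc ∑ j ∈ range (n + 1), (n.choose j : ℝ) * ((flt a k).eval (tt n j) * tr n f j ^ 2)
      ≤ ∑ j ∈ range (n + 1), (k / a) * ((n.choose j : ℝ) * (tt n j * tr n f j ^ 2)) := by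
        refine Finset.sum_le_sum fun j hj => ?_
        have hj' : j ≤ n := by
          have := Finset.mem_range.1 hj
          omega
        have h3 := flt_markov (k := k) ha (tt_nonneg n j) (tt_le hn hj')
        calc (n.choose j : ℝ) * ((flt a k).eval (tt n j) * tr n f j ^ 2)
            ≤ (n.choose j : ℝ) * ((k / a * tt n j) * tr n f j ^ 2) := by gcongr
          _ = _ := by ring
    _ = (k / a) * (ipr n (af n f) (af n f) / (n : ℝ) ^ 2) := by rw [← Finset.mul_sum, h2]
    _ ≤ (k / a) * (4 * ((m : ℝ) * ((n : ℝ) - m + 1)) * ipr n f f / (n : ℝ) ^ 2) := by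
        gcongr
    _ = _ := by ring

/-- the transform of a function on the ball is bounded -/
lemma tr_ball {n m : ℕ} (hmn : m ≤ n + 1) (u : ℕ → ℝ) (hu : Van n m u) (j : ℕ) (hj : j ≤ n) :
    2 ^ n * tr n u j ^ 2 ≤ vol n m * ipr n u u := by
  have h1 : 2 ^ n * tr n u j ^ 2 = (∑ w ∈ range m, u w * (kr n w j : ℝ)) ^ 2 := by
    unfold tr
    rw [mul_pow, inv_pow, ← mul_assoc]
    have e1 : ((√2 : ℝ) ^ n) ^ 2 = 2 ^ n := by
      rw [sq, s2]
    rw [e1, mul_inv_cancel₀ (by positivity), one_mul]
    congr 1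
    symm
    refine Finset.sum_subset (Finset.range_mono hmn) fun w hw hw2 => ?_
    rw [Finset.mem_range] at hw
    rw [Finset.mem_range, not_lt] at hw2
    rw [hu w hw2 (by omega), zero_mul]
  have hk : ∀ w ≤ n, |(kr n w j : ℝ)| ≤ n.choose w := by
    intro w _
    have h2 : |kr n w j| ≤ (n.choose w : ℤ) := by
      have hV := Nat.add_choose_eq j (n - j) w
      rw [Nat.add_sub_of_le hj] at hV
      rw [Finset.Nat.sum_antidiagonal_eq_sum_range_succ
        (fun a b => j.choose a * (n - j).choose b)] at hV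
      rw [hV]
      unfold kr
      refine (Finset.abs_sum_le_sum_abs _ _).trans (le_of_eq ?_)
      push_cast
      refine Finset.sum_congr rfl fun i _ => ?_
      rw [abs_mul, abs_mul, abs_pow, abs_neg, abs_one, one_pow, one_mul, Nat.abs_cast,
        Nat.abs_cast]
    exact_mod_cast h2
  rw [h1]
  have h3 : (∑ w ∈ range m, u w * (kr n w j : ℝ)) ^ 2 ≤
      (∑ w ∈ range m, √(n.choose w : ℝ) * (√(n.choose w : ℝ) * |u w|)) ^ 2 := by
    rw [sq_le_sq]
    refine (Finset.abs_sum_le_sum_abs _ _).trans ?_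
    refine le_trans ?_ (le_abs_self _)
    refine Finset.sum_le_sum fun w hw => ?_
    rw [Finset.mem_range] at hw
    rw [abs_mul, ← mul_assoc, Real.mul_self_sqrt (Nat.cast_nonneg _), mul_comm]
    exact mul_le_mul_of_nonneg_right (hk w (by omega)) (abs_nonneg _)
  refine h3.trans ((Finset.sum_mul_sq_le_sq_mul_sq _ _ _).trans (le_of_eq ?_))
  congr 1
  · unfold vol
    exact Finset.sum_congr rfl fun w _ => Real.sq_sqrt (Nat.cast_nonneg _)
  · unfold ipr
    have h4 : ∑ w ∈ range (n + 1), (n.choose w : ℝ) * (u w * u w) =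
        ∑ w ∈ range m, (n.choose w : ℝ) * (u w * u w) := by
      symm
      refine Finset.sum_subset (Finset.range_mono hmn) fun w hw hw2 => ?_
      rw [Finset.mem_range] at hw
      rw [Finset.mem_range, not_lt] at hw2
      rw [hu w hw2 (by omega)]
      ring
    rw [h4]
    refine Finset.sum_congr rfl fun w _ => ?_
    rw [mul_pow, Real.sq_sqrt (Nat.cast_nonneg _), sq_abs]
    ring

/-- **The radial kernel on a ball.** -/
theorem radial2 (n d m a k j₀ : ℕ) (hn : 0 < n) (hd : d ≤ m) (hm : 2 * m + 2 * k ≤ n)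
    (hj : 2 * j₀ ≤ n) (ha : 0 < a) (q : ℝ)
    (hq : k / a * (4 * ((m : ℝ) * ((n : ℝ) - m + 1)) / (n : ℝ) ^ 2) ≤ q) (hq1 : q < 1)
    (lam : ℝ) (hl0 : 0 < lam) (hl1 : lam ≤ 1) (t₁ : ℝ)
    (ht : t₁ ≤ (((n : ℝ) - 2 * j₀) / n) ^ 2) (ht0 : 0 ≤ t₁) :
    ∃ e : ℕ → ℝ, e 0 = 0 ∧ (∀ w, 1 ≤ w → w < d → e w = -1) ∧
      (∀ w, m + 2 * k ≤ w → w ≤ n → e w = 0) ∧
      (∀ w ≤ n, d ≤ w → (n.choose m : ℝ) * e w ^ 2 ≤ vol n d / (1 - q) ^ 2) ∧
      (∀ j ≤ n, 2 ^ n * tr n e j ^ 2 ≤ 2 ^ n * (vol n d / (1 - q) ^ 2) / n.choose j₀ ∨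
        2 ^ n * tr n e j ^ 2 ≤ ((lam ^ a)⁻¹ * (1 - t₁ * (1 - lam)) ^ k) ^ 2 *
          (vol n m * (vol n d / (1 - q) ^ 2))) := by
  have hn' : (0 : ℝ) < n := by exact_mod_cast hn
  have hj' : (2 : ℝ) * j₀ ≤ n := by exact_mod_cast hj
  have hU : ∀ f : ℕ → ℝ, Van n m f → ipr n f (op n (flt a k) f) ≤ q * ipr n f f := by
    intro f hf
    refine (conc hn (by omega) ha f hf).trans ?_
    exact mul_le_mul_of_nonneg_right hq (ipr_self_nonneg n f)
  obtain ⟨v, hvd⟩ : ∃ v : ℕ → ℝ, v = fun w => if w < d ∧ w ≠ 0 then -1 else 0 := ⟨_, rfl⟩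
  have hv : Van n m v := by
    intro w hw _
    have : ¬ (w < d ∧ w ≠ 0) := fun h => by omega
    rw [hvd]
    simp only
    rw [if_neg this]
  obtain ⟨u, hu1, hu2⟩ := solve2 n m (flt a k) q hq1 hU v hv
  have hV : ipr n v v ≤ vol n d := by
    unfold ipr vol
    rw [hvd]
    have e1 : ∀ w ∈ range (n + 1), (n.choose w : ℝ) * ((if w < d ∧ w ≠ 0 then (-1 : ℝ) else 0) *
        (if w < d ∧ w ≠ 0 then -1 else 0)) ≤ if w ∈ range d then (n.choose w : ℝ) else 0 := by
      intro w _
      by_cases h : w < d ∧ w ≠ 0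
      · rw [if_pos h, if_pos (Finset.mem_range.2 h.1)]
        apply le_of_eq
        ring
      · rw [if_neg h]
        split_ifs
        · simp
        · simp
    refine (Finset.sum_le_sum e1).trans (le_of_eq ?_)
    rw [Finset.sum_ite_mem]
    refine Finset.sum_congr ?_ fun _ _ => rfl
    ext w
    simp only [Finset.mem_inter, Finset.mem_range]
    omega
  obtain ⟨U, hUd⟩ : ∃ U : ℝ, U = ipr n u u := ⟨_, rfl⟩
  have hU0 : 0 ≤ U := by
    rw [hUd]
    exact ipr_self_nonneg n u
  have hpu := hU u hu1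
  rw [← hUd] at hpu
  have huv : ipr n u v = U - ipr n u (op n (flt a k) u) := by
    rw [hUd]
    unfold ipr
    rw [← Finset.sum_sub_distrib]
    refine Finset.sum_congr rfl fun w hw => ?_
    have hw' : w ≤ n := by
      have := Finset.mem_range.1 hw
      omega
    by_cases hwm : w < m
    · rw [← hu2 w hw' hwm]
      ring
    · rw [hu1 w (by omega) hw']
      ring
  have hq2 : 0 < 1 - q := by linarith
  have hvol : 0 ≤ vol n d := Finset.sum_nonneg fun w _ => Nat.cast_nonneg _
  have hUV : U ≤ vol n d / (1 - q) ^ 2 := by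
    have h1 : (1 - q) * U ≤ ipr n u v := by
      rw [huv]
      linarith
    have h2 := ipr_cs n u v
    rw [← hUd] at h2
    have h2' : ipr n u v ^ 2 ≤ U * vol n d := h2.trans (mul_le_mul_of_nonneg_left hV hU0)
    rw [le_div_iff₀ (by positivity)]
    have h3 : ((1 - q) * U) ^ 2 ≤ U * vol n d :=
      (pow_le_pow_left₀ (mul_nonneg hq2.le hU0) h1 2).trans h2'
    rcases hU0.lt_or_eq with h4 | h4
    · have h5 : U * (U * (1 - q) ^ 2) ≤ U * vol n d := by
        calc U * (U * (1 - q) ^ 2) = ((1 - q) * U) ^ 2 := by ring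
          _ ≤ _ := h3
      exact le_of_mul_le_mul_left h5 h4
    · rw [← h4, zero_mul]
      exact hvol
  obtain ⟨e, he⟩ : ∃ e : ℕ → ℝ, e = fun w => u w - op n (flt a k) u w := ⟨_, rfl⟩
  have hte : ∀ j ≤ n, tr n e j = (1 - (flt a k).eval (tt n j)) * tr n u j := by
    intro j hjn
    have e1 : e = fun w => u w + (-1) * op n (flt a k) u w := by
      rw [he]
      funext w
      ring
    rw [e1, tr_add, tr_smul, tr_op n _ u j hjn]
    ring
  have hflt : ∀ j ≤ n, 0 ≤ 1 - (flt a k).eval (tt n j) ∧ 1 - (flt a k).eval (tt n j) ≤ 1 := by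
    intro j hjn
    have h1 := flt_nonneg (a := a) (k := k) (tt_nonneg n j) (tt_le hn hjn)
    have h2 := flt_le_one (a := a) (k := k) (tt_nonneg n j) (tt_le hn hjn)
    constructor <;> linarith
  have hee : ipr n e e ≤ U := by
    rw [← parseval n e, hUd, ← parseval n u]
    unfold ipr
    refine Finset.sum_le_sum fun j hjr => ?_
    have hjn : j ≤ n := by
      have := Finset.mem_range.1 hjr
      omega
    refine mul_le_mul_of_nonneg_left ?_ (Nat.cast_nonneg _)
    rw [hte j hjn]
    obtain ⟨h1, h2⟩ := hflt j hjn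
    calc (1 - (flt a k).eval (tt n j)) * tr n u j * ((1 - (flt a k).eval (tt n j)) * tr n u j)
        = (1 - (flt a k).eval (tt n j)) ^ 2 * (tr n u j * tr n u j) := by ring
      _ ≤ 1 * (tr n u j * tr n u j) := by
          refine mul_le_mul_of_nonneg_right ?_ (mul_self_nonneg _)
          exact pow_le_one₀ h1 h2
      _ = _ := one_mul _
  have hevan : Van n (m + 2 * k) e := by
    intro w hw hwn
    rw [he]
    simp only
    rw [hu1 w (by omega) hwn, van_op (flt_deg a k) hu1 w hw hwn, sub_zero]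
  refine ⟨e, ?_, ?_, hevan, ?_, ?_⟩
  · rcases Nat.eq_zero_or_pos m with h0 | h0
    · -- everything vanishes
      have hu0 : ∀ w ≤ n, u w = 0 := fun w hw => hu1 w (by omega) hw
      have hop : op n (flt a k) u = op n (flt a k) (fun w => (0 : ℝ) * u w) :=
        op_congr fun w hw => by rw [hu0 w hw, mul_zero]
      rw [he]
      simp only
      rw [hu0 0 (Nat.zero_le _), hop, op_smul]
      ring
    · rw [he]
      simp only
      rw [hu2 0 (Nat.zero_le _) h0, hvd]
      simp
  · intro w hw1 hw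
    rw [he]
    simp only
    rw [hu2 w (by omega) (by omega), hvd]
    simp only
    rw [if_pos ⟨hw, by omega⟩]
  · intro w hw hdw
    by_cases hwm : w < m
    · have h1 : e w = 0 := by
        rw [he]
        simp only
        rw [hu2 w hw hwm, hvd]
        simp only
        rw [if_neg (by omega)]
      rw [h1]
      have : 0 ≤ vol n d / (1 - q) ^ 2 := by positivity
      simpa using this
    · by_cases hwk : w < m + 2 * k
      · have h2 : (n.choose m : ℝ) ≤ n.choose w := by
          have : n.choose m ≤ n.choose w := choose_mid (by omega) (by omega)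
          exact_mod_cast this
        calc (n.choose m : ℝ) * e w ^ 2 ≤ (n.choose w : ℝ) * e w ^ 2 :=
              mul_le_mul_of_nonneg_right h2 (sq_nonneg _)
          _ ≤ ipr n e e := ipr_single hw _
          _ ≤ vol n d / (1 - q) ^ 2 := hee.trans hUV
      · rw [hevan w (by omega) hw]
        have : 0 ≤ vol n d / (1 - q) ^ 2 := by positivity
        simpa using this
  · intro j hjn
    by_cases hP : j < j₀ ∨ n < j + j₀
    · right
      have htj : t₁ ≤ tt n j := by
        refine ht.trans ?_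
        unfold tt
        rw [div_pow, div_pow]
        refine div_le_div_of_nonneg_right ?_ (by positivity)
        rw [sq_le_sq, abs_of_nonneg (by linarith : (0 : ℝ) ≤ (n : ℝ) - 2 * j₀), le_abs]
        rcases hP with h | h
        · left
          have : (j : ℝ) ≤ j₀ := by exact_mod_cast h.le
          linarith
        · right
          have : (n : ℝ) ≤ j + j₀ := by exact_mod_cast h.le
          linarith
      obtain ⟨h1, -⟩ := hflt j hjn
      have h2 := flt_high (a := a) (k := k) (tt_nonneg n j) (tt_le hn hjn) hl0 hl1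
      have h3 : 1 - (flt a k).eval (tt n j) ≤ (lam ^ a)⁻¹ * (1 - t₁ * (1 - lam)) ^ k := by
        refine h2.trans ?_
        have hl2 : 0 ≤ 1 - lam := by linarith
        have h4 : tt n j * (1 - lam) ≤ 1 := by
          have := tt_le hn hjn
          have := tt_nonneg n j
          nlinarith
        refine mul_le_mul_of_nonneg_left ?_ (by positivity)
        refine pow_le_pow_left₀ (by linarith) ?_ k
        nlinarith
      have h5 := tr_ball (by omega) u hu1 j hjn
      rw [← hUd] at h5
      rw [hte j hjn, mul_pow]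
      calc 2 ^ n * ((1 - (flt a k).eval (tt n j)) ^ 2 * tr n u j ^ 2)
          = (1 - (flt a k).eval (tt n j)) ^ 2 * (2 ^ n * tr n u j ^ 2) := by ring
        _ ≤ ((lam ^ a)⁻¹ * (1 - t₁ * (1 - lam)) ^ k) ^ 2 * (vol n m * U) :=
            mul_le_mul (pow_le_pow_left₀ h1 h3 2) h5 (by positivity) (by positivity)
        _ ≤ _ := by
            refine mul_le_mul_of_nonneg_left ?_ (by positivity)
            refine mul_le_mul_of_nonneg_left hUV ?_
            exact Finset.sum_nonneg fun w _ => Nat.cast_nonneg _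
    · left
      have hcj : (0 : ℝ) < n.choose j₀ := by
        exact_mod_cast Nat.choose_pos (by omega)
      have h3 : (n.choose j₀ : ℝ) ≤ n.choose j := by
        have : n.choose j₀ ≤ n.choose j := choose_mid (by omega) (by omega)
        exact_mod_cast this
      have h4 := ipr_single hjn (tr n e)
      rw [parseval] at h4
      rw [le_div_iff₀ hcj]
      calc 2 ^ n * tr n e j ^ 2 * n.choose j₀ ≤ 2 ^ n * tr n e j ^ 2 * n.choose j :=
            mul_le_mul_of_nonneg_left h3 (by positivity)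
        _ = 2 ^ n * ((n.choose j : ℝ) * tr n e j ^ 2) := by ring
        _ ≤ 2 ^ n * (vol n d / (1 - q) ^ 2) :=
            mul_le_mul_of_nonneg_left (h4.trans (hee.trans hUV)) (by positivity)

end Pool.Agent.helper857_lin
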