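import Mathlib
import Pool.Agent.TH41.BL.CH7
import Pool.Agent.helper857_lin.Kern
import Pool.Agent.helper857_lin.Ball

/-!
helper857_lin (MP_0430e4_lc): from radial functions to functions on the cube.
-/

set_option autoImplicit false
set_option linter.unusedSectionVars false

namespace Pool.Agent.helper857_lin

open Finset Pool.Agent.TH41.BL Pool.Agent.Y570.LS

variable {n : ℕ}

lemma sg_sum {ι : Type} (s : Finset ι) (f : ι → ZMod 2) :
    sg (∑ i ∈ s, f i) = ∏ i ∈ s, sg (f i) := by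
  classical
  induction s using Finset.induction_on with
  | empty => rw [Finset.sum_empty, Finset.prod_empty, sg_zero]
  | insert a s ha ih => rw [Finset.sum_insert ha, sg_add, ih, Finset.prod_insert ha]

/-- the support of a word -/
def supp (v : Wd n) : Finset (Fin n) := univ.filter fun i => v i ≠ 0

lemma supp_card (v : Wd n) : (supp v).card = hammingNorm v := rfl

lemma supp_bij : Function.Bijective (supp : Wd n → Finset (Fin n)) := by
  constructor
  · intro v v' h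
    funext i
    have h2 : i ∈ supp v ↔ i ∈ supp v' := by rw [h]
    unfold supp at h2
    simp only [Finset.mem_filter, Finset.mem_univ, true_and] at h2
    rcases zcase (v i) with h3 | h3 <;> rcases zcase (v' i) with h4 | h4 <;> simp_all
  · intro s
    refine ⟨fun i => if i ∈ s then 1 else 0, ?_⟩
    ext i
    unfold supp
    simp

lemma sg_dot (y v : Wd n) : sg (y ⬝ᵥ v) = (-1) ^ (supp v ∩ supp y).card := by
  unfold dotProduct
  rw [sg_sum]
  have h1 : ∀ i ∈ (univ : Finset (Fin n)), sg (y i * v i) =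
      if i ∈ supp v ∩ supp y then (-1 : ℝ) else 1 := by
    intro i _
    unfold supp
    simp only [Finset.mem_inter, Finset.mem_filter, Finset.mem_univ, true_and]
    rcases zcase (y i) with h3 | h3 <;> rcases zcase (v i) with h4 | h4 <;>
      simp [h3, h4, sg_zero, sg_one]
  rw [Finset.prod_congr rfl h1, Finset.prod_ite_mem, Finset.univ_inter, Finset.prod_const]

/-- the character sum of a radial function -/
lemma char_sum (f : ℕ → ℝ) (y : Wd n) : ∑ v : Wd n, f (hammingNorm v) * sg (y ⬝ᵥ v) =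
    ∑ w ∈ range (n + 1), f w * (kr n w (hammingNorm y) : ℝ) := by
  have h1 : ∑ v : Wd n, f (hammingNorm v) * sg (y ⬝ᵥ v) =
      ∑ s : Finset (Fin n), f s.card * (-1) ^ (s ∩ supp y).card := by
    rw [← Function.Bijective.sum_comp supp_bij
      (fun s : Finset (Fin n) => f s.card * (-1) ^ (s ∩ supp y).card)]
    refine Finset.sum_congr rfl fun v _ => ?_
    rw [sg_dot, supp_card]
  have h2 : ∀ w, (∑ s ∈ powersetCard w (univ : Finset (Fin n)), (-1 : ℝ) ^ (s ∩ supp y).card) =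
      (kr n w (hammingNorm y) : ℝ) := by
    intro w
    have h3 := CH7f.ch (Fin n) (supp y) w
    rw [Fintype.card_fin, supp_card] at h3
    rw [← h3]
    push_cast
    rfl
  rw [h1, ← Finset.powerset_univ, Finset.sum_powerset, Finset.card_univ, Fintype.card_fin]
  refine Finset.sum_congr rfl fun w _ => ?_
  rw [← h2, Finset.mul_sum]
  refine Finset.sum_congr rfl fun s hs => ?_
  rw [(Finset.mem_powersetCard.1 hs).2]

lemma hn_le (v : Wd n) : hammingNorm v ≤ n := by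
  have := hammingNorm_le_card_fintype (x := v)
  rwa [Fintype.card_fin] at this

/-- **The kernel on the cube.** -/
theorem cube2 (n d m a k j₀ : ℕ) (hn : 0 < n) (hd1 : 1 ≤ d) (hd : d ≤ m)
    (hm : 2 * m + 2 * k ≤ n)
    (hj : 2 * j₀ ≤ n) (ha : 0 < a) (q : ℝ)
    (hq : k / a * (4 * ((m : ℝ) * ((n : ℝ) - m + 1)) / (n : ℝ) ^ 2) ≤ q) (hq1 : q < 1)
    (lam : ℝ) (hl0 : 0 < lam) (hl1 : lam ≤ 1) (t₁ : ℝ)
    (ht : t₁ ≤ (((n : ℝ) - 2 * j₀) / n) ^ 2) (ht0 : 0 ≤ t₁)
    (e₀ : ℝ) (he0 : 0 ≤ e₀) (he1 : e₀ ≤ 1)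
    (hC : vol n d / (1 - q) ^ 2 ≤ n.choose m * e₀ ^ 2) (Λ : ℝ) (hΛ : 0 ≤ Λ)
    (h1 : 2 ^ n * (vol n d / (1 - q) ^ 2) / n.choose j₀ ≤ Λ ^ 2)
    (h2 : ((lam ^ a)⁻¹ * (1 - t₁ * (1 - lam)) ^ k) ^ 2 *
          (vol n m * (vol n d / (1 - q) ^ 2)) ≤ Λ ^ 2) :
    ∃ G : Wd n → ℝ, G 0 = 1 ∧ (∀ v, 0 ≤ G v) ∧ (∀ v, v ≠ 0 → hammingNorm v < d → G v = 0) ∧
      (∀ v, |G v - 1| ≤ 1) ∧ (∀ v, m + 2 * k < hammingNorm v → G v = 1) ∧
      (∀ y : Wd n, |∑ v, (G v - 1) * sg (y ⬝ᵥ v)| ≤ Λ) ∧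
      ∀ v, d ≤ hammingNorm v → |G v - 1| ≤ e₀ := by
  obtain ⟨e, r1, r2, r3, r4, r5⟩ := radial2 n d m a k j₀ hn hd hm hj ha q hq hq1 lam hl0 hl1 t₁
    ht ht0
  have hcm : (0 : ℝ) < n.choose m := by
    exact_mod_cast Nat.choose_pos (by omega)
  have hnear : ∀ w ≤ n, d ≤ w → |e w| ≤ e₀ := by
    intro w hw hdw
    have h3 := (r4 w hw hdw).trans hC
    have h4 : e w ^ 2 ≤ e₀ ^ 2 := le_of_mul_le_mul_left h3 hcm
    exact abs_le_of_sq_le_sq h4 he0
  have hle : ∀ w ≤ n, |e w| ≤ 1 := by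
    intro w hw
    rcases Nat.eq_zero_or_pos w with h0 | h0
    · rw [h0, r1, abs_zero]
      exact zero_le_one
    · by_cases hwd : w < d
      · rw [r2 w h0 hwd]
        simp
      · exact (hnear w hw (not_lt.1 hwd)).trans he1
  refine ⟨fun v => 1 + e (hammingNorm v), ?_, fun v => ?_, fun v hv hvd => ?_, fun v => ?_,
    fun v hv => ?_, fun y => ?_, fun v hv => ?_⟩
  · change 1 + e (hammingNorm (0 : Wd n)) = 1
    rw [hammingNorm_zero, r1, add_zero]
  · change 0 ≤ 1 + e (hammingNorm v)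
    have := (abs_le.1 (hle _ (hn_le v))).1
    linarith
  · have h0 : 1 ≤ hammingNorm v := by
      rw [Nat.one_le_iff_ne_zero]
      intro h
      exact hv (hammingNorm_eq_zero.1 h)
    change 1 + e (hammingNorm v) = 0
    rw [r2 _ h0 hvd]
    ring
  · change |1 + e (hammingNorm v) - 1| ≤ 1
    rw [add_sub_cancel_left]
    exact hle _ (hn_le v)
  · change 1 + e (hammingNorm v) = 1
    rw [r3 _ hv.le (hn_le v), add_zero]
  · have h3 : ∑ v : Wd n, (1 + e (hammingNorm v) - 1) * sg (y ⬝ᵥ v) =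
        ∑ v : Wd n, e (hammingNorm v) * sg (y ⬝ᵥ v) :=
      Finset.sum_congr rfl fun v _ => by rw [add_sub_cancel_left]
    rw [h3, char_sum]
    have h4 : (∑ w ∈ range (n + 1), e w * (kr n w (hammingNorm y) : ℝ)) ^ 2 =
        2 ^ n * tr n e (hammingNorm y) ^ 2 := by
      unfold tr
      rw [mul_pow, inv_pow, ← mul_assoc]
      have e1 : ((√2 : ℝ) ^ n) ^ 2 = 2 ^ n := by
        rw [sq, s2]
      rw [e1, mul_inv_cancel₀ (by positivity), one_mul]
    refine abs_le_of_sq_le_sq ?_ hΛ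
    rw [h4]
    rcases r5 _ (hn_le y) with h5 | h5
    · exact h5.trans h1
    · exact h5.trans h2
  · change |1 + e (hammingNorm v) - 1| ≤ e₀
    rw [add_sub_cancel_left]
    exact hnear _ (hn_le v) hv

end Pool.Agent.helper857_lin
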