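import Mathlib
import Pool.Agent.Y570.LS.Ent
import Pool.Agent.helper857_lin.Cube

/-!
helper857_lin (MP_0430e4_lc): estimates.
-/

set_option autoImplicit false
set_option linter.unusedSectionVars false

namespace Pool.Agent.helper857_lin

open Finset Pool.Agent.TH41.BL Pool.Agent.Y570.LS

/-- the derivative of the entropy -/
noncomputable def DD (δ : ℝ) : ℝ := Real.log (1 - δ) - Real.log δ

lemma DD_pos {δ : ℝ} (h0 : 0 < δ) (h1 : δ < 1 / 2) : 0 < DD δ := by
  unfold DD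
  have := Real.log_lt_log h0 (by linarith : δ < 1 - δ)
  linarith

lemma ent_eq' (δ : ℝ) : Real.binEntropy δ = δ * DD δ - Real.log (1 - δ) := by
  unfold Real.binEntropy DD
  rw [Real.log_inv, Real.log_inv]
  ring

lemma V_eq {δ : ℝ} (h0 : 0 < δ) (h1 : δ < 1 / 2) (n M : ℕ) :
    ((√(δ / (1 - δ)) ^ 2) ^ M)⁻¹ * (1 + √(δ / (1 - δ)) ^ 2) ^ n =
      Real.exp (n * Real.binEntropy δ + (M - δ * n) * DD δ) := by
  have h2 : 0 < 1 - δ := by linarith
  have h3 : 0 < δ / (1 - δ) := div_pos h0 h2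
  rw [Real.sq_sqrt h3.le]
  have e1 : 1 + δ / (1 - δ) = (1 - δ)⁻¹ := by
    field_simp
    ring
  have e2 : (δ / (1 - δ))⁻¹ = Real.exp (DD δ) := by
    unfold DD
    rw [Real.exp_sub, Real.exp_log h2, Real.exp_log h0, inv_div]
  have e3 : (1 - δ)⁻¹ = Real.exp (-Real.log (1 - δ)) := by
    rw [Real.exp_neg, Real.exp_log h2]
  rw [e1, ← inv_pow, e2, e3, ← Real.exp_nat_mul, ← Real.exp_nat_mul, ← Real.exp_add, ent_eq']
  congr 1
  ring

lemma b_eq {δ : ℝ} (h0 : 0 < δ) (h1 : δ < 1 / 2) :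
    2 * √(δ / (1 - δ)) / (1 + √(δ / (1 - δ)) ^ 2) = 2 * √(δ * (1 - δ)) := by
  have h2 : 0 < 1 - δ := by linarith
  have h3 : 0 < δ / (1 - δ) := div_pos h0 h2
  rw [Real.sq_sqrt h3.le]
  have e1 : 1 + δ / (1 - δ) = (1 - δ)⁻¹ := by
    field_simp
    ring
  have e2 : √(δ * (1 - δ)) = √(δ / (1 - δ)) * (1 - δ) := by
    have : δ * (1 - δ) = δ / (1 - δ) * (1 - δ) ^ 2 := by
      field_simp
    rw [this, Real.sqrt_mul h3.le, Real.sqrt_sq h2.le]
  rw [e1, e2, div_inv_eq_mul]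
  ring

lemma b_lt {δ : ℝ} (h0 : 0 < δ) (h1 : δ < 1 / 2) : 2 * √(δ * (1 - δ)) < 1 := by
  have hp : 0 < δ * (1 - δ) := mul_pos h0 (by linarith)
  have hs1 : √(δ * (1 - δ)) < 1 / 2 := by
    rw [Real.sqrt_lt' (by norm_num)]
    nlinarith [sq_nonneg (δ - 1 / 2), mul_pos (sub_pos.2 h1) (sub_pos.2 h1)]
  linarith

/-- the exponent of the gain -/
noncomputable def kap (δ : ℝ) : ℝ := δ * (1 - 2 * √(δ * (1 - δ)))

lemma kap_pos {δ : ℝ} (h0 : 0 < δ) (h1 : δ < 1 / 2) : 0 < kap δ :=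
  mul_pos h0 (by linarith [b_lt h0 h1])

lemma kap_le {δ : ℝ} (h0 : 0 < δ) (h1 : δ < 1 / 2) : 2 * kap δ ≤ Real.binEntropy δ := by
  have h2 : 0 < 1 - δ := by linarith
  have hs : 0 < √δ := Real.sqrt_pos.2 h0
  have e1 : Real.log δ = 2 * Real.log √δ := by
    rw [Real.log_sqrt h0.le]
    ring
  have e2 : Real.log √δ ≤ √δ - 1 := Real.log_le_sub_one_of_pos hs
  have e3 : √δ ≤ 2 * √(δ * (1 - δ)) := by
    rw [Real.sqrt_mul h0.le]
    have : 1 / 2 ≤ √(1 - δ) := by
      apply Real.le_sqrt_of_sq_le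
      norm_num
      linarith
    nlinarith
  have e4 : Real.log (1 - δ) ≤ 0 := Real.log_nonpos h2.le (by linarith)
  have e5 : Real.binEntropy δ = -(δ * Real.log δ) - (1 - δ) * Real.log (1 - δ) := by
    unfold Real.binEntropy
    rw [Real.log_inv, Real.log_inv]
    ring
  have e6 : (1 - δ) * Real.log (1 - δ) ≤ 0 := mul_nonpos_of_nonneg_of_nonpos h2.le e4
  unfold kap
  rw [e5, e1]
  nlinarith

lemma eps1 {δ : ℝ} (h0 : 0 < δ) (h1 : δ < 1 / 2) (n d : ℕ) (hd : δ * n ≤ d) :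
    (2 * √(δ / (1 - δ)) / (1 + √(δ / (1 - δ)) ^ 2)) ^ d ≤ Real.exp (-(kap δ * n)) := by
  rw [b_eq h0 h1]
  obtain ⟨b, hb⟩ : ∃ b, b = 2 * √(δ * (1 - δ)) := ⟨_, rfl⟩
  have hb1 : b < 1 := by
    rw [hb]
    exact b_lt h0 h1
  have hb0 : 0 ≤ b := by
    rw [hb]
    positivity
  have h2 : b ≤ Real.exp (-(1 - b)) := by
    have := Real.add_one_le_exp (-(1 - b))
    linarith
  have hk : kap δ = δ * (1 - b) := by
    unfold kap
    rw [hb]
  rw [← hb, hk]
  calc b ^ d ≤ Real.exp (-(1 - b)) ^ d := pow_le_pow_left₀ hb0 h2 d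
    _ = Real.exp (d * -(1 - b)) := by rw [Real.exp_nat_mul]
    _ ≤ Real.exp (-(δ * (1 - b) * n)) := by
        rw [Real.exp_le_exp]
        have : (1 - b) * (δ * n) ≤ (1 - b) * d := mul_le_mul_of_nonneg_left hd (by linarith)
        linarith

lemma eps2 {δ : ℝ} (h0 : 0 < δ) (h1 : δ < 1 / 2) (n : ℕ) :
    ((1 + √(δ / (1 - δ)) ^ 2 * (2 * √(δ / (1 - δ)) / (1 + √(δ / (1 - δ)) ^ 2))) /
      (1 + √(δ / (1 - δ)) ^ 2)) ^ n ≤ Real.exp (-(kap δ * n)) := by
  rw [b_eq h0 h1]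
  have h2 : 0 < 1 - δ := by linarith
  have h3 : 0 < δ / (1 - δ) := div_pos h0 h2
  rw [Real.sq_sqrt h3.le]
  have e1 : (1 + δ / (1 - δ) * (2 * √(δ * (1 - δ)))) / (1 + δ / (1 - δ)) = 1 - kap δ := by
    unfold kap
    field_simp
    ring
  rw [e1]
  have hb := b_lt h0 h1
  have hk : kap δ ≤ 1 := by
    unfold kap
    have h4 : 0 ≤ √(δ * (1 - δ)) := Real.sqrt_nonneg _
    nlinarith
  have h5 : 1 - kap δ ≤ Real.exp (-kap δ) := by
    have := Real.add_one_le_exp (-kap δ)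
    linarith
  calc (1 - kap δ) ^ n ≤ Real.exp (-kap δ) ^ n := pow_le_pow_left₀ (by linarith) h5 n
    _ = Real.exp (-(kap δ * n)) := by
        rw [← Real.exp_nat_mul]
        congr 1
        ring

/-- the volume of a larger ball -/
lemma vol_le2 {δ : ℝ} (h0 : 0 < δ) (h1 : δ < 1 / 2) (n m : ℕ) (hm : m ≤ n + 1) :
    vol n m ≤ Real.exp (n * Real.binEntropy δ + (m - δ * n) * DD δ) := by
  have h2 : 0 < 1 - δ := by linarith
  have h3 : ((δ + (1 - δ)) ^ n : ℝ) = 1 := by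
    rw [add_sub_cancel, one_pow]
  rw [add_pow] at h3
  have h4 : ∑ w ∈ range m, δ ^ w * (1 - δ) ^ (n - w) * (n.choose w : ℝ) ≤ 1 := by
    refine le_trans ?_ h3.le
    refine Finset.sum_le_sum_of_subset_of_nonneg ?_ fun w _ _ => by positivity
    intro w hw
    simp only [Finset.mem_range] at hw ⊢
    omega
  have h5 : vol n m * Real.exp (-(n * Real.binEntropy δ + (m - δ * n) * DD δ)) ≤ 1 := by
    refine le_trans ?_ h4
    unfold vol
    rw [Finset.sum_mul]
    refine Finset.sum_le_sum fun w hw => ?_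
    rw [Finset.mem_range] at hw
    rw [ent_term h0 (by linarith) n w (by omega), mul_comm]
    refine mul_le_mul_of_nonneg_right (Real.exp_le_exp.2 ?_) (Nat.cast_nonneg _)
    have hD := DD_pos h0 h1
    have hw' : (w : ℝ) ≤ m := by exact_mod_cast hw.le
    rw [ent_eq']
    have e1 : (w : ℝ) * Real.log δ + ((n : ℝ) - w) * Real.log (1 - δ) =
        n * Real.log (1 - δ) - w * DD δ := by
      unfold DD
      ring
    rw [e1]
    nlinarith
  rw [Real.exp_neg, ← div_eq_mul_inv, div_le_one (Real.exp_pos _)] at h5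
  exact h5

/-- the growth of the binomial coefficients -/
lemma ratio {r : ℝ} (hr : 1 ≤ r) (n m : ℕ)
    (h : ∀ w < m, r * ((w : ℝ) + 1) ≤ (n : ℝ) - w) (d s : ℕ) (hds : d + s ≤ m) :
    r ^ s * ((r - 1) * vol n d) ≤ n.choose (d + s) := by
  have hstep : ∀ w < m, r * (n.choose w : ℝ) ≤ n.choose (w + 1) := by
    intro w hw
    have h1 := h w hw
    have hwn : w ≤ n := by
      have h2 : (0 : ℝ) ≤ r * ((w : ℝ) + 1) := by positivity
      have h3 : (w : ℝ) ≤ n := by linarith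
      exact_mod_cast h3
    have h2 : (n.choose (w + 1) : ℝ) * ((w : ℝ) + 1) = n.choose w * ((n : ℝ) - w) := by
      have h3 := Nat.choose_succ_right_eq n w
      have h4 : ((n.choose (w + 1) * (w + 1) : ℕ) : ℝ) = ((n.choose w * (n - w) : ℕ) : ℝ) := by
        rw [h3]
      push_cast [Nat.cast_sub hwn] at h4
      exact h4
    have h5 : (0 : ℝ) < (w : ℝ) + 1 := by positivity
    refine le_of_mul_le_mul_right ?_ h5
    rw [h2]
    calc r * (n.choose w : ℝ) * ((w : ℝ) + 1) = n.choose w * (r * ((w : ℝ) + 1)) := by ring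
      _ ≤ n.choose w * ((n : ℝ) - w) := mul_le_mul_of_nonneg_left h1 (Nat.cast_nonneg _)
  have hvol : ∀ d ≤ m, (r - 1) * vol n d ≤ n.choose d := by
    intro d
    induction d with
    | zero =>
      intro _
      unfold vol
      simp
    | succ d ih =>
      intro hd
      have h1 := ih (by omega)
      have h2 := hstep d (by omega)
      have h3 : vol n (d + 1) = vol n d + n.choose d := by
        unfold vol
        rw [Finset.sum_range_succ]
      rw [h3]
      calc (r - 1) * (vol n d + n.choose d) = (r - 1) * vol n d + (r - 1) * n.choose d := by ring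
        _ ≤ n.choose d + (r - 1) * n.choose d := by linarith
        _ = r * n.choose d := by ring
        _ ≤ _ := h2
  induction s with
  | zero =>
    rw [pow_zero, one_mul]
    exact hvol d (by omega)
  | succ s ih =>
    have h1 := ih (by omega)
    have h2 := hstep (d + s) (by omega)
    calc r ^ (s + 1) * ((r - 1) * vol n d) = r * (r ^ s * ((r - 1) * vol n d)) := by ring
      _ ≤ r * n.choose (d + s) := mul_le_mul_of_nonneg_left h1 (by linarith)
      _ ≤ _ := h2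

/-- the filter at the low frequencies -/
lemma filt {θ t₁ lam : ℝ} (hl0 : 0 < lam) (hl1 : lam < 1) (ht0 : 0 ≤ t₁) (ht1 : t₁ ≤ 1)
    (hθ : 0 ≤ θ) (k a : ℕ) (ha : (a : ℝ) ≤ θ * k + 1) :
    (lam ^ a)⁻¹ * (1 - t₁ * (1 - lam)) ^ k ≤
      lam⁻¹ * Real.exp (-((1 - lam) * (t₁ - θ / lam) * k)) := by
  have hlog : Real.log lam ≤ 0 := Real.log_nonpos hl0.le hl1.le
  have hlog2 : 1 - lam⁻¹ ≤ Real.log lam := Real.one_sub_inv_le_log_of_pos hl0
  have e1 : (lam ^ a)⁻¹ = Real.exp (-(a * Real.log lam)) := by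
    rw [Real.exp_neg, Real.exp_nat_mul, Real.exp_log hl0]
  have e2 : (1 - t₁ * (1 - lam)) ^ k ≤ Real.exp (-(t₁ * (1 - lam)) * k) := by
    have h1 : 1 - t₁ * (1 - lam) ≤ Real.exp (-(t₁ * (1 - lam))) := by
      have := Real.add_one_le_exp (-(t₁ * (1 - lam)))
      linarith
    have h2 : 0 ≤ 1 - t₁ * (1 - lam) := by nlinarith
    calc (1 - t₁ * (1 - lam)) ^ k ≤ Real.exp (-(t₁ * (1 - lam))) ^ k :=
          pow_le_pow_left₀ h2 h1 k
      _ = _ := by
          rw [← Real.exp_nat_mul]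
          congr 1
          ring
  have e3 : lam⁻¹ = Real.exp (-Real.log lam) := by
    rw [Real.exp_neg, Real.exp_log hl0]
  rw [e1]
  refine (mul_le_mul_of_nonneg_left e2 (Real.exp_pos _).le).trans ?_
  have e4 : lam⁻¹ * Real.exp (-((1 - lam) * (t₁ - θ / lam) * k)) =
      Real.exp (-Real.log lam + -((1 - lam) * (t₁ - θ / lam) * k)) := by
    rw [Real.exp_add, ← e3]
  rw [e4, ← Real.exp_add, Real.exp_le_exp]
  have h3 : -(a * Real.log lam) ≤ (θ * k + 1) * (-Real.log lam) := by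
    have : (a : ℝ) * (-Real.log lam) ≤ (θ * k + 1) * (-Real.log lam) :=
      mul_le_mul_of_nonneg_right ha (by linarith)
    linarith
  have h4 : θ * k * (-Real.log lam) ≤ θ * k * (lam⁻¹ - 1) :=
    mul_le_mul_of_nonneg_left (by linarith) (by positivity)
  have h5 : θ * k * (lam⁻¹ - 1) = (1 - lam) * (θ / lam) * k := by
    field_simp
  nlinarith

end Pool.Agent.helper857_lin
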