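import Mathlib
import Pool.Agent.Y570.LS.Asym
import Pool.Agent.helper857_lin.Est

/-!
helper857_lin (MP_0430e4_lc): the lower bound for the hierarchy.
-/

set_option autoImplicit false
set_option linter.unusedSectionVars false

open Filter Topology

namespace Pool.Agent.helper857_lin

open Finset Pool.Agent.TH41.BL Pool.Agent.Y570.LS

/-- the choice of the constants -/
lemma consts {δ : ℝ} (h0 : 0 < δ) (h1 : δ < 1 / 2) :
    ∃ β β' μ q : ℝ, 0 < β' ∧ β' < β ∧ β < 1 / 2 ∧ δ < μ ∧ μ < 1 / 2 ∧ 0 < q ∧ q < 1 ∧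
      4 * (μ * (1 - μ)) < q * (1 - 2 * β) ^ 2 ∧
      0 < Real.binEntropy β' + Real.binEntropy δ - Real.log 2 := by
  have hg := gain_pos h0 h1
  obtain ⟨β, β', μ, q, a1, a2, a3, a4, a5, a6, a7, a8, a9⟩ := params (γ := 0) h0 h1 (by linarith)
  exact ⟨β, β', μ, q, a1, a2, a3, a4, a5, a6, a7, a8, by linarith⟩

lemma aux_m {m n x : ℝ} (h : m ≤ x) (hx : 2 * x ≤ n) : m * (n - m + 1) ≤ x * (n - x + 1) := by
  nlinarith [mul_nonneg (sub_nonneg.2 h) (by linarith : (0 : ℝ) ≤ n + 1 - x - m)]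

lemma aux_P {P l y C : ℝ} (hP : 1 ≤ P) (hy : 0 ≤ y) (h : l + y ≤ C) : P * l + y ≤ C * P := by
  have h1 : (l + y) * P ≤ C * P := mul_le_mul_of_nonneg_right h (by linarith)
  have h2 : y * 1 ≤ y * P := mul_le_mul_of_nonneg_left hP hy
  linarith

lemma exp_four (ℓ : ℕ) : (2 : ℝ) ^ 2 ^ ℓ * 2 ^ 2 ^ ℓ = Real.exp (2 ^ ℓ * Real.log 4) := by
  have h : (4 : ℝ) ^ 2 ^ ℓ = Real.exp (((2 ^ ℓ : ℕ) : ℝ) * Real.log 4) := by
    rw [Real.exp_nat_mul, Real.exp_log (by norm_num)]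
  have h2 : ((2 ^ ℓ : ℕ) : ℝ) = 2 ^ ℓ := by push_cast; rfl
  rw [← h2, ← h, ← mul_pow]
  norm_num

lemma exp_two (ℓ : ℕ) : (2 : ℝ) * 2 ^ 2 ^ ℓ = Real.exp (Real.log 2 + 2 ^ ℓ * Real.log 2) := by
  have h : (2 : ℝ) ^ 2 ^ ℓ = Real.exp (((2 ^ ℓ : ℕ) : ℝ) * Real.log 2) := by
    rw [Real.exp_nat_mul, Real.exp_log (by norm_num)]
  have h2 : ((2 ^ ℓ : ℕ) : ℝ) = 2 ^ ℓ := by push_cast; rfl
  rw [Real.exp_add, Real.exp_log (by norm_num), ← h2, ← h]

lemma aux_exp (l κ x y z : ℝ) : (l * Real.exp (-x)) ^ 2 * (Real.exp y * (κ * Real.exp z)) =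
    l ^ 2 * κ * Real.exp (2 * -x + y + z) := by
  have h : Real.exp (2 * -x + y + z) = Real.exp (-x) * Real.exp (-x) * Real.exp y *
      Real.exp z := by
    rw [← Real.exp_add, ← Real.exp_add, ← Real.exp_add]
    congr 1
    ring
  rw [h]
  ring

/-- **The lower bound.** -/
theorem lower {δ : ℝ} (h0 : 0 < δ) (h1 : δ < 1 / 2) :
    ∃ c : ℝ, 0 < c ∧ ∃ n₀ : ℕ, ∀ n ≥ n₀, ∀ ℓ : ℕ, 1 ≤ ℓ → (ℓ : ℝ) * 2 ^ ℓ ≤ c * n →
      ∃ a : (Fin ℓ → Fin n → ZMod 2) → ℝ, Feas n ⌈δ * n⌉₊ ℓ a ∧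
        ∀ S : Finset (Fin ℓ), S.Nonempty →
          Real.exp (S.card * (n * (Real.log 2 - Real.binEntropy δ) + c * n / ℓ)) ≤
            ∑ X : Fin ℓ → Fin n → ZMod 2, open Classical in
              if ∀ i, i ∉ S → X i = 0 then a X else 0 := by
  obtain ⟨β, β', μ, q, hβ'0, hβ', hβ1, hδμ, hμ, hq0, hq1, hqq, hgain⟩ := consts h0 h1
  -- the constants of the kernel
  obtain ⟨t₁, ht₁⟩ : ∃ t₁ : ℝ, t₁ = (1 - 2 * β) ^ 2 := ⟨_, rfl⟩
  have hβ0 : 0 < β := by linarith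
  have ht₁0 : 0 < t₁ := by
    rw [ht₁]
    have : 0 < 1 - 2 * β := by linarith
    positivity
  have ht₁1 : t₁ ≤ 1 := by
    rw [ht₁]
    exact pow_le_one₀ (by linarith) (by linarith)
  rw [← ht₁] at hqq
  obtain ⟨θ, hθ⟩ : ∃ θ : ℝ, θ = t₁ * (1 + q) / 2 := ⟨_, rfl⟩
  have hθ0 : 0 < θ := by
    rw [hθ]
    positivity
  obtain ⟨lam, hlam⟩ : ∃ lam : ℝ, lam = (3 + q) / 4 := ⟨_, rfl⟩
  have hlam0 : 0 < lam := by
    rw [hlam]
    linarith
  have hlam1 : lam < 1 := by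
    rw [hlam]
    linarith
  obtain ⟨ω, hω⟩ : ∃ ω : ℝ, ω = (1 - lam) * (t₁ - θ / lam) := ⟨_, rfl⟩
  have hω0 : 0 < ω := by
    rw [hω]
    refine mul_pos (by linarith) ?_
    rw [sub_pos, div_lt_iff₀ hlam0, hθ, hlam]
    nlinarith
  obtain ⟨q₂, hq₂⟩ : ∃ q₂ : ℝ, q₂ = (3 * q + 1) / (2 * (1 + q)) := ⟨_, rfl⟩
  have hq₂1 : q₂ < 1 := by
    rw [hq₂, div_lt_one (by linarith)]
    linarith
  obtain ⟨κ₂, hκ₂⟩ : ∃ κ₂ : ℝ, κ₂ = 1 / (1 - q₂) ^ 2 := ⟨_, rfl⟩
  have hκ₂0 : 0 < κ₂ := by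
    rw [hκ₂]
    have : 0 < 1 - q₂ := by linarith
    positivity
  obtain ⟨D, hD⟩ : ∃ D : ℝ, D = DD δ := ⟨_, rfl⟩
  have hD0 : 0 < D := by
    rw [hD]
    exact DD_pos h0 h1
  obtain ⟨A, hA⟩ : ∃ A : ℕ, (D / 2 + 3) / ω ≤ A := exists_nat_ge _
  have hA0 : 0 < (D / 2 + 3) / ω := by positivity
  have hA1 : 1 ≤ A := by
    have : (0 : ℝ) < A := by linarith
    exact_mod_cast this
  have hAω : D / 2 + 3 ≤ ω * A := by
    rw [div_le_iff₀ hω0] at hA
    linarith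
  have hA1' : (1 : ℝ) ≤ A := by exact_mod_cast hA1
  -- the exponents
  obtain ⟨hd, hhd⟩ : ∃ hd : ℝ, hd = Real.binEntropy δ := ⟨_, rfl⟩
  obtain ⟨hb, hhb⟩ : ∃ hb : ℝ, hb = Real.binEntropy β' := ⟨_, rfl⟩
  obtain ⟨g0, hg0⟩ : ∃ g0 : ℝ, g0 = hb + hd - Real.log 2 := ⟨_, rfl⟩
  obtain ⟨g1, hg1⟩ : ∃ g1 : ℝ, g1 = Real.log 2 - hd := ⟨_, rfl⟩
  obtain ⟨κ, hκ⟩ : ∃ κ : ℝ, κ = kap δ := ⟨_, rfl⟩
  have hg00 : 0 < g0 := by
    rw [hg0, hhb, hhd]
    exact hgain
  have hg10 : 0 < g1 := by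
    rw [hg1, hhd, sub_pos]
    have : δ ≠ 1 / 2 := h1.ne
    refine Real.binEntropy_lt_log_two.2 ?_
    rwa [one_div] at this
  have hκ0 : 0 < κ := by
    rw [hκ]
    exact kap_pos h0 h1
  have hκh : 2 * κ ≤ hd := by
    rw [hκ, hhd]
    exact kap_le h0 h1
  have hhd0 : 0 < hd := by linarith
  obtain ⟨K1, hK1⟩ : ∃ K1 : ℝ, K1 = (2 * A + 1) * D + 1 := ⟨_, rfl⟩
  have hK10 : 1 ≤ K1 := by
    rw [hK1]
    have : 0 ≤ (2 * (A : ℝ) + 1) * D := by positivity
    linarith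
  have hK1D : D ≤ K1 := by
    rw [hK1]
    have : 0 ≤ 2 * (A : ℝ) * D := by positivity
    linarith
  obtain ⟨η₀, hη₀⟩ : ∃ η₀ : ℝ, η₀ = min (min ((μ - δ) / 2) ((1 - 2 * δ) / (4 * (A + 1))))
    (min (g0 / 8) (min (κ / (4 * K1)) (g1 / (2 * K1)))) := ⟨_, rfl⟩
  have hη00 : 0 < η₀ := by
    rw [hη₀]
    refine lt_min (lt_min (by linarith) ?_) (lt_min (by linarith) (lt_min ?_ ?_))
    · have : 0 < 1 - 2 * δ := by linarith
      positivity
    · positivity
    · positivity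
  have b1 : η₀ ≤ (μ - δ) / 2 := by
    rw [hη₀]
    exact (min_le_left _ _).trans (min_le_left _ _)
  have b2 : η₀ ≤ (1 - 2 * δ) / (4 * (A + 1)) := by
    rw [hη₀]
    exact (min_le_left _ _).trans (min_le_right _ _)
  have b3 : η₀ ≤ g0 / 8 := by
    rw [hη₀]
    exact (min_le_right _ _).trans (min_le_left _ _)
  have b4 : η₀ ≤ κ / (4 * K1) := by
    rw [hη₀]
    exact (min_le_right _ _).trans ((min_le_right _ _).trans (min_le_left _ _))
  have b5 : η₀ ≤ g1 / (2 * K1) := by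
    rw [hη₀]
    exact (min_le_right _ _).trans ((min_le_right _ _).trans (min_le_right _ _))
  have hK1p : 0 < K1 := by linarith
  have b4' : η₀ * K1 ≤ κ / 4 := by
    rw [le_div_iff₀ (by positivity)] at b4
    linarith
  have b5' : η₀ * K1 ≤ g1 / 2 := by
    rw [le_div_iff₀ (by positivity)] at b5
    linarith
  have b2' : η₀ * (A + 1) ≤ (1 - 2 * δ) / 4 := by
    rw [le_div_iff₀ (by positivity)] at b2
    linarith
  -- the ratio
  have hμ0 : 0 < μ := by linarith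
  obtain ⟨r₀, hr₀⟩ : ∃ r₀ : ℝ, r₀ = (1 - μ) / μ := ⟨_, rfl⟩
  have hr₀1 : 1 < r₀ := by
    rw [hr₀, lt_div_iff₀ hμ0]
    linarith
  have hlr : 0 < Real.log r₀ := Real.log_pos hr₀1
  have hl4 : 0 < Real.log 4 := Real.log_pos (by norm_num)
  obtain ⟨C₂, hC₂⟩ : ∃ C₂ : ℝ, C₂ = lam⁻¹ * √κ₂ * Real.exp (D / 2) := ⟨_, rfl⟩
  have hC₂0 : 0 < C₂ := by
    rw [hC₂]
    have := Real.sqrt_pos.2 hκ₂0
    have := Real.exp_pos (D / 2)
    positivity
  obtain ⟨C₈, hC₈⟩ : ∃ C₈ : ℝ, C₈ = Real.log 4 + 4 + |Real.log (16 * C₂)| +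
    (Real.log 4 + |Real.log (4 * κ₂ / (r₀ - 1))|) / Real.log r₀ := ⟨_, rfl⟩
  have hC₈a : Real.log 4 + |Real.log (16 * C₂)| ≤ C₈ := by
    rw [hC₈]
    have : 0 ≤ (Real.log 4 + |Real.log (4 * κ₂ / (r₀ - 1))|) / Real.log r₀ := by positivity
    linarith
  have hC₈b : Real.log 4 + |Real.log (4 * κ₂ / (r₀ - 1))| ≤ C₈ * Real.log r₀ := by
    rw [← div_le_iff₀ hlr, hC₈]
    have := abs_nonneg (Real.log (16 * C₂))
    linarith
  have hC₈c : 4 ≤ C₈ := by
    rw [hC₈]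
    have : 0 ≤ (Real.log 4 + |Real.log (4 * κ₂ / (r₀ - 1))|) / Real.log r₀ := by positivity
    have := abs_nonneg (Real.log (16 * C₂))
    linarith
  have hC₈0 : 0 < C₈ := by linarith
  -- the constant
  obtain ⟨c, hc⟩ : ∃ c : ℝ, c = η₀ / (C₈ + 1) := ⟨_, rfl⟩
  have hc0 : 0 < c := by
    rw [hc]
    positivity
  have hcη : c * (C₈ + 1) = η₀ := by
    rw [hc]
    field_simp
  have hc4 : 4 * c ≤ η₀ := by
    rw [← hcη]
    have : c * 4 ≤ c * (C₈ + 1) := mul_le_mul_of_nonneg_left (by linarith) hc0.le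
    linarith
  refine ⟨c, hc0, ?_⟩
  have hN : ∀ C : ℝ, ∀ᶠ n : ℕ in atTop, C ≤ (n : ℝ) := fun C =>
    tendsto_natCast_atTop_atTop.eventually_ge_atTop C
  have hall := ((((hN 1).and (hN (2 / (μ - δ)))).and
    ((hN (4 / (1 - 2 * δ))).and (hN (4 * (1 + q) / (θ * (1 - q)))))).and
    (((hN (1 / (β - β'))).and (hN (Real.log 8 / (κ / 4)))).and
    ((hN ((D + Real.log 8) / (g1 / 2))).and (ev1 (256 * κ₂) (g0 / 2) (by positivity)
      (by positivity)))))
  obtain ⟨n₀, hn₀⟩ := eventually_atTop.1 hall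
  refine ⟨n₀, fun n hn ℓ hℓ hℓc => ?_⟩
  obtain ⟨⟨⟨E1, E2⟩, E3, E4⟩, ⟨E5, E6⟩, E7, E8⟩ := hn₀ n hn
  have hn0 : (0 : ℝ) < n := by linarith
  have hnpos : 0 < n := by exact_mod_cast hn0
  have hℓ0 : (0 : ℝ) < ℓ := by exact_mod_cast hℓ
  have hℓ1 : (1 : ℝ) ≤ ℓ := by exact_mod_cast hℓ
  obtain ⟨P, hP⟩ : ∃ P : ℝ, P = 2 ^ ℓ := ⟨_, rfl⟩
  have hP1 : 1 ≤ P := by
    rw [hP]
    exact one_le_pow₀ (by norm_num)
  have hPℓ : (ℓ : ℝ) ≤ P := by
    rw [hP]
    have : ℓ < 2 ^ ℓ := Nat.lt_two_pow_self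
    exact_mod_cast this.le
  rw [← hP] at hℓc
  -- the integers
  obtain ⟨s, hs⟩ : ∃ s : ℕ, s = ⌊η₀ * n / ℓ⌋₊ := ⟨_, rfl⟩
  have hs1 : (s : ℝ) ≤ η₀ * n / ℓ := by
    rw [hs]
    exact Nat.floor_le (by positivity)
  have hs2 : η₀ * n / ℓ - 1 ≤ s := by
    rw [hs]
    exact (Nat.sub_one_lt_floor _).le
  have hs0 : (0 : ℝ) ≤ s := Nat.cast_nonneg s
  have hℓs : (ℓ : ℝ) * s ≤ η₀ * n := by
    rw [le_div_iff₀ hℓ0] at hs1
    linarith
  have hsn : (s : ℝ) ≤ η₀ * n := by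
    have : 1 * (s : ℝ) ≤ ℓ * s := mul_le_mul_of_nonneg_right hℓ1 hs0
    linarith
  have hsP : C₈ * P ≤ s := by
    have a1 : P / c ≤ n / ℓ := by
      rw [div_le_div_iff₀ hc0 hℓ0]
      linarith
    have a2 : η₀ * (P / c) ≤ η₀ * n / ℓ := by
      rw [mul_div_assoc η₀]
      exact mul_le_mul_of_nonneg_left a1 hη00.le
    have a3 : η₀ * (P / c) = C₈ * P + P := by
      rw [← hcη]
      field_simp
    linarith
  obtain ⟨d, hdd⟩ : ∃ d : ℕ, d = ⌈δ * n⌉₊ := ⟨_, rfl⟩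
  have hd1 : 1 ≤ d := by
    rw [hdd]
    exact Nat.one_le_iff_ne_zero.2 (Nat.ceil_pos.2 (by positivity)).ne'
  have hd2 : (d : ℝ) ≤ δ * n + 1 := by
    rw [hdd]
    exact (Nat.ceil_lt_add_one (by positivity)).le
  have hd3 : δ * n ≤ d := by
    rw [hdd]
    exact Nat.le_ceil _
  obtain ⟨m, hm⟩ : ∃ m : ℕ, m = d + s := ⟨_, rfl⟩
  have hmr : (m : ℝ) = d + s := by rw [hm]; push_cast; ring
  obtain ⟨k, hk⟩ : ∃ k : ℕ, k = A * s := ⟨_, rfl⟩
  have hkr : (k : ℝ) = A * s := by rw [hk]; push_cast; ring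
  obtain ⟨a, ha⟩ : ∃ a : ℕ, a = ⌈θ * k⌉₊ := ⟨_, rfl⟩
  obtain ⟨j₀, hj⟩ : ∃ j₀ : ℕ, j₀ = ⌊β * n⌋₊ := ⟨_, rfl⟩
  obtain ⟨M, hM⟩ : ∃ M : ℕ, M = m + 2 * k := ⟨_, rfl⟩
  have hMr : (M : ℝ) = d + (2 * A + 1) * s := by
    rw [hM]
    push_cast
    rw [hmr, hkr]
    ring
  have hspos : (0 : ℝ) < s := lt_of_lt_of_le (mul_pos hC₈0 (by linarith)) hsP
  have hkpos : (0 : ℝ) < k := by
    rw [hkr]
    positivity
  have ha1 : (a : ℝ) ≤ θ * k + 1 := by
    rw [ha]
    exact (Nat.ceil_lt_add_one (by positivity)).le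
  have ha2 : θ * k ≤ a := by
    rw [ha]
    exact Nat.le_ceil _
  have hapos : 0 < a := by
    rw [ha]
    exact Nat.ceil_pos.2 (by positivity)
  have hapos' : (0 : ℝ) < a := by exact_mod_cast hapos
  have hj1 : (j₀ : ℝ) ≤ β * n := by
    rw [hj]
    exact Nat.floor_le (by positivity)
  have hj2 : β * n - 1 ≤ j₀ := by
    rw [hj]
    exact (Nat.sub_one_lt_floor _).le
  have hmμ : (m : ℝ) ≤ μ * n := by
    rw [div_le_iff₀ (by linarith)] at E2
    rw [hmr]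
    have a1 := mul_le_mul_of_nonneg_right b1 hn0.le
    linarith
  have hmk : 2 * m + 2 * k ≤ n := by
    have a1 : (2 * (m : ℝ) + 2 * k) ≤ n := by
      rw [div_le_iff₀ (by linarith)] at E3
      rw [hmr, hkr]
      have a2 : (A + 1) * (s : ℝ) ≤ (1 - 2 * δ) / 4 * n := by
        calc (A + 1) * (s : ℝ) ≤ (A + 1) * (η₀ * n) :=
              mul_le_mul_of_nonneg_left hsn (by positivity)
          _ = (η₀ * (A + 1)) * n := by ring
          _ ≤ (1 - 2 * δ) / 4 * n := mul_le_mul_of_nonneg_right b2' hn0.le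
      linarith
    exact_mod_cast a1
  have hjn' : (2 : ℝ) * j₀ ≤ n := by
    have a1 : β * n ≤ 1 / 2 * n := mul_le_mul_of_nonneg_right hβ1.le hn0.le
    linarith
  have hjn : 2 * j₀ ≤ n := by exact_mod_cast hjn'
  have E5' : β' * n ≤ β * n - 1 := by
    rw [div_le_iff₀ (by linarith)] at E5
    linarith
  have hβn : β' * n ≤ j₀ := by linarith
  have hj01 : 1 ≤ j₀ := by
    have : (0 : ℝ) < j₀ := lt_of_lt_of_le (by positivity) hβn
    exact_mod_cast this
  have hj0n : j₀ < n := by omega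
  have hqn : (k : ℝ) / a * (4 * ((m : ℝ) * ((n : ℝ) - m + 1)) / (n : ℝ) ^ 2) ≤ q₂ := by
    have a1 : (k : ℝ) / a ≤ 1 / θ := by
      rw [div_le_div_iff₀ hapos' hθ0]
      linarith
    have a2 : (m : ℝ) * ((n : ℝ) - m + 1) ≤ μ * n * ((1 - μ) * n + 1) := by
      have a3 : 2 * (μ * n) ≤ n := by
        have := mul_le_mul_of_nonneg_right hμ.le hn0.le
        linarith
      refine (aux_m hmμ a3).trans (le_of_eq ?_)
      ring
    have a4 : 4 * ((m : ℝ) * ((n : ℝ) - m + 1)) / (n : ℝ) ^ 2 ≤ q * t₁ + 2 / n := by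
      rw [div_le_iff₀ (by positivity)]
      have a5 : (q * t₁ + 2 / n) * (n : ℝ) ^ 2 = q * t₁ * n ^ 2 + 2 * n := by
        field_simp
      rw [a5]
      have a6 : 4 * (μ * (1 - μ)) * (n : ℝ) ^ 2 ≤ q * t₁ * n ^ 2 :=
        mul_le_mul_of_nonneg_right hqq.le (by positivity)
      have a7 : 4 * (μ * n * ((1 - μ) * n + 1)) = 4 * (μ * (1 - μ)) * (n : ℝ) ^ 2 +
          4 * (μ * n) := by ring
      have a8 : μ * n ≤ 1 / 2 * n := mul_le_mul_of_nonneg_right hμ.le hn0.le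
      linarith
    have a7 : 0 ≤ 4 * ((m : ℝ) * ((n : ℝ) - m + 1)) / (n : ℝ) ^ 2 := by
      have a8 : (m : ℝ) ≤ n := by
        have : μ * n ≤ 1 * n := mul_le_mul_of_nonneg_right (by linarith) hn0.le
        linarith
      have a9 : 0 ≤ (n : ℝ) - m + 1 := by linarith
      positivity
    refine (mul_le_mul a1 a4 a7 (by positivity)).trans ?_
    have a8 : 2 / (n : ℝ) ≤ θ * (1 - q) / (2 * (1 + q)) := by
      rw [div_le_iff₀ (mul_pos hθ0 (by linarith))] at E4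
      rw [div_le_div_iff₀ hn0 (by linarith)]
      linarith
    have a9 : 1 / θ * (q * t₁ + 2 / n) ≤ 1 / θ * (q * t₁ + θ * (1 - q) / (2 * (1 + q))) :=
      mul_le_mul_of_nonneg_left (by linarith) (by positivity)
    refine a9.trans (le_of_eq ?_)
    rw [hq₂, hθ]
    field_simp
    ring
  have htj : t₁ ≤ (((n : ℝ) - 2 * j₀) / n) ^ 2 := by
    rw [ht₁]
    refine pow_le_pow_left₀ (by linarith) ?_ 2
    rw [le_div_iff₀ hn0]
    linarith
  -- the volumes
  have hκ₂' : ∀ x : ℝ, x / (1 - q₂) ^ 2 = κ₂ * x := by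
    intro x
    rw [hκ₂]
    ring
  have hvol : vol n d ≤ Real.exp (n * hd) := by
    rw [hhd]
    refine vol_le h0 h1.le n d (by omega) fun w hw => ?_
    rw [hdd, Nat.lt_ceil] at hw
    linarith
  have hvol0 : 0 ≤ vol n d := Finset.sum_nonneg fun w _ => Nat.cast_nonneg _
  have hvolm : vol n m ≤ Real.exp (n * hd + D * (s + 1)) := by
    refine (vol_le2 h0 h1 n m (by omega)).trans ?_
    rw [Real.exp_le_exp, ← hhd, ← hD]
    have : ((m : ℝ) - δ * n) * D ≤ (s + 1) * D := by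
      refine mul_le_mul_of_nonneg_right ?_ hD0.le
      rw [hmr]
      linarith
    linarith
  have hvolm0 : 0 ≤ vol n m := Finset.sum_nonneg fun w _ => Nat.cast_nonneg _
  -- the size of the error terms
  obtain ⟨H, hH⟩ : ∃ H : ℝ, H = P * Real.log 4 := ⟨_, rfl⟩
  have hexpH : (2 : ℝ) ^ 2 ^ ℓ * 2 ^ 2 ^ ℓ = Real.exp H := by
    rw [hH, hP, exp_four]
  have hH0 : 0 < H := by
    rw [hH]
    positivity
  have hHs : H + |Real.log (16 * C₂)| ≤ s := by
    refine le_trans ?_ hsP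
    rw [hH]
    exact aux_P hP1 (abs_nonneg _) hC₈a
  have hHr : H + |Real.log (4 * κ₂ / (r₀ - 1))| ≤ s * Real.log r₀ := by
    have a1 : C₈ * P * Real.log r₀ ≤ s * Real.log r₀ := mul_le_mul_of_nonneg_right hsP hlr.le
    refine le_trans ?_ a1
    have a2 := aux_P hP1 (abs_nonneg (Real.log (4 * κ₂ / (r₀ - 1)))) hC₈b
    rw [hH]
    linarith
  have hHs' : H ≤ s := by
    have := abs_nonneg (Real.log (16 * C₂))
    linarith
  obtain ⟨η, hη⟩ : ∃ η : ℝ, η = 1 / (8 * Real.exp H) := ⟨_, rfl⟩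
  have hη0 : 0 < η := by
    rw [hη]
    have := Real.exp_pos H
    positivity
  have hηinv : 8 * Real.exp H * η = 1 := by
    rw [hη]
    have := Real.exp_pos H
    field_simp
  have hηle : ∀ x y : ℝ, 8 * Real.exp H * x ≤ y → x ≤ η * y := by
    intro x y hxy
    have h2 := mul_le_mul_of_nonneg_right hxy hη0.le
    have h3 : 8 * Real.exp H * x * η = x * (8 * Real.exp H * η) := by ring
    rw [h3, hηinv, mul_one] at h2
    linarith
  obtain ⟨e₀, he₀⟩ : ∃ e₀ : ℝ, e₀ = 1 / (2 * 2 ^ 2 ^ ℓ) := ⟨_, rfl⟩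
  have he₀0 : 0 < e₀ := by
    rw [he₀]
    positivity
  have hpp : (1 : ℝ) ≤ 2 ^ 2 ^ ℓ := one_le_pow₀ (by norm_num)
  have he₀1 : e₀ ≤ 1 := by
    rw [he₀, div_le_one (by positivity)]
    linarith
  have he₀2 : (2 : ℝ) ^ 2 ^ ℓ * e₀ ≤ 1 / 2 := by
    rw [he₀]
    apply le_of_eq
    field_simp
  have he₀sq : e₀ ^ 2 = 1 / (4 * Real.exp H) := by
    rw [he₀, ← hexpH]
    field_simp
    ring
  -- the near values
  have hC : vol n d / (1 - q₂) ^ 2 ≤ n.choose m * e₀ ^ 2 := by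
    rw [hκ₂', he₀sq]
    have a1 := ratio hr₀1.le n m (fun w hw => by
      have hw1 : (w : ℝ) + 1 ≤ m := by exact_mod_cast hw
      have a2 : r₀ * ((w : ℝ) + 1) ≤ r₀ * (μ * n) :=
        mul_le_mul_of_nonneg_left (by linarith) (by linarith)
      have a3 : r₀ * (μ * n) = (1 - μ) * n := by
        rw [hr₀]
        field_simp
      linarith) d s (by omega)
    rw [← hm] at a1
    have a2 : r₀ ^ s = Real.exp (s * Real.log r₀) := by
      rw [Real.exp_nat_mul, Real.exp_log (by linarith)]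
    have a3 : 4 * κ₂ / (r₀ - 1) * Real.exp H ≤ Real.exp (s * Real.log r₀) := by
      have a4 : 0 < 4 * κ₂ / (r₀ - 1) := div_pos (by positivity) (by linarith)
      rw [← Real.exp_log a4, ← Real.exp_add, Real.exp_le_exp]
      have := le_abs_self (Real.log (4 * κ₂ / (r₀ - 1)))
      linarith
    rw [mul_one_div, le_div_iff₀ (by positivity)]
    refine le_trans ?_ a1
    rw [a2]
    have a5 : 0 < r₀ - 1 := by linarith
    calc κ₂ * vol n d * (4 * Real.exp H) =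
        (4 * κ₂ / (r₀ - 1) * Real.exp H) * ((r₀ - 1) * vol n d) := by
          field_simp
      _ ≤ Real.exp (s * Real.log r₀) * ((r₀ - 1) * vol n d) :=
          mul_le_mul_of_nonneg_right a3 (by positivity)
  -- the frequencies
  obtain ⟨Λ₁, hΛ₁⟩ : ∃ Λ₁ : ℝ, Λ₁ = √(κ₂ * (n + 1)) *
    Real.exp (n * (Real.log 2 + hd - hb) / 2) := ⟨_, rfl⟩
  obtain ⟨Λ₂, hΛ₂⟩ : ∃ Λ₂ : ℝ, Λ₂ = C₂ * Real.exp (n * hd - 3 * s) := ⟨_, rfl⟩
  have hΛ₁0 : 0 ≤ Λ₁ := by
    rw [hΛ₁]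
    positivity
  have hΛ₂0 : 0 ≤ Λ₂ := by
    rw [hΛ₂]
    positivity
  have h2n : (2 : ℝ) ^ n = Real.exp (n * Real.log 2) := by
    rw [Real.exp_nat_mul, Real.exp_log (by norm_num)]
  have hcj : Real.exp (n * hb) ≤ (n + 1) * (n.choose j₀ : ℝ) := by
    refine le_trans (Real.exp_le_exp.2 ?_) (choose_ge hj01 hj0n)
    refine mul_le_mul_of_nonneg_left ?_ hn0.le
    rw [hhb]
    refine binEntropy_mono hβ'0.le ?_ ?_
    · rw [le_div_iff₀ hn0]
      exact hβn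
    · rw [div_le_iff₀ hn0]
      linarith
  have hcjp : (0 : ℝ) < n.choose j₀ := by
    exact_mod_cast Nat.choose_pos hj0n.le
  have hspec1 : 2 ^ n * (vol n d / (1 - q₂) ^ 2) / n.choose j₀ ≤ (Λ₁ + Λ₂) ^ 2 := by
    have a1 : 2 ^ n * (vol n d / (1 - q₂) ^ 2) / n.choose j₀ ≤ Λ₁ ^ 2 := by
      rw [hκ₂', div_le_iff₀ hcjp, hΛ₁, mul_pow, Real.sq_sqrt (by positivity), ← Real.exp_nat_mul]
      push_cast
      have e1 : 2 * (↑n * (Real.log 2 + hd - hb) / 2) = n * (Real.log 2 + hd - hb) := by ring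
      rw [e1]
      calc 2 ^ n * (κ₂ * vol n d) ≤ 2 ^ n * (κ₂ * Real.exp (n * hd)) := by gcongr
        _ = κ₂ * Real.exp (n * (Real.log 2 + hd - hb)) * Real.exp (n * hb) := by
            rw [h2n]
            have : Real.exp (n * (Real.log 2 + hd - hb)) * Real.exp (n * hb) =
                Real.exp (n * Real.log 2) * Real.exp (n * hd) := by
              rw [← Real.exp_add, ← Real.exp_add]
              congr 1
              ring
            rw [mul_assoc κ₂, this]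
            ring
        _ ≤ κ₂ * Real.exp (n * (Real.log 2 + hd - hb)) * ((n + 1) * (n.choose j₀ : ℝ)) :=
            mul_le_mul_of_nonneg_left hcj (by positivity)
        _ = _ := by ring
    exact a1.trans (pow_le_pow_left₀ hΛ₁0 (by linarith) 2)
  have hspec2 : ((lam ^ a)⁻¹ * (1 - t₁ * (1 - lam)) ^ k) ^ 2 *
      (vol n m * (vol n d / (1 - q₂) ^ 2)) ≤ (Λ₁ + Λ₂) ^ 2 := by
    have a1 := filt hlam0 hlam1 ht₁0.le ht₁1 hθ0.le k a ha1
    rw [← hω] at a1
    have a0 : 0 ≤ (lam ^ a)⁻¹ * (1 - t₁ * (1 - lam)) ^ k := by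
      have h3 : t₁ * (1 - lam) ≤ 1 * 1 :=
        mul_le_mul ht₁1 (by linarith) (by linarith) zero_le_one
      have : 0 ≤ 1 - t₁ * (1 - lam) := by linarith
      positivity
    have a2 : ((lam ^ a)⁻¹ * (1 - t₁ * (1 - lam)) ^ k) ^ 2 *
        (vol n m * (vol n d / (1 - q₂) ^ 2)) ≤ Λ₂ ^ 2 := by
      rw [hκ₂']
      calc ((lam ^ a)⁻¹ * (1 - t₁ * (1 - lam)) ^ k) ^ 2 * (vol n m * (κ₂ * vol n d))
          ≤ (lam⁻¹ * Real.exp (-(ω * k))) ^ 2 *
            (Real.exp (n * hd + D * (s + 1)) * (κ₂ * Real.exp (n * hd))) := by gcongr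
        _ = (lam⁻¹) ^ 2 * κ₂ * Real.exp (2 * -(ω * k) + (n * hd + D * (s + 1)) + n * hd) := by
            exact aux_exp _ _ _ _ _
        _ ≤ (lam⁻¹) ^ 2 * κ₂ * Real.exp (D + 2 * (n * hd - 3 * s)) := by
            refine mul_le_mul_of_nonneg_left (Real.exp_le_exp.2 ?_) (by positivity)
            rw [hkr]
            have a3 : (D / 2 + 3) * s ≤ ω * A * s := mul_le_mul_of_nonneg_right hAω hs0
            linarith
        _ = Λ₂ ^ 2 := by
            rw [hΛ₂, hC₂, mul_pow, mul_pow, mul_pow, Real.sq_sqrt hκ₂0.le, ← Real.exp_nat_mul,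
              ← Real.exp_nat_mul, Real.exp_add]
            push_cast
            have e1 : 2 * (D / 2) = D := by ring
            rw [e1]
            ring
    exact a2.trans (pow_le_pow_left₀ hΛ₂0 (by linarith) 2)
  obtain ⟨G, G0, Gn, Gd, G1, GM, GΛ, Gnear⟩ := cube2 n d m a k j₀ hnpos hd1 (by omega) hmk hjn
    hapos q₂ hqn hq₂1 lam hlam0 hlam1.le t₁ htj ht₁0.le e₀ he₀0.le he₀1 hC (Λ₁ + Λ₂)
    (by positivity) hspec1 hspec2
  -- the volume and the intersections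
  obtain ⟨x, hx⟩ : ∃ x : ℝ, x = √(δ / (1 - δ)) := ⟨_, rfl⟩
  have h1δ : 0 < 1 - δ := by linarith
  have hx0 : 0 < x := by
    rw [hx]
    exact Real.sqrt_pos.2 (div_pos h0 h1δ)
  have hx1 : x ≤ 1 := by
    rw [hx, Real.sqrt_le_one]
    rw [div_le_one h1δ]
    linarith
  obtain ⟨V, hV⟩ : ∃ V : ℝ, V = ((x ^ 2) ^ M)⁻¹ * (1 + x ^ 2) ^ n := ⟨_, rfl⟩
  have hV2 : V = Real.exp (n * hd + (M - δ * n) * D) := by
    rw [hV, hx, V_eq h0 h1, hhd, hD]
  have hKer : Ker n d G (Λ₁ + Λ₂) V (Real.exp (-(κ * n))) := by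
    refine ker_of_ball hx0 hx1 G0 Gn Gd G1 (fun v hv => GM v (by rw [← hM]; exact hv)) GΛ hV ?_ ?_
    · rw [hx, hκ]
      exact eps1 h0 h1 n d hd3
    · rw [hx, hκ]
      exact eps2 h0 h1 n
  -- the parameters
  obtain ⟨R, hR⟩ : ∃ R : ℝ, R = Real.exp (n * hd - s) := ⟨_, rfl⟩
  have hR0 : 0 < R := by
    rw [hR]
    exact Real.exp_pos _
  have hκn : (s : ℝ) ≤ κ / 4 * n := by
    have a1 : η₀ ≤ κ / 4 := by
      have := mul_le_mul_of_nonneg_left hK10 hη00.le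
      linarith
    exact hsn.trans (mul_le_mul_of_nonneg_right a1 hn0.le)
  have hlog8 : Real.log 8 ≤ κ / 4 * n := by
    rw [div_le_iff₀ (by positivity)] at E6
    linarith
  have hMδ : ((M : ℝ) - δ * n) * D ≤ (2 * A + 1) * D * s + D := by
    have a1 : (M : ℝ) - δ * n ≤ (2 * A + 1) * s + 1 := by
      rw [hMr]
      linarith
    have a2 := mul_le_mul_of_nonneg_right a1 hD0.le
    linarith
  have hVR : V ≤ R * Real.exp (K1 * s + D) := by
    rw [hV2, hR, ← Real.exp_add, Real.exp_le_exp, hK1]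
    linarith
  have hVRr : ∀ r ≤ ℓ, V ^ r ≤ R ^ r * Real.exp (κ / 2 * n) := by
    intro r hr
    have hV0 : 0 ≤ V := by
      rw [hV2]
      positivity
    calc V ^ r ≤ (R * Real.exp (K1 * s + D)) ^ r := pow_le_pow_left₀ hV0 hVR r
      _ = R ^ r * Real.exp (r * (K1 * s + D)) := by rw [mul_pow, ← Real.exp_nat_mul]
      _ ≤ R ^ r * Real.exp (κ / 2 * n) := by
          refine mul_le_mul_of_nonneg_left (Real.exp_le_exp.2 ?_) (by positivity)
          have hr' : (r : ℝ) ≤ ℓ := by exact_mod_cast hr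
          have a1 : (r : ℝ) * (K1 * s + D) ≤ ℓ * (K1 * s + D) :=
            mul_le_mul_of_nonneg_right hr' (by positivity)
          have a2 : ℓ * (K1 * s + D) = K1 * (ℓ * s) + ℓ * D := by ring
          have a3 : K1 * (ℓ * s) ≤ K1 * (η₀ * n) := mul_le_mul_of_nonneg_left hℓs hK1p.le
          have a4 : K1 * (η₀ * n) ≤ κ / 4 * n := by
            have := mul_le_mul_of_nonneg_right b4' hn0.le
            linarith
          have a5 : ℓ * D ≤ κ / 4 * n := by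
            have a6 : (ℓ : ℝ) ≤ s := by
              have : 1 * P ≤ C₈ * P := mul_le_mul_of_nonneg_right (by linarith) (by linarith)
              linarith
            calc (ℓ : ℝ) * D ≤ s * K1 := mul_le_mul a6 hK1D hD0.le hs0
              _ ≤ (η₀ * n) * K1 := mul_le_mul_of_nonneg_right hsn hK1p.le
              _ = K1 * (η₀ * n) := by ring
              _ ≤ _ := a4
          linarith
  have h8 : ∀ y : ℝ, 8 * Real.exp y = Real.exp (Real.log 8 + y) := by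
    intro y
    rw [Real.exp_add, Real.exp_log (by norm_num)]
  have hPar : Par n ℓ (Λ₁ + Λ₂) V (Real.exp (-(κ * n))) R η := by
    refine ⟨?_, ?_, hη0.le, ?_, ?_, ?_, ?_, ?_, ?_⟩
    · rw [hR]
      refine Real.one_le_exp ?_
      have : κ / 4 * n ≤ hd * n := mul_le_mul_of_nonneg_right (by linarith) hn0.le
      linarith
    · rw [hR, h2n, Real.exp_le_exp]
      have : n * hd ≤ n * Real.log 2 := mul_le_mul_of_nonneg_left (by linarith) hn0.le
      linarith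
    · rw [hη, div_le_one (by positivity)]
      have := Real.one_le_exp hH0.le
      linarith
    · -- c1
      have a1 : 16 * Real.exp H * Λ₂ ≤ R := by
        rw [hΛ₂, hR]
        have a2 : 16 * C₂ ≤ Real.exp |Real.log (16 * C₂)| := by
          calc 16 * C₂ = Real.exp (Real.log (16 * C₂)) := by rw [Real.exp_log (by positivity)]
            _ ≤ _ := Real.exp_le_exp.2 (le_abs_self _)
        calc 16 * Real.exp H * (C₂ * Real.exp (n * hd - 3 * s))
            = (16 * C₂) * (Real.exp H * Real.exp (n * hd - 3 * s)) := by ring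
          _ ≤ Real.exp |Real.log (16 * C₂)| * (Real.exp H * Real.exp (n * hd - 3 * s)) :=
              mul_le_mul_of_nonneg_right a2 (by positivity)
          _ = Real.exp (|Real.log (16 * C₂)| + (H + (n * hd - 3 * s))) := by
              rw [Real.exp_add, Real.exp_add]
          _ ≤ Real.exp (n * hd - s) := by
              rw [Real.exp_le_exp]
              linarith
      have a2 : 16 * Real.exp H * Λ₁ ≤ R := by
        refine (sq_le_sq₀ (by positivity) hR0.le).1 ?_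
        rw [hΛ₁, hR, mul_pow, mul_pow, mul_pow, Real.sq_sqrt (by positivity),
          ← Real.exp_nat_mul, ← Real.exp_nat_mul, ← Real.exp_nat_mul]
        push_cast
        calc 16 ^ 2 * Real.exp (2 * H) * (κ₂ * ((n : ℝ) + 1) *
              Real.exp (2 * (n * (Real.log 2 + hd - hb) / 2)))
            = (256 * κ₂ * ((n : ℝ) + 1)) * (Real.exp (2 * H) *
              Real.exp (2 * (n * (Real.log 2 + hd - hb) / 2))) := by ring
          _ ≤ Real.exp (n * (g0 / 2)) * (Real.exp (2 * H) *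
              Real.exp (2 * (n * (Real.log 2 + hd - hb) / 2))) :=
              mul_le_mul_of_nonneg_right E8 (by positivity)
          _ = Real.exp (n * (g0 / 2) + (2 * H + 2 * (n * (Real.log 2 + hd - hb) / 2))) := by
              rw [Real.exp_add, Real.exp_add]
          _ ≤ Real.exp (2 * (n * hd - s)) := by
              rw [Real.exp_le_exp]
              have a3 : (s : ℝ) ≤ g0 / 8 * n := hsn.trans (mul_le_mul_of_nonneg_right b3 hn0.le)
              have a4 : n * (g0 / 2) + (2 * H + 2 * (n * (Real.log 2 + hd - hb) / 2)) =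
                  2 * (n * hd) + 2 * H - n * (g0 / 2) := by
                rw [hg0]
                ring
              rw [a4]
              linarith
      refine hηle _ _ ?_
      linarith
    · -- c2
      intro r hr
      refine hηle _ _ ?_
      calc 8 * Real.exp H * (V ^ r * Real.exp (-(κ * n)))
          ≤ 8 * Real.exp H * ((R ^ r * Real.exp (κ / 2 * n)) * Real.exp (-(κ * n))) := by
            refine mul_le_mul_of_nonneg_left ?_ (by positivity)
            exact mul_le_mul_of_nonneg_right (hVRr r hr) (by positivity)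
        _ = R ^ r * (Real.exp (Real.log 8 + H) * (Real.exp (κ / 2 * n) *
            Real.exp (-(κ * n)))) := by
            rw [h8]
            ring
        _ ≤ R ^ r * 1 := by
            refine mul_le_mul_of_nonneg_left ?_ (by positivity)
            rw [← Real.exp_add, ← Real.exp_add]
            refine Real.exp_le_one_iff.2 ?_
            linarith
        _ = R ^ r := mul_one _
    · -- c3
      intro r hr
      refine hηle _ _ ?_
      calc 8 * Real.exp H * V ^ r ≤ 8 * Real.exp H * (R ^ r * Real.exp (κ / 2 * n)) := by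
            refine mul_le_mul_of_nonneg_left (hVRr r hr) (by positivity)
        _ = R ^ r * (Real.exp (Real.log 8 + H) * Real.exp (κ / 2 * n)) := by
            rw [h8]
            ring
        _ ≤ R ^ r * R := by
            refine mul_le_mul_of_nonneg_left ?_ (by positivity)
            rw [← Real.exp_add, hR, Real.exp_le_exp]
            have : 2 * κ * n ≤ hd * n := mul_le_mul_of_nonneg_right hκh hn0.le
            linarith
        _ = R ^ (r + 1) := (pow_succ _ _).symm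
    · -- c4
      rw [hexpH]
      linarith
    · -- c5
      refine hηle _ _ ?_
      rw [h8, hV2, h2n, ← Real.exp_add, Real.exp_le_exp]
      have a1 : (D + Real.log 8) ≤ g1 / 2 * n := by
        rw [div_le_iff₀ (by positivity)] at E7
        linarith
      have a2 : K1 * s ≤ g1 / 2 * n := by
        calc K1 * s ≤ K1 * (η₀ * n) := mul_le_mul_of_nonneg_left hsn hK1p.le
          _ = (η₀ * K1) * n := by ring
          _ ≤ g1 / 2 * n := mul_le_mul_of_nonneg_right b5' hn0.le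
      have a3 : K1 * s = (2 * A + 1) * D * s + s := by
        rw [hK1]
        ring
      have a4 : n * hd + g1 * n = n * Real.log 2 := by
        rw [hg1]
        ring
      linarith
  obtain ⟨f, hf, hval⟩ := feas_of_ker (ℓ := ℓ) hKer hPar he₀0.le he₀2 Gnear
  rw [← hdd]
  refine ⟨f, hf, fun S hS => le_trans ?_ (hval S)⟩
  have hcard : (1 : ℝ) ≤ S.card := by
    exact_mod_cast Finset.card_pos.2 hS
  rw [le_div_iff₀ (by positivity)]
  have a1 : (2 : ℝ) * 2 ^ 2 ^ ℓ ≤ Real.exp (Real.log 2 + P * Real.log 2) := by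
    rw [hP, exp_two]
  have a2 : (2 ^ n / R) ^ S.card = Real.exp (S.card * (n * Real.log 2 - (n * hd - s))) := by
    rw [h2n, hR, ← Real.exp_sub, ← Real.exp_nat_mul]
  rw [a2]
  refine (mul_le_mul_of_nonneg_left a1 (Real.exp_pos _).le).trans ?_
  rw [← Real.exp_add, Real.exp_le_exp]
  have a3 : c * n / ℓ ≤ s / 2 := by
    have a4 : 4 * (c * n / ℓ) ≤ η₀ * n / ℓ := by
      have : 4 * (c * n / ℓ) = 4 * c * n / ℓ := by ring
      rw [this]
      gcongr
    have a5 : 4 * (1 : ℝ) ≤ C₈ * P := mul_le_mul hC₈c hP1 zero_le_one hC₈0.le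
    linarith
  have a6 : Real.log 2 + P * Real.log 2 ≤ s / 2 := by
    have a7 : Real.log 2 ≤ 1 := by
      have := Real.log_two_lt_d9
      linarith
    have a8 : P * Real.log 2 ≤ P * 1 := mul_le_mul_of_nonneg_left a7 (by linarith)
    have a9 : 4 * P ≤ C₈ * P := mul_le_mul_of_nonneg_right hC₈c (by linarith)
    linarith
  have a9 : Real.log 2 + P * Real.log 2 ≤ S.card * (s - c * n / ℓ) := by
    have a10 : s / 2 ≤ s - c * n / ℓ := by linarith
    have a11 : 0 ≤ (s : ℝ) - c * n / ℓ := by linarith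
    have a12 : 1 * ((s : ℝ) - c * n / ℓ) ≤ S.card * (s - c * n / ℓ) :=
      mul_le_mul_of_nonneg_right hcard a11
    linarith
  rw [← hhd]
  have a13 : (S.card : ℝ) * (n * Real.log 2 - (n * hd - s)) =
      S.card * (n * (Real.log 2 - hd) + c * n / ℓ) + S.card * (s - c * n / ℓ) := by ring
  linarith

end Pool.Agent.helper857_lin
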